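import Pool.Agent.T6.H9.SG.Good

set_option autoImplicit false

/-!
# Sorting the multiplicities
-/

namespace Pool.Agent.T6.H9.SG

open Pool.Agent.H932R2 Pool.Agent.H932R3 Pool.Agent.H932R7

theorem sorted_list {n : ℕ} (W : Fin n → ℕ) : ∃ L0 : List (Fin n), L0.Nodup ∧
    (∀ i ∈ L0, 1 ≤ W i) ∧ L0.Pairwise (fun a b => W b ≤ W a) ∧
    (L0.map W).sum = ∑ i, W i ∧ (L0.map fun i => W i * W i).sum = ∑ i, W i * W i := by
  classical
  let r : Fin n → Fin n → Prop := fun a b => W b ≤ W a
  have : Std.Total r := ⟨fun a b => (le_total (W b) (W a))⟩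
  have : IsTrans (Fin n) r := ⟨fun a b c hab hbc => le_trans hbc hab⟩
  have : DecidableRel r := fun a b => inferInstanceAs (Decidable (W b ≤ W a))
  let s : Finset (Fin n) := Finset.univ.filter fun i => 1 ≤ W i
  have hp : (s.toList.insertionSort r).Perm s.toList := List.perm_insertionSort r s.toList
  refine ⟨s.toList.insertionSort r, hp.nodup_iff.2 s.nodup_toList, fun i hi => ?_,
    List.pairwise_insertionSort r s.toList, ?_, ?_⟩
  · have h1 : i ∈ s.toList := hp.mem_iff.1 hi
    rw [Finset.mem_toList, Finset.mem_filter] at h1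
    exact h1.2
  · rw [(hp.map W).sum_eq, Finset.sum_map_toList, Finset.sum_filter]
    refine Finset.sum_congr rfl fun i _ => ?_
    split_ifs with h
    · rfl
    · omega
  · rw [(hp.map fun i => W i * W i).sum_eq, Finset.sum_map_toList, Finset.sum_filter]
    refine Finset.sum_congr rfl fun i _ => ?_
    split_ifs with h
    · rfl
    · have : W i = 0 := by omega
      rw [this, mul_zero]

theorem exists_third {n : ℕ} (hn : 4 ≤ n) (a b : Fin n) : ∃ c : Fin n, c ≠ a ∧ c ≠ b := by
  by_contra hcon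
  push Not at hcon
  have h0 := hcon ⟨0, by omega⟩
  have h1 := hcon ⟨1, by omega⟩
  have h2 := hcon ⟨2, by omega⟩
  simp only [ne_eq, Fin.ext_iff] at h0 h1 h2
  omega

theorem take_three {n d : ℕ} (hn : 4 ≤ n) {W : Fin n → ℕ}
    (hs : ∀ i j l : Fin n, i ≠ j → i ≠ l → j ≠ l → W i + W j + W l ≤ d) {L0 : List (Fin n)}
    (hnd : L0.Nodup) : ((L0.map W).take 3).sum ≤ d := by
  match L0, hnd with
  | [], _ => simp
  | [a], _ =>
    obtain ⟨b, hb, -⟩ := exists_third hn a a
    obtain ⟨c, hc, hc'⟩ := exists_third hn a b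
    have := hs a b c hb.symm hc.symm hc'.symm
    simp
    omega
  | [a, b], h =>
    obtain ⟨c, hc, hc'⟩ := exists_third hn a b
    have hab : a ≠ b := by
      intro h0
      simp [h0] at h
    have := hs a b c hab hc.symm hc'.symm
    simp
    omega
  | a :: b :: c :: L, h =>
    have h1 := List.nodup_cons.1 h
    have h2 := List.nodup_cons.1 h1.2
    have hab : a ≠ b := fun h0 => h1.1 (by simp [h0])
    have hac : a ≠ c := fun h0 => h1.1 (by simp [h0])
    have hbc : b ≠ c := fun h0 => h2.1 (by simp [h0])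
    have := hs a b c hab hac hbc
    simp
    omega

theorem le_deg {n d : ℕ} (hn : 4 ≤ n) {W : Fin n → ℕ}
    (hs : ∀ i j l : Fin n, i ≠ j → i ≠ l → j ≠ l → W i + W j + W l ≤ d) (a : Fin n) : W a ≤ d := by
  obtain ⟨b, hb, -⟩ := exists_third hn a a
  obtain ⟨c, hc, hc'⟩ := exists_third hn a b
  have := hs a b c hb.symm hc.symm hc'.symm
  omega

/-- The classes found by the search. -/
theorem covered {tab : List (ℕ × List ℕ)} (htab : ∀ e ∈ tab, Cov e.1 e.2) {n d c : ℕ}
    (hn : 4 ≤ n) {W : Fin n → ℕ}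
    (hs : ∀ i j l : Fin n, i ≠ j → i ≠ l → j ≠ l → W i + W j + W l ≤ d)
    (hK : ∑ i, W i = 3 * d + c) (hsq : d * d + 2 - c ≤ ∑ i, W i * W i)
    (hgo : go tab d 200 [] d (3 * d + c) (d * d + 2 - c) = true) :
    RkS (PF ℚ W) (Tset d) (Tfin d).card ∨
      ∃ (T : Finset (Fin n)) (m : ℕ), T.card = 9 ∧ d = 3 * m ∧ ∀ i ∈ T, W i = m := by
  classical
  obtain ⟨L0, hnd, hpos, hpw, hsum, hsqs⟩ := sorted_list W
  have hmap : (L0.map W).length = L0.length := List.length_map _
  have hget : ∀ (i : ℕ) (hi : i < L0.length), (L0.map W).getD i 0 = W (L0.get ⟨i, hi⟩) := by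
    intro i hi
    rw [List.getD_eq_getElem _ _ (by rw [hmap]; exact hi), List.getElem_map]
    rfl
  have h1 := go_sound Cov.mono htab d 200 [] d _ _ hgo (L0.map W) (by rw [hsum, hK])
    (fun v hv => by
      obtain ⟨i, hi, rfl⟩ := List.mem_map.1 hv
      exact ⟨hpos i hi, le_deg hn hs i⟩)
    (List.pairwise_map.2 hpw) (by
      rw [List.map_map]
      exact hsq.trans (le_of_eq hsqs.symm)) (by
      rw [List.nil_append]
      exact take_three hn hs hnd)
  rw [List.nil_append] at h1
  rcases h1 with h1 | h1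
  · refine Or.inl (h1 n W (fun i => L0.get (Fin.cast hmap i)) ?_ fun i => ?_)
    · exact (List.nodup_iff_injective_get.1 hnd).comp (Fin.cast_injective hmap)
    · exact le_of_eq (hget i.1 (by rw [← hmap]; exact i.2))
  · obtain ⟨h2, h3⟩ := (fam_iff d 9 _).1 h1
    rw [hmap] at h2
    refine Or.inr ⟨Finset.univ.image fun i : Fin 9 => L0.get (Fin.castLE h2 i), d / 3, ?_, ?_,
      fun i hi => ?_⟩
    · have hinj : Function.Injective fun i : Fin 9 => L0.get (Fin.castLE h2 i) :=
        (List.nodup_iff_injective_get.1 hnd).comp (Fin.castLE_injective h2)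
      rw [Finset.card_image_of_injective _ hinj]
      rfl
    · have := h3 0 (by omega)
      omega
    · obtain ⟨j, -, rfl⟩ := Finset.mem_image.1 hi
      have h4 := h3 j.1 j.2
      rw [hget j.1 (lt_of_lt_of_le j.2 h2)] at h4
      have h5 : L0.get ⟨j.1, lt_of_lt_of_le j.2 h2⟩ = L0.get (Fin.castLE h2 j) := rfl
      rw [h5] at h4
      omega

end Pool.Agent.T6.H9.SG
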