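import Pool.Agent.T6.H9.SG.All
import Pool.Agent.T6.H9.SG.Sort
import Pool.Agent.Results.MP_6e81d8_ag.FixedGenusIsFinite

set_option autoImplicit false

/-!
# Emptiness of the standard classes of small canonical degree
-/

namespace Pool.Agent.T6.H9.SG

open Pool.Agent.TH167.SHDefs Pool.Agent.Results.MP_6e81d8_ag.FixedGenusIsFinite
open Pool.Agent.H932R2 Pool.Agent.H932R3 Pool.Agent.H932R7

theorem sum_eq {n d : ℕ} {w : Fin n → ℕ} {c : ℕ} (h : interK d w = c) :
    ∑ i, w i = 3 * d + c := by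
  unfold interK at h
  have h1 : ((∑ i, w i : ℕ) : ℤ) = 3 * d + c := by
    push_cast
    linarith
  exact_mod_cast h1

theorem sq_ge {n d : ℕ} {w : Fin n → ℕ} {c : ℕ} (h : interK d w = c) (hv : virtdim d w ≤ -1) :
    d * d + 2 - c ≤ ∑ i, w i * w i := by
  have h1 := sum_eq h
  have e2 : ∀ u : ℕ, 2 * (u + 1).choose 2 = u * u + u := fun u => by
    rw [Nat.choose_two_right, Nat.add_sub_cancel, Nat.mul_div_cancel']
    · ring
    · exact (Nat.even_mul_pred_self (u + 1)).two_dvd
  have e3 : (d + 2).choose 2 ≤ ∑ i, (w i + 1).choose 2 := by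
    unfold virtdim at hv
    have h2 : ((d + 2).choose 2 : ℤ) ≤ ((∑ i, (w i + 1).choose 2 : ℕ) : ℤ) := by
      push_cast
      linarith
    exact_mod_cast h2
  have e4 : 2 * ∑ i, (w i + 1).choose 2 = ∑ i, w i * w i + ∑ i, w i := by
    rw [Finset.mul_sum, ← Finset.sum_add_distrib]
    exact Finset.sum_congr rfl fun i _ => e2 (w i)
  have e5 : 2 * (d + 2).choose 2 = d * d + 3 * d + 2 := by
    have := e2 (d + 1)
    rw [this]
    ring
  omega

theorem empty_of_search {c D : ℕ} (hsearch : search table c D = true) {n : ℕ} (hn : 4 ≤ n)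
    {d : ℕ} {w : Fin n → ℕ} (hs : Standard d w) (hv : virtdim d w ≤ -1) (hK : interK d w = c)
    (hd : d < D) : Empty d w := by
  rcases covered table_cov hn hs (sum_eq hK) (sq_ge hK hv) (search_sound hsearch hd) with
    h | ⟨T, m, h1, h2, h3⟩
  · exact empty_of_rk h
  · rw [empty_iff]
    intro P hP
    obtain ⟨r, rfl⟩ : ∃ r, n = r + 4 := ⟨n - 4, by omega⟩
    have hχ : Pool.Agent.TH167.SH.chi d w ≤ 0 := by
      rw [Pool.Agent.TH167.SH.virtdim_eq] at hv
      omega
    rw [Pool.Agent.R355.Gen.family_empty hP h1 h2 h3 (Pool.Agent.R355.Gen.kk_neg hs hχ),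
      finrank_bot]
    rfl

/-- The standard classes with `vdim ≤ -1` and `K D ≤ 4` are empty. -/
theorem empty_small {n : ℕ} (hn : 4 ≤ n) {d : ℕ} {w : Fin n → ℕ} (hs : Standard d w)
    (hv : virtdim d w ≤ -1) (hK : interK d w ≤ 4) : Empty d w := by
  obtain ⟨h1, h2⟩ := Pool.Agent.Results.MP_6e81d8_ag.FixedGenusIsFinite.result.2.2.2.1 n hn d w hs hv
  rcases h2 with ⟨h2, -⟩ | ⟨-, h2⟩
  · obtain ⟨c, hc⟩ : ∃ c : ℤ, c = interK d w := ⟨_, rfl⟩
    rw [← hc] at h1 h2 hK
    interval_cases c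
    · exact empty_of_search search_1 hn hs hv hc.symm (by omega)
    · exact empty_of_search search_2 hn hs hv hc.symm (by omega)
    · exact empty_of_search search_3 hn hs hv hc.symm (by omega)
    · exact empty_of_search search_4 hn hs hv hc.symm (by omega)
  · exact h2

end Pool.Agent.T6.H9.SG
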