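import Pool.Agent.T6.H9.SG.Sort
import Pool.Agent.H932R3.WedgeMain

set_option autoImplicit false

/-!
# Classes with at most two positive multiplicities
-/

namespace Pool.Agent.T6.H9.SG

open Polynomial Pool.Agent.H932R2 Pool.Agent.H932R3 Pool.Agent.H932R7 Pool.Agent.TH167.SHDefs

/-- Independent conditions: the dimension at general points. -/
theorem dim_of_rk {n d : ℕ} {W : Fin n → ℕ}
    (h : RkS (PF ℚ W) (Tset d) (∑ i, (W i + 1).choose 2)) :
    ∃ F : MvPolynomial (Fin n × Fin 2) ℂ, F ≠ 0 ∧ ∀ P : Fin n → Fin 2 → ℂ,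
      MvPolynomial.eval (fun ij : Fin n × Fin 2 => P ij.1 ij.2) F ≠ 0 →
        Module.finrank ℂ ↥(sys P d W) = (d + 2).choose 2 - ∑ i, (W i + 1).choose 2 := by
  have hsum : ∑ i, (EE 1 (W i)).card = ∑ i, (W i + 1).choose 2 :=
    Finset.sum_congr rfl fun i _ => card_EE_eq (W i)
  obtain ⟨F, hF, hF'⟩ := T_HOP ℂ n W _ _ h
  refine ⟨MvPolynomial.map (algebraMap ℚ ℂ) F, ?_, fun P hP => ?_⟩
  · intro h0
    exact hF (MvPolynomial.map_injective _ (algebraMap ℚ ℂ).injective (by rw [h0, map_zero]))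
  · rw [MvPolynomial.eval_map] at hP
    have h1 := hF' (fun ij => P ij.1 ij.2) (by rwa [MvPolynomial.aeval_def])
    rw [← hsum] at h1
    have h2 := finrank_indep h1 d le_rfl
    rw [hsum] at h2
    rw [← h2]
    refine finrank_forms _ _ fun G hG => ?_
    rw [Submodule.restrictScalars_mem, Submodule.restrictScalars_mem]
    unfold vIdeal
    rw [Ideal.mem_iInf, Ideal.mem_iInf]
    exact forall_congr' fun i => mem_ptIdeal_iff hG

/-- The two points. -/
def two {n : ℕ} (i j : Fin n) : Option (Option Empty) → Fin n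
  | none => i
  | some none => j
  | some (some a) => a.elim

/-- At most two positive multiplicities. -/
theorem rkS_two {n d : ℕ} {W : Fin n → ℕ} {i j : Fin n} (hij : i ≠ j) (hd : W i + W j ≤ d)
    (hz : ∀ l, l ≠ i → l ≠ j → W l = 0) :
    RkS (PF ℚ W) (Tset d) (∑ i, (W i + 1).choose 2) := by
  classical
  have h0 : RkS (PF ℚ fun a : Empty => 0) {p | p.1 + W j ≤ d ∧ p.2 + W i ≤ d ∧ p.1 + p.2 ≤ d} 0 :=
    ⟨_, ⟨fun a => a.elim, fun a => a.elim, rfl⟩, fun i => i.elim0, fun i => i.elim0,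
      fun _ _ i => i.elim0⟩
  have h1 := Pool.Agent.W609.T.bridge2 (by omega) h0
  have hsum : ∑ i, (W i + 1).choose 2 = 0 + (W j + 1).choose 2 + (W i + 1).choose 2 := by
    have h2 : ∑ l ∈ ({i, j} : Finset (Fin n)), (W l + 1).choose 2 = ∑ l, (W l + 1).choose 2 := by
      refine Finset.sum_subset (Finset.subset_univ _) fun l _ hl => ?_
      rw [Finset.mem_insert, Finset.mem_singleton] at hl
      push Not at hl
      rw [hz l hl.1 hl.2]
      rfl
    rw [← h2, Finset.sum_pair hij]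
    ring
  rw [hsum]
  refine rkS_embed (two i j) ?_ ?_ h1
  · rintro (_ | _ | a) (_ | _ | b) h
    · rfl
    · exact absurd h hij
    · exact b.elim
    · exact absurd h.symm hij
    · rfl
    · exact b.elim
    · exact a.elim
    · exact a.elim
    · exact a.elim
  · rintro (_ | _ | a)
    · exact le_rfl
    · exact le_rfl
    · exact a.elim

theorem two_nonspecial {n d : ℕ} (hn : 4 ≤ n) {W : Fin n → ℕ}
    (hs : ∀ i j l : Fin n, i ≠ j → i ≠ l → j ≠ l → W i + W j + W l ≤ d)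
    (h3 : ¬ ∃ a b c : Fin n, a ≠ b ∧ a ≠ c ∧ b ≠ c ∧ 1 ≤ W a ∧ 1 ≤ W b ∧ 1 ≤ W c) :
    ∃ F : MvPolynomial (Fin n × Fin 2) ℂ, F ≠ 0 ∧ ∀ P : Fin n → Fin 2 → ℂ,
      MvPolynomial.eval (fun ij : Fin n × Fin 2 => P ij.1 ij.2) F ≠ 0 →
        dimL P d W = max (virtdim d W) (-1) := by
  classical
  obtain ⟨i, j, hij, hz⟩ : ∃ i j : Fin n, i ≠ j ∧ ∀ l, l ≠ i → l ≠ j → W l = 0 := by
    by_cases h1 : ∃ a, 1 ≤ W a
    · obtain ⟨a, ha⟩ := h1
      by_cases h2 : ∃ b, b ≠ a ∧ 1 ≤ W b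
      · obtain ⟨b, hb, hb1⟩ := h2
        refine ⟨a, b, hb.symm, fun l hla hlb => ?_⟩
        by_contra h4
        exact h3 ⟨a, b, l, hb.symm, hla.symm, hlb.symm, ha, hb1, by omega⟩
      · push Not at h2
        obtain ⟨b, hb, -⟩ := exists_third hn a a
        refine ⟨a, b, hb.symm, fun l hla _ => ?_⟩
        have := h2 l hla
        omega
    · push Not at h1
      obtain ⟨b, hb, -⟩ := exists_third hn ⟨0, by omega⟩ ⟨0, by omega⟩
      refine ⟨⟨0, by omega⟩, b, hb.symm, fun l _ _ => ?_⟩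
      have := h1 l
      omega
  obtain ⟨k, hk, hk'⟩ := exists_third hn i j
  have h4 := hs i j k hij hk.symm hk'.symm
  have h5 : W i + W j ≤ d := by omega
  obtain ⟨F, hF, hF'⟩ := dim_of_rk (rkS_two hij h5 hz)
  refine ⟨F, hF, fun P hP => ?_⟩
  have h6 := hF' P hP
  have hsum : ∑ i, (W i + 1).choose 2 = (W j + 1).choose 2 + (W i + 1).choose 2 := by
    have h2 : ∑ l ∈ ({i, j} : Finset (Fin n)), (W l + 1).choose 2 = ∑ l, (W l + 1).choose 2 := by
      refine Finset.sum_subset (Finset.subset_univ _) fun l _ hl => ?_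
      rw [Finset.mem_insert, Finset.mem_singleton] at hl
      push Not at hl
      rw [hz l hl.1 hl.2]
      rfl
    rw [← h2, Finset.sum_pair hij]
    ring
  have e2 : ∀ u : ℕ, 2 * (u + 1).choose 2 = u * u + u := fun u => by
    rw [Nat.choose_two_right, Nat.add_sub_cancel, Nat.mul_div_cancel']
    · ring
    · exact (Nat.even_mul_pred_self (u + 1)).two_dvd
  have h7 : ∑ i, (W i + 1).choose 2 ≤ (d + 2).choose 2 := by
    rw [hsum]
    have e3 := e2 (W i)
    have e4 := e2 (W j)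
    have e5 : 2 * (d + 2).choose 2 = (d + 1) * (d + 1) + (d + 1) := e2 (d + 1)
    nlinarith
  have h8 : virtdim d W = ((d + 2).choose 2 - ∑ i, (W i + 1).choose 2 : ℕ) - 1 := by
    unfold virtdim
    rw [Nat.cast_sub h7]
    push_cast
    ring
  unfold dimL
  rw [h6, h8, max_eq_left]
  have : (0 : ℤ) ≤ ((d + 2).choose 2 - ∑ i, (W i + 1).choose 2 : ℕ) := Int.natCast_nonneg _
  omega

end Pool.Agent.T6.H9.SG
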