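import Pool.Agent.T6.H9.SG.Good

set_option autoImplicit false
set_option maxRecDepth 100000

/-!
# Certificates
-/

namespace Pool.Agent.T6.H9.SG

theorem cov_100 : Cov 36 [12, 12, 12, 12, 12, 12, 12, 12, 11, 5] := cov_of 12 12 12
  [(12, [(327, 965), (269, 381), (974, 1005), (273, 515), (341, 665)]), (11, [(97, 818)]), (5, [(48, 50)])]
  [(0, 12), (0, 13), (0, 14), (0, 15), (0, 16), (0, 17), (0, 18), (0, 19), (0, 20), (0, 21), (0, 22), (0, 23), (1, 11), (1, 12), (1, 13), (1, 14), (1, 15), (1, 16), (1, 17), (1, 18), (1, 19), (1, 20), (1, 21), (2, 10), (2, 11), (2, 12), (2, 13), (2, 14), (2, 15), (2, 16), (2, 17), (2, 18), (2, 19), (3, 9), (3, 10), (3, 11), (3, 12), (3, 13), (3, 14), (3, 15), (3, 16), (3, 17), (4, 8), (4, 9), (4, 10), (4, 11), (4, 12), (4, 13), (4, 14), (4, 15), (5, 7), (5, 8), (5, 9), (5, 10), (5, 11), (5, 12), (5, 13), (6, 6), (6, 7), (6, 8), (6, 9), (6, 10), (6, 11), (7, 5), (7, 6), (7, 7), (7, 8), (7,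 9), (8, 4), (8, 5), (8, 6), (8, 7), (9, 3), (9, 4), (9, 5), (10, 2), (10, 3), (11, 1), (3, 20), (3, 21), (3, 22), (3, 23), (5, 14), (5, 15), (5, 16), (5, 17), (5, 18), (5, 19), (5, 24), (6, 12), (5, 22), (5, 23), (5, 20), (3, 24), (1, 23), (1, 24), (0, 24), (6, 13), (6, 14), (6, 15), (6, 16), (2, 20), (5, 21), (1, 22), (6, 17), (6, 18), (6, 19), (6, 20), (6, 21), (4, 16), (7, 10), (6, 24), (2, 21), (2, 22), (2, 23), (6, 22), (4, 17), (7, 11), (7, 12), (7, 13), (6, 23), (7, 14), (7, 15), (7, 16), (7, 17), (7, 18), (7, 19), (8, 8), (7, 21), (7, 22), (7, 23), (7, 24), (4, 18), (8, 9), (8, 10), (4, 21), (7, 20), (4, 19), (8, 11), (8, 12), (9, 6), (8, 13), (8, 14), (8, 15), (9, 7), (9, 8), (8, 18), (9, 9), (9, 10), (10, 4), (9, 11), (10, 5), (10, 6), (10, 7), (11, 2), (11, 3), (4, 20), (8, 16), (8, 17), (8, 19), (8, 20), (8, 22), (9, 12), (9, 13), (9, 14), (9, 15), (9, 16), (9, 17), (9, 18), (9, 19), (9, 20), (9, 21), (9, 22),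 (9, 23), (9, 24), (2, 24), (3, 18), (10, 8), (8, 23), (8, 24), (4, 22), (8, 21), (10, 9), (10, 10), (10, 11), (10, 12), (10, 13), (10, 14), (10, 15), (10, 16), (10, 17), (10, 18), (10, 19), (10, 20), (11, 4), (10, 22), (10, 23), (10, 24), (3, 19), (11, 5), (11, 6), (11, 7), (11, 8), (11, 9), (10, 21), (4, 23), (11, 10), (12, 0), (11, 11), (11, 12), (11, 13), (11, 14), (11, 15), (12, 1), (12, 2), (11, 18), (11, 19), (11, 20), (11, 21), (12, 3), (12, 4), (11, 24), (4, 24), (11, 16), (12, 5), (12, 6), (11, 23), (11, 17), (12, 7), (12, 8), (11, 22), (12, 9), (12, 10), (12, 11), (12, 12), (12, 13), (12, 14), (12, 15), (12, 16), (12, 17), (12, 18), (12, 19), (12, 20), (12, 21), (12, 22), (12, 23), (13, 0), (13, 1), (13, 2), (13, 3), (13, 4), (13, 5), (13, 6), (13, 7), (13, 8), (13, 9), (13, 10), (13, 11), (13, 12), (13, 13), (13, 14), (13, 15), (13, 16), (13, 17), (13, 18), (13, 19), (13, 20), (14, 0), (14, 1), (14, 2), (14,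 3), (14, 4), (14, 5), (14, 6), (14, 7), (14, 8), (14, 9), (14, 10), (14, 11), (14, 12), (14, 13), (14, 14), (14, 15), (14, 16), (15, 0), (15, 1), (15, 2), (15, 3), (15, 4), (15, 5), (15, 6), (15, 7), (15, 8), (15, 9), (15, 10), (15, 11), (15, 12), (16, 0), (16, 1), (16, 2), (16, 3), (16, 4), (16, 5), (16, 6), (16, 7), (16, 8), (17, 0), (17, 1), (17, 2), (17, 3), (17, 4), (18, 0), (15, 18), (15, 19), (15, 20), (15, 21), (12, 24), (14, 17), (14, 18), (14, 19), (14, 20), (14, 21), (14, 22), (13, 21), (13, 22), (16, 9), (16, 10), (16, 11), (16, 12), (16, 13), (16, 14), (16, 15), (16, 16), (16, 17), (16, 18), (16, 19), (16, 20), (13, 23), (15, 13), (15, 14), (15, 15), (15, 16), (17, 5), (17, 6), (17, 7), (17, 8), (17, 9), (17, 10), (17, 11), (17, 12), (17, 13), (17, 14), (17, 15), (17, 16), (17, 17), (17, 18), (17, 19), (15, 17), (18, 1), (18, 2), (18, 3), (18, 4), (18, 5), (18, 6), (18, 7), (18, 8), (18, 9), (18, 10), (18,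 11), (18, 12), (18, 13), (18, 14), (18, 15), (18, 16), (18, 17), (19, 0), (19, 1), (19, 2), (19, 3), (19, 4), (19, 5), (19, 6), (19, 7), (19, 8), (19, 9), (19, 10), (19, 11), (20, 0), (20, 1), (20, 2), (19, 14), (19, 15), (19, 16), (19, 17), (18, 18), (19, 12), (19, 13), (20, 3), (20, 4), (20, 5), (20, 6), (20, 7), (20, 8), (20, 9), (20, 10), (20, 11), (20, 12), (20, 13), (20, 14), (20, 15), (20, 16), (21, 0), (21, 1), (21, 2), (21, 3), (21, 4), (21, 5), (21, 6), (21, 7), (21, 8), (21, 9), (21, 10), (21, 11), (21, 12), (21, 13), (21, 14), (21, 15), (22, 0), (22, 1), (22, 2), (22, 3), (22, 4), (22, 5), (22, 6), (22, 7), (22, 8), (22, 9), (22, 10), (22, 11), (22, 12), (22, 13), (22, 14), (23, 0), (23, 1), (23, 2), (23, 3), (23, 4), (23, 5), (23, 6), (23, 7), (23, 8), (23, 9), (23, 10), (23, 11), (23, 12), (23, 13), (24, 0), (24, 1), (24, 2), (24, 3), (24, 4), (24, 5), (24, 6), (24, 7), (24, 8), (24, 9), (24, 10), (24, 11),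 (24, 12)]
  469 236 (by decide +kernel) (by decide +kernel)

end Pool.Agent.T6.H9.SG
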