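import Pool.Agent.T6.H9.SG.Good

set_option autoImplicit false
set_option maxRecDepth 100000

/-!
# Certificates
-/

namespace Pool.Agent.T6.H9.SG

theorem cov_32 : Cov 27 [9, 9, 9, 9, 9, 9, 9, 9, 8, 4] := cov_of 9 9 9
  [(9, [(627, 770), (278, 269), (1001, 202), (729, 80), (371, 499)]), (8, [(936, 244)]), (4, [(551, 846)])]
  [(0, 9), (0, 10), (0, 11), (0, 12), (0, 13), (0, 14), (0, 15), (0, 16), (0, 17), (1, 8), (1, 9), (1, 10), (1, 11), (1, 12), (1, 13), (1, 14), (1, 15), (2, 7), (2, 8), (2, 9), (2, 10), (2, 11), (2, 12), (2, 13), (3, 6), (3, 7), (3, 8), (3, 9), (3, 10), (3, 11), (4, 5), (4, 6), (4, 7), (4, 8), (4, 9), (5, 4), (5, 5), (5, 6), (5, 7), (6, 3), (6, 4), (6, 5), (7, 2), (7, 3), (8, 1), (3, 18), (2, 16), (2, 17), (2, 18), (1, 18), (0, 18), (4, 10), (4, 11), (4, 12), (4, 13), (4, 14), (4, 15), (4, 16), (4, 17), (4, 18), (5, 8), (5, 9), (2, 14), (2, 15), (1, 16), (5, 10), (5,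 11), (5, 12), (5, 13), (1, 17), (5, 14), (5, 15), (5, 16), (5, 17), (6, 6), (3, 12), (3, 13), (3, 14), (6, 7), (6, 8), (5, 18), (6, 9), (6, 10), (7, 4), (6, 12), (7, 5), (7, 6), (7, 7), (8, 2), (8, 3), (6, 18), (3, 15), (3, 16), (6, 11), (6, 13), (6, 14), (6, 15), (7, 8), (7, 9), (7, 10), (7, 11), (7, 12), (7, 13), (7, 14), (7, 15), (7, 16), (7, 17), (7, 18), (3, 17), (6, 16), (8, 4), (8, 5), (8, 6), (6, 17), (8, 7), (8, 8), (8, 9), (8, 10), (8, 11), (8, 12), (9, 0), (9, 1), (8, 15), (8, 16), (8, 17), (9, 2), (9, 3), (8, 14), (8, 18), (9, 4), (9, 5), (8, 13), (9, 6), (9, 7), (9, 8), (9, 9), (9, 10), (9, 11), (9, 12), (9, 13), (9, 14), (9, 15), (9, 16), (9, 17), (10, 0), (10, 1), (10, 2), (10, 3), (10, 4), (10, 5), (10, 6), (10, 7), (10, 8), (10, 9), (10, 10), (10, 11), (10, 12), (10, 13), (10, 14), (11, 0), (11, 1), (11, 2), (11, 3), (11, 4), (11, 5), (11, 6), (11, 7), (11, 8), (11, 9),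 (11, 10), (12, 0), (12, 1), (12, 2), (12, 3), (12, 4), (12, 5), (12, 6), (13, 0), (13, 1), (13, 2), (10, 17), (9, 18), (10, 15), (10, 16), (11, 11), (11, 12), (11, 13), (12, 7), (12, 8), (12, 9), (12, 10), (12, 11), (12, 12), (12, 13), (12, 14), (12, 15), (11, 14), (11, 15), (11, 16), (13, 3), (13, 4), (13, 5), (13, 6), (13, 7), (13, 8), (13, 9), (13, 10), (13, 11), (13, 12), (13, 13), (13, 14), (14, 0), (14, 1), (14, 2), (14, 3), (14, 4), (14, 5), (14, 6), (14, 7), (14, 8), (14, 9), (14, 10), (15, 0), (15, 1), (15, 2), (14, 11), (14, 12), (14, 13), (15, 3), (15, 4), (15, 5), (15, 6), (15, 7), (15, 8), (15, 9), (15, 10), (15, 11), (15, 12), (16, 0), (16, 1), (16, 2), (16, 3), (16, 4), (16, 5), (16, 6), (16, 7), (16, 8), (16, 9), (16, 10), (16, 11), (17, 0), (17, 1), (17, 2), (17, 3), (17, 4), (17, 5), (17, 6), (17, 7), (17, 8), (17, 9), (17, 10), (18, 0), (18, 1), (18, 2), (18, 3), (18,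 4), (18, 5), (18, 6), (18, 7), (18, 8), (18, 9)]
  271 136 (by decide +kernel) (by decide +kernel)

theorem cov_89 : Cov 27 [9, 9, 9, 9, 9, 9, 9, 9, 7, 6] := cov_of 9 9 9
  [(9, [(315, 652), (175, 680), (625, 897), (603, 264), (236, 97)]), (7, [(456, 788)]), (6, [(608, 782)])]
  [(0, 9), (0, 10), (0, 11), (0, 12), (0, 13), (0, 14), (0, 15), (0, 16), (0, 17), (1, 8), (1, 9), (1, 10), (1, 11), (1, 12), (1, 13), (1, 14), (1, 15), (2, 7), (2, 8), (2, 9), (2, 10), (2, 11), (2, 12), (2, 13), (3, 6), (3, 7), (3, 8), (3, 9), (3, 10), (3, 11), (4, 5), (4, 6), (4, 7), (4, 8), (4, 9), (5, 4), (5, 5), (5, 6), (5, 7), (6, 3), (6, 4), (6, 5), (7, 2), (7, 3), (8, 1), (3, 18), (2, 16), (2, 17), (2, 18), (1, 18), (0, 18), (4, 10), (4, 11), (4, 12), (4, 13), (4, 14), (4, 15), (4, 16), (4, 17), (4, 18), (5, 8), (5, 9), (2, 14), (2, 15), (1, 16), (5, 10), (5, 11), (5, 12), (5, 13), (1, 17), (5, 14), (5, 15),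 (5, 16), (5, 17), (6, 6), (3, 12), (3, 13), (3, 14), (6, 7), (6, 8), (5, 18), (6, 9), (6, 10), (7, 4), (6, 12), (7, 5), (7, 6), (7, 7), (8, 2), (8, 3), (6, 18), (3, 15), (3, 16), (6, 11), (6, 13), (6, 14), (6, 15), (7, 8), (7, 9), (7, 10), (7, 11), (7, 12), (7, 13), (7, 14), (7, 15), (7, 16), (7, 17), (7, 18), (3, 17), (6, 16), (8, 4), (8, 5), (8, 6), (6, 17), (8, 7), (8, 8), (8, 9), (8, 10), (8, 11), (8, 12), (9, 0), (9, 1), (8, 15), (8, 16), (8, 17), (9, 2), (9, 3), (8, 14), (8, 18), (9, 4), (9, 5), (8, 13), (9, 6), (9, 7), (9, 8), (9, 9), (9, 10), (9, 11), (9, 12), (9, 13), (9, 14), (9, 15), (9, 16), (9, 17), (10, 0), (10, 1), (10, 2), (10, 3), (10, 4), (10, 5), (10, 6), (10, 7), (10, 8), (10, 9), (10, 10), (10, 11), (10, 12), (10, 13), (10, 14), (11, 0), (11, 1), (11, 2), (11, 3), (11, 4), (11, 5), (11, 6), (11, 7), (11, 8), (11, 9), (11, 10), (12, 0), (12, 1), (12, 2), (12, 3), (12,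 4), (12, 5), (12, 6), (13, 0), (13, 1), (13, 2), (10, 17), (9, 18), (10, 15), (10, 16), (11, 11), (11, 12), (11, 13), (12, 7), (12, 8), (12, 9), (12, 10), (12, 11), (12, 12), (12, 13), (12, 14), (12, 15), (11, 14), (11, 15), (11, 16), (13, 3), (13, 4), (13, 5), (13, 6), (13, 7), (13, 8), (13, 9), (13, 10), (13, 11), (13, 12), (13, 13), (13, 14), (14, 0), (14, 1), (14, 2), (14, 3), (14, 4), (14, 5), (14, 6), (14, 7), (14, 8), (14, 9), (14, 10), (15, 0), (15, 1), (15, 2), (14, 11), (14, 12), (14, 13), (15, 3), (15, 4), (15, 5), (15, 6), (15, 7), (15, 8), (15, 9), (15, 10), (15, 11), (15, 12), (16, 0), (16, 1), (16, 2), (16, 3), (16, 4), (16, 5), (16, 6), (16, 7), (16, 8), (16, 9), (16, 10), (16, 11), (17, 0), (17, 1), (17, 2), (17, 3), (17, 4), (17, 5), (17, 6), (17, 7), (17, 8), (17, 9), (17, 10), (18, 0), (18, 1), (18, 2), (18, 3), (18, 4), (18, 5), (18, 6), (18, 7), (18, 8), (18, 9)]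
  271 137 (by decide +kernel) (by decide +kernel)

theorem cov_90 : Cov 27 [9, 9, 9, 9, 9, 9, 9, 8, 8, 6] := cov_of 9 9 9
  [(9, [(455, 586), (798, 144), (641, 926), (610, 848)]), (8, [(550, 354), (183, 501)]), (6, [(859, 788)])]
  [(0, 9), (0, 10), (0, 11), (0, 12), (0, 13), (0, 14), (0, 15), (0, 16), (0, 17), (1, 8), (1, 9), (1, 10), (1, 11), (1, 12), (1, 13), (1, 14), (1, 15), (2, 7), (2, 8), (2, 9), (2, 10), (2, 11), (2, 12), (2, 13), (3, 6), (3, 7), (3, 8), (3, 9), (3, 10), (3, 11), (4, 5), (4, 6), (4, 7), (4, 8), (4, 9), (5, 4), (5, 5), (5, 6), (5, 7), (6, 3), (6, 4), (6, 5), (7, 2), (7, 3), (8, 1), (3, 18), (2, 16), (2, 17), (2, 18), (1, 18), (0, 18), (4, 10), (4, 11), (4, 12), (4, 13), (4, 14), (4, 15), (4, 16), (4, 17), (4, 18), (5, 8), (5, 9), (2, 14), (2, 15), (1, 16), (5, 10), (5, 11), (5, 12), (5, 13), (1, 17), (5, 14), (5, 15), (5, 16), (5, 17), (6, 6), (3, 12), (3, 13), (3,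 14), (6, 7), (6, 8), (5, 18), (6, 9), (6, 10), (7, 4), (6, 12), (7, 5), (7, 6), (7, 7), (8, 2), (8, 3), (6, 18), (3, 15), (3, 16), (6, 11), (6, 13), (6, 14), (6, 15), (7, 8), (7, 9), (7, 10), (7, 11), (7, 12), (7, 13), (7, 14), (7, 15), (7, 16), (7, 17), (7, 18), (3, 17), (6, 16), (8, 4), (8, 5), (8, 6), (6, 17), (8, 7), (8, 8), (8, 9), (8, 10), (8, 11), (8, 12), (9, 0), (9, 1), (8, 15), (8, 16), (8, 17), (9, 2), (9, 3), (8, 14), (8, 18), (9, 4), (9, 5), (8, 13), (9, 6), (9, 7), (9, 8), (9, 9), (9, 10), (9, 11), (9, 12), (9, 13), (9, 14), (9, 15), (9, 16), (9, 17), (10, 0), (10, 1), (10, 2), (10, 3), (10, 4), (10, 5), (10, 6), (10, 7), (10, 8), (10, 9), (10, 10), (10, 11), (10, 12), (10, 13), (10, 14), (11, 0), (11, 1), (11, 2), (11, 3), (11, 4), (11, 5), (11, 6), (11, 7), (11, 8), (11, 9), (11, 10), (12, 0), (12, 1), (12, 2), (12, 3), (12, 4), (12, 5), (12, 6), (13, 0), (13, 1), (13, 2),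 (10, 17), (9, 18), (10, 15), (10, 16), (11, 11), (11, 12), (11, 13), (12, 7), (12, 8), (12, 9), (12, 10), (12, 11), (12, 12), (12, 13), (12, 14), (12, 15), (11, 14), (11, 15), (11, 16), (13, 3), (13, 4), (13, 5), (13, 6), (13, 7), (13, 8), (13, 9), (13, 10), (13, 11), (13, 12), (13, 13), (14, 0), (14, 1), (14, 2), (14, 3), (14, 4), (14, 5), (13, 14), (14, 6), (14, 7), (14, 8), (14, 9), (14, 10), (14, 11), (14, 12), (14, 13), (15, 0), (15, 1), (15, 2), (15, 3), (15, 4), (15, 5), (15, 6), (15, 7), (15, 8), (15, 9), (15, 10), (15, 11), (15, 12), (16, 0), (16, 1), (16, 2), (16, 3), (16, 4), (16, 5), (16, 6), (16, 7), (16, 8), (16, 9), (16, 10), (16, 11), (17, 0), (17, 1), (17, 2), (17, 3), (17, 4), (17, 5), (17, 6), (17, 7), (17, 8), (17, 9), (17, 10), (18, 0), (18, 1), (18, 2), (18, 3), (18, 4), (18, 5), (18, 6), (18, 7), (18, 8), (18, 9)]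
  271 137 (by decide +kernel) (by decide +kernel)

theorem cov_91 : Cov 27 [9, 9, 9, 9, 9, 9, 9, 8, 7, 7] := cov_of 9 9 9
  [(9, [(77, 333), (197, 319), (494, 465), (144, 13)]), (8, [(915, 79)]), (7, [(222, 567), (78, 507)])]
  [(0, 9), (0, 10), (0, 11), (0, 12), (0, 13), (0, 14), (0, 15), (0, 16), (0, 17), (1, 8), (1, 9), (1, 10), (1, 11), (1, 12), (1, 13), (1, 14), (1, 15), (2, 7), (2, 8), (2, 9), (2, 10), (2, 11), (2, 12), (2, 13), (3, 6), (3, 7), (3, 8), (3, 9), (3, 10), (3, 11), (4, 5), (4, 6), (4, 7), (4, 8), (4, 9), (5, 4), (5, 5), (5, 6), (5, 7), (6, 3), (6, 4), (6, 5), (7, 2), (7, 3), (8, 1), (3, 18), (2, 16), (2, 17), (2, 18), (1, 18), (0, 18), (4, 10), (4, 11), (4, 12), (4, 13), (4, 14), (4, 15), (4, 16), (4, 17), (4, 18), (5, 8), (5, 9), (2, 14), (2, 15), (1, 16), (5, 10), (5, 11), (5, 12), (5, 13), (1, 17), (5, 14), (5, 15), (5, 16), (5, 17), (6, 6), (3, 12), (3, 13), (3, 14),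 (6, 7), (6, 8), (5, 18), (6, 9), (6, 10), (7, 4), (6, 12), (7, 5), (7, 6), (7, 7), (8, 2), (8, 3), (6, 18), (3, 15), (3, 16), (6, 11), (6, 13), (6, 14), (6, 15), (7, 8), (7, 9), (7, 10), (7, 11), (7, 12), (7, 13), (7, 14), (7, 15), (7, 16), (7, 17), (7, 18), (3, 17), (6, 16), (8, 4), (8, 5), (8, 6), (6, 17), (8, 7), (8, 8), (8, 9), (8, 10), (8, 11), (8, 12), (9, 0), (9, 1), (8, 15), (8, 16), (8, 17), (9, 2), (9, 3), (8, 14), (8, 18), (9, 4), (9, 5), (8, 13), (9, 6), (9, 7), (9, 8), (9, 9), (9, 10), (9, 11), (9, 12), (9, 13), (9, 14), (9, 15), (9, 16), (9, 17), (10, 0), (10, 1), (10, 2), (10, 3), (10, 4), (10, 5), (10, 6), (10, 7), (10, 8), (10, 9), (10, 11), (10, 10), (10, 12), (10, 13), (10, 14), (11, 0), (11, 1), (11, 2), (11, 3), (11, 4), (11, 5), (11, 6), (11, 7), (11, 8), (11, 9), (11, 10), (12, 0), (12, 1), (12, 2), (12, 3), (12, 4), (12, 5), (12, 6), (13, 0), (13, 1), (13, 2), (10,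 17), (10, 15), (9, 18), (10, 16), (11, 11), (11, 12), (11, 13), (12, 7), (12, 8), (12, 9), (12, 10), (12, 11), (12, 12), (12, 13), (12, 14), (12, 15), (11, 14), (11, 15), (11, 16), (13, 3), (13, 4), (13, 5), (13, 6), (13, 7), (13, 8), (13, 9), (13, 10), (13, 11), (13, 12), (13, 13), (14, 0), (14, 1), (14, 2), (14, 3), (14, 4), (14, 5), (13, 14), (14, 6), (14, 7), (14, 8), (14, 9), (14, 10), (14, 11), (14, 12), (14, 13), (15, 0), (15, 1), (15, 2), (15, 3), (15, 4), (15, 5), (15, 6), (15, 7), (15, 8), (15, 9), (15, 10), (15, 11), (15, 12), (16, 0), (16, 1), (16, 2), (16, 3), (16, 4), (16, 5), (16, 6), (16, 7), (16, 8), (16, 9), (16, 10), (16, 11), (17, 0), (17, 1), (17, 2), (17, 3), (17, 4), (17, 5), (17, 6), (17, 7), (17, 8), (17, 9), (17, 10), (18, 0), (18, 1), (18, 2), (18, 3), (18, 4), (18, 5), (18, 6), (18, 7), (18, 8), (18, 9)]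
  271 136 (by decide +kernel) (by decide +kernel)

end Pool.Agent.T6.H9.SG
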