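import Pool.Agent.T6.H9.SG.Good

set_option autoImplicit false
set_option maxRecDepth 100000

/-!
# Certificates
-/

namespace Pool.Agent.T6.H9.SG

theorem cov_31 : Cov 24 [8, 8, 8, 8, 8, 8, 8, 8, 7, 4] := cov_of 8 8 8
  [(8, [(320, 973), (595, 330), (801, 854), (42, 807), (462, 853)]), (7, [(119, 97)]), (4, [(490, 789)])]
  [(0, 8), (0, 9), (0, 10), (0, 11), (0, 12), (0, 13), (0, 14), (0, 15), (1, 7), (1, 8), (1, 9), (1, 10), (1, 11), (1, 12), (1, 13), (2, 6), (2, 7), (2, 8), (2, 9), (2, 10), (2, 11), (3, 5), (3, 6), (3, 7), (3, 8), (3, 9), (4, 4), (4, 5), (4, 6), (4, 7), (5, 3), (5, 4), (5, 5), (6, 2), (6, 3), (7, 1), (3, 11), (3, 12), (3, 13), (3, 14), (3, 15), (3, 16), (2, 13), (4, 8), (2, 15), (2, 16), (2, 14), (4, 9), (4, 10), (4, 11), (4, 12), (4, 13), (4, 14), (4, 15), (4, 16), (1, 15), (5, 6), (0, 16), (1, 16), (5, 7), (5, 8), (5, 9), (5, 10), (5, 11), (5, 12), (6,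 4), (5, 14), (6, 5), (6, 6), (6, 7), (7, 2), (7, 3), (5, 15), (5, 16), (1, 14), (6, 8), (6, 9), (6, 10), (6, 11), (6, 12), (6, 13), (6, 14), (6, 15), (6, 16), (3, 10), (7, 4), (5, 13), (2, 12), (7, 5), (7, 6), (7, 7), (7, 8), (7, 9), (7, 10), (8, 0), (7, 12), (7, 13), (7, 14), (8, 1), (8, 2), (7, 11), (7, 15), (8, 3), (8, 4), (7, 16), (8, 5), (8, 6), (8, 7), (8, 8), (9, 0), (8, 10), (9, 1), (8, 12), (9, 2), (8, 14), (9, 3), (9, 4), (10, 0), (9, 5), (10, 1), (9, 6), (10, 2), (8, 11), (10, 3), (11, 0), (10, 4), (11, 1), (9, 10), (9, 11), (11, 2), (12, 0), (10, 5), (10, 6), (8, 9), (11, 3), (11, 4), (9, 8), (9, 14), (10, 7), (10, 8), (8, 15), (9, 15), (10, 9), (10, 10), (10, 11), (10, 12), (10, 13), (10, 14), (9, 7), (9, 9), (9, 12), (8, 13), (8, 16), (11, 5), (11, 6), (11, 7), (11, 8), (11, 9), (11, 10), (11, 11), (11, 12), (11, 13), (9, 13), (12, 1), (12, 2), (12, 3), (12,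 4), (12, 5), (12, 6), (12, 7), (12, 8), (12, 9), (12, 10), (12, 11), (13, 0), (13, 1), (13, 2), (13, 3), (13, 4), (13, 5), (12, 12), (13, 6), (13, 7), (13, 8), (13, 9), (13, 10), (13, 11), (14, 0), (14, 1), (14, 2), (14, 3), (14, 4), (14, 5), (14, 6), (14, 7), (14, 8), (14, 9), (14, 10), (15, 0), (15, 1), (15, 2), (15, 3), (15, 4), (15, 5), (15, 6), (15, 7), (15, 8), (15, 9), (16, 0), (16, 1), (16, 2), (16, 3), (16, 4), (16, 5), (16, 6), (16, 7), (16, 8)]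
  217 109 (by decide +kernel) (by decide +kernel)

theorem cov_79 : Cov 24 [8, 8, 8, 8, 8, 8, 8, 8, 7, 3, 2] := cov_of 8 8 8
  [(8, [(837, 610), (231, 614), (656, 587), (688, 419), (16, 940)]), (7, [(426, 556)]), (3, [(1007, 26)]), (2, [(999, 856)])]
  [(0, 8), (0, 9), (0, 10), (0, 11), (0, 12), (0, 13), (0, 14), (0, 15), (1, 7), (1, 8), (1, 9), (1, 10), (1, 11), (1, 12), (1, 13), (2, 6), (2, 7), (2, 8), (2, 9), (2, 10), (2, 11), (3, 5), (3, 6), (3, 7), (3, 8), (3, 9), (4, 4), (4, 5), (4, 6), (4, 7), (5, 3), (5, 4), (5, 5), (6, 2), (6, 3), (7, 1), (3, 11), (3, 12), (3, 13), (3, 14), (3, 15), (3, 16), (2, 13), (4, 8), (2, 15), (2, 16), (2, 14), (4, 9), (4, 10), (4, 11), (4, 12), (4, 13), (4, 14), (4, 15), (4, 16), (1, 15), (5, 6), (0, 16), (1, 16), (5, 7), (5, 8), (5, 9), (5, 10), (5, 11), (5, 12), (6, 4), (5, 14), (6, 5), (6, 6), (6, 7), (7, 2), (7, 3), (5, 15), (5, 16),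 (1, 14), (6, 8), (6, 9), (6, 10), (6, 11), (6, 12), (6, 13), (6, 14), (6, 15), (6, 16), (3, 10), (7, 4), (5, 13), (2, 12), (7, 5), (7, 6), (7, 7), (7, 8), (7, 9), (7, 10), (8, 0), (7, 12), (7, 13), (7, 14), (8, 1), (8, 2), (7, 11), (7, 15), (8, 3), (8, 4), (7, 16), (8, 5), (8, 6), (8, 7), (8, 8), (8, 9), (8, 10), (8, 11), (8, 12), (8, 13), (8, 14), (8, 15), (9, 0), (9, 1), (9, 2), (9, 3), (9, 4), (9, 5), (9, 6), (9, 7), (9, 8), (9, 9), (9, 10), (9, 11), (9, 12), (10, 0), (10, 1), (10, 2), (10, 3), (10, 4), (10, 5), (10, 6), (10, 7), (10, 8), (11, 0), (11, 1), (11, 2), (11, 3), (11, 4), (12, 0), (10, 11), (10, 12), (10, 13), (10, 14), (9, 13), (9, 14), (9, 15), (8, 16), (10, 9), (11, 5), (11, 6), (11, 7), (11, 8), (11, 9), (11, 10), (11, 11), (11, 12), (11, 13), (10, 10), (12, 1), (12, 2), (12, 3), (12, 4), (12, 5), (12, 6), (12, 7), (12, 8), (12, 9), (12, 10), (12, 11),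 (13, 0), (13, 1), (13, 2), (13, 3), (13, 5), (13, 4), (12, 12), (13, 6), (13, 7), (13, 8), (13, 9), (13, 10), (13, 11), (14, 0), (14, 1), (14, 2), (14, 3), (14, 4), (14, 5), (14, 6), (14, 7), (14, 8), (14, 9), (14, 10), (15, 0), (15, 1), (15, 2), (15, 3), (15, 4), (15, 5), (15, 6), (15, 7), (15, 8), (15, 9), (16, 0), (16, 1), (16, 2), (16, 3), (16, 4), (16, 5), (16, 6), (16, 7), (16, 8)]
  217 109 (by decide +kernel) (by decide +kernel)

theorem cov_80 : Cov 24 [8, 8, 8, 8, 8, 8, 8, 8, 6, 6] := cov_of 8 8 8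
  [(8, [(152, 426), (820, 485), (181, 12), (346, 488), (239, 307)]), (6, [(961, 945), (729, 581)])]
  [(0, 8), (0, 9), (0, 10), (0, 11), (0, 12), (0, 13), (0, 14), (0, 15), (1, 7), (1, 8), (1, 9), (1, 10), (1, 11), (1, 12), (1, 13), (2, 6), (2, 7), (2, 8), (2, 9), (2, 10), (2, 11), (3, 5), (3, 6), (3, 7), (3, 8), (3, 9), (4, 4), (4, 5), (4, 6), (4, 7), (5, 3), (5, 4), (5, 5), (6, 2), (6, 3), (7, 1), (3, 11), (3, 12), (3, 13), (3, 14), (3, 15), (3, 16), (2, 13), (4, 8), (2, 15), (2, 16), (2, 14), (4, 9), (4, 10), (4, 11), (4, 12), (4, 13), (4, 14), (4, 15), (4, 16), (1, 15), (5, 6), (0, 16), (1, 16), (5, 7), (5, 8), (5, 9), (5, 10), (5, 11), (5, 12), (6, 4), (5, 14), (6, 5), (6, 6), (6, 7), (7, 2), (7, 3), (5, 15), (5, 16), (1, 14), (6, 8), (6, 9), (6, 10), (6, 11), (6, 12), (6, 13), (6, 14), (6, 15), (6, 16), (3, 10), (7, 4), (5, 13), (2, 12), (7, 5), (7, 6), (7, 7), (7,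 8), (7, 9), (7, 10), (8, 0), (7, 12), (7, 13), (7, 14), (8, 1), (8, 2), (7, 11), (7, 15), (8, 3), (8, 4), (7, 16), (8, 5), (8, 6), (8, 7), (8, 8), (8, 9), (8, 10), (8, 11), (8, 12), (8, 13), (8, 14), (8, 15), (9, 0), (9, 1), (9, 2), (9, 3), (9, 4), (9, 5), (9, 6), (9, 7), (9, 8), (9, 9), (9, 10), (9, 11), (9, 12), (10, 0), (10, 1), (10, 2), (10, 3), (10, 4), (10, 5), (10, 6), (10, 7), (10, 8), (11, 0), (11, 1), (11, 2), (11, 3), (11, 4), (12, 0), (10, 11), (10, 12), (10, 13), (10, 14), (9, 13), (9, 14), (9, 15), (8, 16), (10, 9), (11, 5), (11, 6), (11, 7), (11, 8), (11, 9), (11, 10), (11, 11), (11, 12), (11, 13), (10, 10), (12, 1), (12, 2), (12, 3), (12, 4), (12, 5), (12, 6), (12, 7), (12, 8), (12, 9), (12, 10), (12, 11), (13, 0), (13, 1), (13, 2), (13, 3), (13, 4), (13, 5), (12, 12), (13, 6), (13, 7), (13, 8), (13, 9), (13, 10), (13, 11), (14, 0), (14, 1), (14, 2), (14,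 3), (14, 4), (14, 5), (14, 6), (14, 7), (14, 8), (14, 9), (14, 10), (15, 0), (15, 1), (15, 2), (15, 3), (15, 4), (15, 5), (15, 6), (15, 7), (15, 8), (15, 9), (16, 0), (16, 1), (16, 2), (16, 3), (16, 4), (16, 5), (16, 6), (16, 7), (16, 8)]
  217 111 (by decide +kernel) (by decide +kernel)

theorem cov_81 : Cov 24 [8, 8, 8, 8, 8, 8, 8, 8, 6, 5, 1] := cov_of 8 8 8
  [(8, [(371, 144), (543, 777), (538, 753), (592, 759), (128, 81)]), (6, [(59, 831)]), (5, [(315, 912)]), (1, [(940, 311)])]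
  [(0, 8), (0, 9), (0, 10), (0, 11), (0, 12), (0, 13), (0, 14), (0, 15), (1, 7), (1, 8), (1, 9), (1, 10), (1, 11), (1, 12), (1, 13), (2, 6), (2, 7), (2, 8), (2, 9), (2, 10), (2, 11), (3, 5), (3, 6), (3, 7), (3, 8), (3, 9), (4, 4), (4, 5), (4, 6), (4, 7), (5, 3), (5, 4), (5, 5), (6, 2), (6, 3), (7, 1), (3, 11), (3, 12), (3, 13), (3, 14), (3, 15), (3, 16), (2, 13), (4, 8), (2, 15), (2, 16), (2, 14), (4, 9), (4, 10), (4, 11), (4, 12), (4, 13), (4, 14), (4, 15), (4, 16), (1, 15), (5, 6), (0, 16), (1, 16), (5, 7), (5, 8), (5, 9), (5, 10), (5, 11), (5, 12), (6, 4), (5, 14), (6, 5), (6, 6), (6, 7), (7, 2), (7, 3), (5, 15), (5, 16), (1, 14), (6, 8), (6, 9), (6, 10), (6, 11), (6, 12), (6, 13), (6, 14), (6, 15), (6, 16), (3, 10), (7, 4), (5, 13), (2, 12), (7, 5), (7, 6), (7, 7), (7, 8), (7, 9), (7, 10), (8, 0), (7, 12), (7, 13), (7, 14), (8, 1), (8, 2), (7, 11), (7, 15), (8, 3), (8,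 4), (7, 16), (8, 5), (8, 6), (8, 7), (8, 8), (8, 9), (8, 10), (8, 11), (8, 12), (8, 13), (8, 14), (8, 15), (9, 0), (9, 1), (9, 2), (9, 3), (9, 4), (9, 5), (9, 6), (9, 7), (9, 8), (9, 9), (9, 10), (9, 11), (9, 12), (10, 0), (10, 1), (10, 2), (10, 3), (10, 4), (10, 5), (10, 6), (10, 7), (10, 8), (11, 0), (11, 1), (11, 2), (11, 3), (11, 4), (12, 0), (10, 11), (10, 12), (10, 13), (10, 14), (9, 13), (9, 14), (9, 15), (8, 16), (10, 9), (11, 5), (11, 6), (11, 7), (11, 8), (11, 9), (11, 10), (11, 11), (11, 12), (11, 13), (10, 10), (12, 1), (12, 2), (12, 3), (12, 4), (12, 5), (12, 6), (12, 7), (12, 8), (12, 9), (12, 10), (12, 11), (13, 0), (13, 1), (13, 2), (13, 3), (13, 4), (13, 5), (12, 12), (13, 6), (13, 7), (13, 8), (13, 9), (13, 10), (13, 11), (14, 0), (14, 1), (14, 2), (14, 3), (14, 4), (14, 5), (14, 6), (14, 7), (14, 8), (14, 9), (14, 10), (15, 0), (15, 1), (15, 2), (15, 3),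 (15, 4), (15, 5), (15, 6), (15, 7), (15, 8), (15, 9), (16, 0), (16, 1), (16, 2), (16, 3), (16, 4), (16, 5), (16, 6), (16, 7), (16, 8)]
  217 109 (by decide +kernel) (by decide +kernel)

theorem cov_82 : Cov 24 [8, 8, 8, 8, 8, 8, 8, 7, 7, 6] := cov_of 8 8 8
  [(8, [(132, 752), (911, 248), (405, 492), (368, 344)]), (7, [(35, 968), (543, 435)]), (6, [(216, 445)])]
  [(0, 8), (0, 9), (0, 10), (0, 11), (0, 12), (0, 13), (0, 14), (0, 15), (1, 7), (1, 8), (1, 9), (1, 10), (1, 11), (1, 12), (1, 13), (2, 6), (2, 7), (2, 8), (2, 9), (2, 10), (2, 11), (3, 5), (3, 6), (3, 7), (3, 8), (3, 9), (4, 4), (4, 5), (4, 6), (4, 7), (5, 3), (5, 4), (5, 5), (6, 2), (6, 3), (7, 1), (3, 11), (3, 12), (3, 13), (3, 14), (3, 15), (3, 16), (2, 13), (4, 8), (2, 15), (2, 16), (2, 14), (4, 9), (4, 10), (4, 11), (4, 12), (4, 13), (4, 14), (4, 15), (4, 16), (1, 15), (5, 6), (0, 16), (1, 16), (5, 7), (5,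 8), (5, 9), (5, 10), (5, 11), (5, 12), (6, 4), (5, 14), (6, 5), (6, 6), (6, 7), (7, 2), (7, 3), (5, 15), (5, 16), (1, 14), (6, 8), (6, 9), (6, 10), (6, 11), (6, 12), (6, 13), (6, 14), (6, 15), (6, 16), (3, 10), (7, 4), (5, 13), (2, 12), (7, 5), (7, 6), (7, 7), (7, 8), (7, 9), (7, 10), (8, 0), (7, 12), (7, 13), (7, 14), (8, 1), (8, 2), (7, 11), (7, 15), (8, 3), (8, 4), (7, 16), (8, 5), (8, 6), (8, 7), (8, 8), (8, 9), (8, 10), (8, 11), (8, 12), (8, 13), (8, 14), (8, 15), (9, 0), (9, 1), (9, 2), (9, 3), (9, 4), (9, 5), (9, 6), (9, 7), (9, 8), (9, 9), (9, 10), (9, 11), (9, 12), (10, 0), (10, 1), (10, 2), (10, 3), (10, 4), (10, 5), (10, 6), (10, 7), (10, 8), (11, 0), (11, 1), (11, 2), (11, 3), (11, 4), (12, 0), (10, 11), (10, 12), (10, 13), (10, 14), (9, 13), (9, 14), (9, 15), (8, 16), (10, 9), (11, 5), (11, 6), (11, 7), (11, 8), (11, 9), (11, 10), (11, 11), (11, 12), (11, 13),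 (10, 10), (12, 1), (12, 2), (12, 3), (12, 4), (12, 5), (12, 6), (12, 7), (12, 8), (13, 0), (12, 10), (12, 11), (12, 12), (12, 9), (13, 1), (13, 2), (13, 3), (13, 4), (13, 5), (13, 6), (13, 7), (13, 8), (13, 9), (13, 10), (13, 11), (14, 0), (14, 1), (14, 2), (14, 3), (14, 4), (14, 5), (14, 6), (14, 7), (14, 8), (14, 9), (14, 10), (15, 0), (15, 1), (15, 2), (15, 3), (15, 4), (15, 5), (15, 6), (15, 7), (15, 8), (15, 9), (16, 0), (16, 1), (16, 2), (16, 3), (16, 4), (16, 5), (16, 6), (16, 7), (16, 8)]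
  217 111 (by decide +kernel) (by decide +kernel)

theorem cov_83 : Cov 24 [8, 8, 8, 8, 8, 8, 7, 7, 7, 7] := cov_of 8 8 8
  [(8, [(668, 419), (441, 999), (467, 174)]), (7, [(701, 924), (692, 775), (229, 512), (742, 99)])]
  [(0, 8), (0, 9), (0, 10), (0, 11), (0, 12), (0, 13), (0, 14), (0, 15), (1, 7), (1, 8), (1, 9), (1, 10), (1, 11), (1, 12), (1, 13), (2, 6), (2, 7), (2, 8), (2, 9), (2, 10), (2, 11), (3, 5), (3, 6), (3, 7), (3, 8), (3, 9), (4, 4), (4, 5), (4, 6), (4, 7), (5, 3), (5, 4), (5, 5), (6, 2), (6, 3), (7, 1), (3, 11), (3, 12), (3, 13), (3, 14), (3, 15), (3, 16), (2, 13), (4, 8), (2, 15), (2, 16), (2, 14), (4, 9), (4, 10), (4, 11), (4, 12), (4, 13), (4, 14), (4, 15), (4, 16), (1, 15), (5, 6), (0, 16), (1, 16), (5, 7), (5, 8), (5, 9), (5, 10), (5, 11), (5, 12), (6, 4), (5, 14), (6, 5), (6, 6), (6, 7), (7, 2), (7, 3), (5, 15), (5, 16), (1, 14), (6, 8), (6, 9), (6,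 10), (6, 11), (6, 12), (6, 13), (6, 14), (6, 15), (6, 16), (3, 10), (7, 4), (5, 13), (2, 12), (7, 5), (7, 6), (7, 7), (7, 8), (7, 9), (7, 10), (8, 0), (7, 12), (7, 13), (7, 14), (8, 1), (8, 2), (7, 11), (7, 15), (8, 3), (8, 4), (7, 16), (8, 5), (8, 6), (8, 7), (8, 8), (8, 9), (8, 10), (8, 11), (8, 12), (8, 13), (8, 14), (9, 0), (9, 1), (9, 2), (9, 3), (9, 4), (9, 5), (9, 6), (9, 7), (9, 8), (9, 9), (9, 10), (10, 0), (10, 1), (10, 2), (10, 3), (10, 4), (10, 5), (10, 6), (11, 0), (11, 1), (11, 2), (9, 12), (9, 13), (9, 14), (9, 15), (10, 7), (10, 8), (10, 9), (10, 10), (10, 11), (10, 12), (10, 13), (10, 14), (8, 16), (8, 15), (9, 11), (11, 3), (11, 4), (11, 5), (11, 6), (11, 7), (11, 8), (11, 9), (11, 10), (11, 11), (11, 12), (12, 0), (12, 1), (12, 2), (11, 13), (12, 3), (12, 4), (12, 5), (12, 6), (12, 7), (12, 8), (12, 9), (12, 10), (12, 11), (12, 12), (13, 0), (13, 1), (13,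 2), (13, 3), (13, 4), (13, 5), (13, 6), (13, 7), (13, 8), (13, 9), (13, 10), (13, 11), (14, 0), (14, 1), (14, 2), (14, 3), (14, 4), (14, 5), (14, 6), (14, 7), (14, 8), (14, 9), (14, 10), (15, 0), (15, 1), (15, 2), (15, 3), (15, 4), (15, 5), (15, 6), (15, 7), (15, 8), (15, 9), (16, 0), (16, 1), (16, 2), (16, 3), (16, 4), (16, 5), (16, 6), (16, 7), (16, 8)]
  217 110 (by decide +kernel) (by decide +kernel)

theorem cov_78 : Cov 22 [7, 7, 7, 7, 7, 7, 7, 7, 7, 7] := cov_of 7 7 7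
  [(7, [(105, 641), (699, 66), (37, 356), (699, 974), (881, 458), (144, 649), (226, 957)])]
  [(0, 7), (0, 8), (0, 9), (0, 10), (0, 11), (0, 12), (0, 13), (1, 6), (1, 7), (1, 8), (1, 9), (1, 10), (1, 11), (2, 5), (2, 6), (2, 7), (2, 8), (2, 9), (3, 4), (3, 5), (3, 6), (3, 7), (4, 3), (4, 4), (4, 5), (5, 2), (5, 3), (6, 1), (2, 14), (2, 15), (1, 15), (0, 14), (0, 15), (1, 12), (3, 8), (3, 9), (3, 10), (3, 11), (3, 12), (3, 13), (3, 14), (3, 15), (1, 13), (1, 14), (2, 10), (4, 6), (4, 7), (4, 8), (4, 9), (4, 10), (4, 11), (4, 12), (5, 4), (5, 5), (5, 6), (6, 2), (2, 12), (4, 13), (4, 14), (4, 15), (5, 7), (5, 8), (5, 9), (5, 10), (5, 11), (5, 12), (5, 13), (5, 14), (5, 15), (2, 13), (6, 3), (6, 4), (6, 5), (2, 11), (6, 6), (6, 7), (6, 8), (6, 9), (6, 10), (6, 11), (6, 12), (6, 13), (6, 14), (6, 15), (7, 0), (7, 1), (7, 2), (7, 3), (7, 4), (7, 5), (7, 6), (7, 7), (7, 8), (7,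 9), (7, 10), (7, 11), (7, 12), (8, 0), (8, 1), (8, 2), (8, 3), (8, 4), (8, 5), (8, 6), (8, 7), (8, 8), (9, 0), (9, 1), (9, 2), (9, 3), (9, 4), (10, 0), (8, 12), (8, 13), (8, 14), (7, 13), (7, 14), (7, 15), (8, 9), (8, 10), (9, 5), (9, 6), (9, 7), (9, 8), (9, 9), (9, 10), (9, 11), (9, 12), (9, 13), (8, 11), (10, 1), (10, 2), (10, 3), (10, 4), (10, 5), (10, 6), (10, 7), (10, 8), (10, 9), (11, 0), (10, 11), (10, 12), (10, 10), (11, 1), (11, 2), (11, 3), (11, 4), (11, 5), (11, 6), (11, 7), (11, 8), (11, 9), (11, 10), (11, 11), (12, 0), (12, 1), (12, 2), (12, 3), (12, 4), (12, 5), (12, 6), (12, 7), (12, 8), (12, 9), (12, 10), (13, 0), (13, 1), (13, 2), (13, 3), (13, 4), (13, 5), (13, 6), (13, 7), (13, 8), (13, 9), (14, 0), (14, 1), (14, 2), (14, 3), (14, 4), (14, 5), (14, 6), (14, 7), (14, 8), (15, 0), (15, 1), (15, 2), (15, 3), (15, 4), (15, 5), (15, 6), (15, 7)]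
  192 98 (by decide +kernel) (by decide +kernel)

theorem cov_76 : Cov 22 [8, 7, 7, 7, 7, 7, 7, 7, 7, 6] := cov_of 8 7 7
  [(7, [(997, 136), (133, 187), (804, 401), (627, 837), (231, 634), (486, 207)]), (6, [(702, 538)])]
  [(0, 7), (0, 8), (0, 9), (0, 10), (0, 11), (0, 12), (0, 13), (1, 6), (1, 7), (1, 8), (1, 9), (1, 10), (1, 11), (2, 5), (2, 6), (2, 7), (2, 8), (2, 9), (3, 4), (3, 5), (3, 6), (3, 7), (4, 3), (4, 4), (4, 5), (5, 2), (5, 3), (6, 1), (2, 14), (2, 15), (1, 15), (0, 14), (0, 15), (1, 12), (3, 8), (3, 9), (3, 10), (3, 11), (3, 12), (3, 13), (3, 14), (3, 15), (1, 13), (1, 14), (2, 10), (4, 6), (4, 7), (4, 8), (4, 9), (4, 10), (4, 11), (4, 12), (5, 4), (5, 5), (5, 6), (6, 2), (2, 12), (4, 13), (4, 14), (4, 15), (5, 7), (5, 8), (5, 9), (5, 10), (5, 11), (5, 12), (5, 13), (5, 14), (5, 15), (2, 13), (6, 3), (6, 4), (6, 5), (2, 11), (6, 6), (6, 7), (6, 8), (6, 9),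 (6, 10), (6, 11), (6, 12), (6, 13), (6, 14), (6, 15), (7, 0), (7, 1), (7, 2), (7, 3), (7, 4), (7, 5), (7, 6), (7, 7), (7, 8), (7, 9), (7, 10), (7, 11), (7, 12), (8, 0), (8, 1), (8, 2), (8, 3), (8, 4), (8, 5), (8, 6), (8, 7), (8, 8), (9, 0), (9, 1), (9, 2), (9, 3), (9, 4), (10, 0), (8, 12), (8, 13), (8, 14), (7, 13), (7, 14), (7, 15), (8, 9), (8, 10), (9, 5), (9, 6), (9, 7), (9, 8), (9, 9), (9, 10), (9, 11), (9, 12), (9, 13), (8, 11), (10, 1), (10, 2), (10, 3), (10, 4), (10, 5), (10, 6), (10, 7), (11, 0), (10, 9), (12, 0), (10, 11), (10, 12), (10, 8), (11, 1), (11, 2), (11, 3), (11, 4), (11, 5), (11, 6), (11, 7), (11, 8), (11, 9), (11, 10), (11, 11), (10, 10), (12, 1), (12, 2), (12, 3), (12, 4), (12, 5), (12, 6), (12, 7), (12, 8), (12, 9), (12, 10), (13, 0), (13, 1), (13, 2), (13, 3), (13, 4), (13, 5), (13, 6), (13, 7), (13, 8), (13, 9), (14, 0), (14, 1), (14, 2), (14, 3),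 (14, 4), (14, 5), (14, 6), (14, 7), (14, 8)]
  184 95 (by decide +kernel) (by decide +kernel)

theorem cov_77 : Cov 22 [8, 7, 7, 7, 7, 7, 7, 7, 7, 5, 1] := cov_of 8 7 7
  [(7, [(609, 999), (248, 602), (7, 154), (692, 108), (843, 68), (820, 563)]), (5, [(969, 867)]), (1, [(253, 441)])]
  [(0, 7), (0, 8), (0, 9), (0, 10), (0, 11), (0, 12), (0, 13), (1, 6), (1, 7), (1, 8), (1, 9), (1, 10), (1, 11), (2, 5), (2, 6), (2, 7), (2, 8), (2, 9), (3, 4), (3, 5), (3, 6), (3, 7), (4, 3), (4, 4), (4, 5), (5, 2), (5, 3), (6, 1), (2, 14), (2, 15), (1, 15), (0, 14), (0, 15), (1, 12), (3, 8), (3, 9), (3, 10), (3, 11), (3, 12), (3, 13), (3, 14), (3, 15), (1, 13), (1, 14), (2, 10), (4, 6), (4, 7), (4, 8), (4, 9), (4, 10), (4, 11), (4, 12), (5, 4), (5, 5), (5, 6), (6, 2), (2, 12), (4, 13), (4, 14), (4, 15), (5, 7), (5, 8), (5, 9), (5, 10), (5, 11), (5, 12), (5, 13), (5, 14), (5, 15), (2, 13),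 (6, 3), (6, 4), (6, 5), (2, 11), (6, 6), (6, 7), (6, 8), (6, 9), (6, 10), (6, 11), (6, 12), (6, 13), (6, 14), (6, 15), (7, 0), (7, 1), (7, 2), (7, 3), (7, 4), (7, 5), (7, 6), (7, 7), (7, 8), (7, 9), (7, 10), (7, 11), (7, 12), (8, 0), (8, 1), (8, 2), (8, 3), (8, 4), (8, 5), (8, 6), (8, 7), (8, 8), (9, 0), (9, 1), (9, 2), (9, 3), (9, 4), (10, 0), (8, 12), (8, 13), (8, 14), (7, 13), (7, 14), (7, 15), (8, 9), (8, 10), (9, 5), (9, 6), (9, 7), (9, 8), (9, 9), (9, 10), (9, 11), (9, 12), (9, 13), (8, 11), (10, 1), (10, 2), (10, 3), (10, 4), (10, 5), (10, 6), (10, 7), (10, 8), (10, 9), (11, 0), (10, 11), (10, 12), (10, 10), (11, 1), (11, 2), (11, 3), (11, 4), (11, 5), (11, 6), (11, 7), (11, 8), (11, 9), (11, 10), (11, 11), (12, 0), (12, 1), (12, 2), (12, 3), (12, 4), (12, 5), (12, 6), (12, 7), (12, 8), (12, 9), (12, 10), (13, 0), (13, 1), (13, 2), (13, 3), (13, 4), (13, 5), (13,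 6), (13, 7), (13, 8), (13, 9), (14, 0), (14, 1), (14, 2), (14, 3), (14, 4), (14, 5), (14, 6), (14, 7), (14, 8)]
  184 92 (by decide +kernel) (by decide +kernel)

end Pool.Agent.T6.H9.SG
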