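import Pool.Agent.T6.H9.SG.Good

set_option autoImplicit false
set_option maxRecDepth 100000

/-!
# Certificates
-/

namespace Pool.Agent.T6.H9.SG

theorem cov_28 : Cov 21 [7, 7, 7, 7, 7, 7, 7, 7, 6, 4] := cov_of 7 7 7
  [(7, [(339, 208), (720, 263), (490, 99), (865, 855), (989, 175)]), (6, [(3, 233)]), (4, [(537, 824)])]
  [(0, 7), (0, 8), (0, 9), (0, 10), (0, 11), (0, 12), (0, 13), (1, 6), (1, 7), (1, 8), (1, 9), (1, 10), (1, 11), (2, 5), (2, 6), (2, 7), (2, 8), (2, 9), (3, 4), (3, 5), (3, 6), (3, 7), (4, 3), (4, 4), (4, 5), (5, 2), (5, 3), (6, 1), (1, 13), (1, 14), (0, 14), (3, 8), (3, 9), (3, 10), (3, 11), (3, 12), (3, 13), (3, 14), (2, 10), (2, 11), (4, 6), (2, 12), (4, 7), (4, 8), (4, 9), (4, 10), (4, 11), (4, 12), (4, 13), (5, 4), (2, 13), (5, 5), (5, 6), (5, 7), (6, 2), (6, 3), (5, 8), (5, 9), (5, 10), (5, 11), (5, 12), (5, 13), (5, 14),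 (1, 12), (4, 14), (2, 14), (6, 4), (6, 5), (6, 6), (6, 7), (6, 8), (6, 9), (6, 10), (6, 11), (7, 0), (7, 1), (6, 14), (6, 12), (7, 2), (7, 3), (6, 13), (7, 4), (7, 5), (7, 6), (7, 7), (7, 8), (7, 9), (7, 10), (7, 11), (7, 12), (7, 13), (8, 0), (8, 1), (8, 2), (8, 3), (8, 4), (8, 5), (8, 6), (8, 7), (8, 8), (8, 9), (8, 10), (9, 0), (9, 1), (9, 2), (9, 3), (9, 4), (9, 5), (9, 6), (10, 0), (10, 1), (10, 2), (8, 12), (9, 7), (9, 8), (9, 9), (9, 10), (9, 11), (9, 12), (8, 13), (7, 14), (8, 11), (10, 3), (10, 4), (10, 5), (10, 6), (10, 7), (10, 8), (10, 9), (10, 10), (10, 11), (11, 0), (11, 1), (11, 2), (11, 3), (11, 4), (11, 5), (11, 6), (11, 7), (12, 0), (11, 9), (11, 10), (11, 8), (12, 1), (12, 2), (12, 3), (12, 4), (12, 5), (12, 6), (12, 7), (12, 8), (12, 9), (13, 0), (13, 1), (13, 2), (13, 3), (13, 4), (13, 5), (13, 6), (13, 7), (13, 8), (14, 0),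 (14, 1), (14, 2), (14, 3), (14, 4), (14, 5), (14, 6), (14, 7)]
  169 86 (by decide +kernel) (by decide +kernel)

theorem cov_29 : Cov 21 [7, 7, 7, 7, 7, 7, 7, 7, 5, 5] := cov_of 7 7 7
  [(7, [(311, 25), (391, 233), (678, 111), (731, 444), (661, 765)]), (5, [(750, 196), (192, 568)])]
  [(0, 7), (0, 8), (0, 9), (0, 10), (0, 11), (0, 12), (0, 13), (1, 6), (1, 7), (1, 8), (1, 9), (1, 10), (1, 11), (2, 5), (2, 6), (2, 7), (2, 8), (2, 9), (3, 4), (3, 5), (3, 6), (3, 7), (4, 3), (4, 4), (4, 5), (5, 2), (5, 3), (6, 1), (1, 13), (1, 14), (0, 14), (3, 8), (3, 9), (3, 10), (3, 11), (3, 12), (3, 13), (3, 14), (2, 10), (2, 11), (4, 6), (2, 12), (4, 7), (4, 8), (4, 9), (4, 10), (4, 11), (4, 12), (4, 13), (5, 4), (2, 13), (5, 5), (5, 6), (5, 7), (6, 2), (6, 3), (5, 8), (5, 9), (5, 10), (5, 11), (5, 12), (5, 13), (5, 14), (1, 12), (4, 14), (2, 14), (6, 4), (6,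 5), (6, 6), (6, 7), (6, 8), (6, 9), (6, 10), (6, 11), (7, 0), (7, 1), (6, 14), (6, 12), (7, 2), (7, 3), (6, 13), (7, 4), (7, 5), (7, 6), (7, 7), (7, 8), (7, 9), (7, 10), (7, 11), (7, 12), (7, 13), (8, 0), (8, 1), (8, 2), (8, 3), (8, 4), (8, 5), (8, 6), (8, 7), (8, 8), (8, 9), (8, 10), (9, 0), (9, 1), (9, 2), (9, 3), (9, 4), (9, 5), (9, 6), (10, 0), (10, 1), (10, 2), (8, 12), (9, 7), (9, 8), (9, 9), (9, 10), (9, 11), (9, 12), (8, 13), (7, 14), (8, 11), (10, 3), (10, 4), (10, 5), (10, 6), (10, 7), (10, 8), (10, 9), (10, 10), (10, 11), (11, 0), (11, 1), (11, 2), (11, 3), (11, 4), (11, 5), (11, 6), (11, 7), (12, 0), (11, 9), (11, 10), (11, 8), (12, 1), (12, 2), (12, 3), (12, 4), (12, 5), (12, 6), (12, 7), (12, 8), (12, 9), (13, 0), (13, 1), (13, 2), (13, 3), (13, 4), (13, 5), (13, 6), (13, 7), (13, 8), (14, 0), (14, 1), (14, 2), (14, 3), (14, 4), (14,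 5), (14, 6), (14, 7)]
  169 85 (by decide +kernel) (by decide +kernel)

theorem cov_30 : Cov 21 [7, 7, 7, 7, 7, 7, 7, 6, 6, 5] := cov_of 7 7 7
  [(7, [(37, 855), (971, 1007), (123, 90), (993, 722)]), (6, [(756, 612), (95, 524)]), (5, [(59, 940)])]
  [(0, 7), (0, 8), (0, 9), (0, 10), (0, 11), (0, 12), (0, 13), (1, 6), (1, 7), (1, 8), (1, 9), (1, 10), (1, 11), (2, 5), (2, 6), (2, 7), (2, 8), (2, 9), (3, 4), (3, 5), (3, 6), (3, 7), (4, 3), (4, 4), (4, 5), (5, 2), (5, 3), (6, 1), (1, 13), (1, 14), (0, 14), (3, 8), (3, 9), (3, 10), (3, 11), (3, 12), (3, 13), (3, 14), (2, 10), (2, 11), (4, 6), (2, 12), (4, 7), (4, 8), (4, 9), (4, 10), (4, 11), (4, 12), (4, 13), (5, 4), (2, 13), (5, 5), (5, 6), (5, 7), (6, 2), (6, 3), (5, 8), (5, 9), (5, 10), (5, 11), (5, 12), (5, 13), (5, 14), (1, 12), (4, 14), (2, 14), (6, 4), (6, 5), (6, 6), (6, 7), (6, 8), (6, 9),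 (6, 10), (6, 11), (7, 0), (7, 1), (6, 14), (6, 12), (7, 2), (7, 3), (6, 13), (7, 4), (7, 5), (7, 6), (7, 7), (7, 8), (7, 9), (7, 10), (7, 11), (7, 12), (7, 13), (8, 0), (8, 1), (8, 2), (8, 3), (8, 4), (8, 5), (8, 6), (8, 7), (8, 8), (8, 9), (8, 10), (9, 0), (9, 1), (9, 2), (9, 3), (9, 4), (9, 5), (9, 6), (10, 0), (10, 1), (10, 2), (8, 12), (9, 7), (9, 8), (9, 9), (9, 10), (9, 11), (9, 12), (8, 13), (7, 14), (8, 11), (10, 3), (10, 4), (10, 5), (10, 6), (10, 7), (10, 8), (10, 9), (10, 10), (11, 0), (11, 1), (11, 2), (10, 11), (11, 3), (11, 4), (11, 5), (11, 6), (11, 7), (11, 8), (11, 9), (11, 10), (12, 0), (12, 1), (12, 2), (12, 3), (12, 4), (12, 5), (12, 6), (12, 7), (12, 8), (12, 9), (13, 0), (13, 1), (13, 2), (13, 3), (13, 4), (13, 5), (13, 6), (13, 7), (13, 8), (14, 0), (14, 1), (14, 2), (14, 3), (14, 4), (14, 5), (14, 6), (14, 7)]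
  169 85 (by decide +kernel) (by decide +kernel)

theorem cov_73 : Cov 21 [7, 7, 7, 7, 7, 7, 7, 7, 6, 3, 2] := cov_of 7 7 7
  [(7, [(233, 902), (311, 930), (66, 832), (710, 585), (725, 413)]), (6, [(783, 1007)]), (3, [(803, 120)]), (2, [(690, 988)])]
  [(0, 7), (0, 8), (0, 9), (0, 10), (0, 11), (0, 12), (0, 13), (1, 6), (1, 7), (1, 8), (1, 9), (1, 10), (1, 11), (2, 5), (2, 6), (2, 7), (2, 8), (2, 9), (3, 4), (3, 5), (3, 6), (3, 7), (4, 3), (4, 4), (4, 5), (5, 2), (5, 3), (6, 1), (1, 13), (1, 14), (0, 14), (3, 8), (3, 9), (3, 10), (3, 11), (3, 12), (3, 13), (3, 14), (2, 10), (2, 11), (4, 6), (2, 12), (4, 7), (4, 8), (4, 9), (4, 10), (4, 11), (4, 12), (4, 13), (5, 4), (2, 13), (5, 5), (5, 6), (5, 7), (6, 2), (6, 3), (5, 8), (5, 9), (5, 10), (5, 11), (5, 12), (5, 13), (5, 14), (1, 12), (4, 14), (2, 14), (6, 4), (6, 5), (6, 6), (6, 7), (6, 8), (6,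 9), (6, 10), (6, 11), (7, 0), (7, 1), (6, 14), (6, 12), (7, 2), (7, 3), (6, 13), (7, 4), (7, 5), (7, 6), (7, 7), (7, 8), (7, 9), (7, 10), (7, 11), (7, 12), (7, 13), (8, 0), (8, 1), (8, 2), (8, 3), (8, 4), (8, 5), (8, 6), (8, 7), (8, 8), (8, 9), (8, 10), (9, 0), (9, 1), (9, 2), (9, 3), (9, 4), (9, 5), (9, 6), (10, 0), (10, 1), (10, 2), (8, 12), (9, 7), (9, 8), (9, 9), (9, 10), (9, 11), (9, 12), (8, 13), (7, 14), (8, 11), (10, 3), (10, 4), (10, 5), (10, 6), (10, 7), (10, 8), (10, 9), (10, 10), (10, 11), (11, 0), (11, 1), (11, 2), (11, 3), (11, 4), (11, 5), (11, 6), (11, 7), (12, 0), (11, 9), (11, 10), (11, 8), (12, 1), (12, 2), (12, 3), (12, 4), (12, 5), (12, 6), (12, 7), (12, 8), (12, 9), (13, 0), (13, 1), (13, 2), (13, 3), (13, 4), (13, 5), (13, 6), (13, 7), (13, 8), (14, 0), (14, 1), (14, 2), (14, 3), (14, 4), (14, 5), (14, 6), (14, 7)]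
  169 85 (by decide +kernel) (by decide +kernel)

theorem cov_74 : Cov 21 [7, 7, 7, 7, 7, 7, 7, 7, 6, 3, 1, 1] := cov_of 7 7 7
  [(7, [(543, 965), (152, 985), (878, 300), (624, 505), (505, 759)]), (6, [(616, 784)]), (3, [(191, 699)]), (1, [(117, 577), (291, 841)])]
  [(0, 7), (0, 8), (0, 9), (0, 10), (0, 11), (0, 12), (0, 13), (1, 6), (1, 7), (1, 8), (1, 9), (1, 10), (1, 11), (2, 5), (2, 6), (2, 7), (2, 8), (2, 9), (3, 4), (3, 5), (3, 6), (3, 7), (4, 3), (4, 4), (4, 5), (5, 2), (5, 3), (6, 1), (1, 13), (1, 14), (0, 14), (3, 8), (3, 9), (3, 10), (3, 11), (3, 12), (3, 13), (3, 14), (2, 10), (2, 11), (4, 6), (2, 12), (4, 7), (4, 8), (4, 9), (4, 10), (4, 11), (4, 12), (4, 13), (5, 4), (2, 13), (5, 5), (5, 6), (5, 7), (6, 2), (6, 3), (5, 8), (5, 9), (5, 10), (5, 11), (5, 12), (5, 13), (5, 14), (1, 12), (4, 14), (2, 14), (6, 4), (6, 5), (6, 6), (6, 7),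 (6, 8), (6, 9), (6, 10), (6, 11), (7, 0), (7, 1), (6, 14), (6, 12), (7, 2), (7, 3), (6, 13), (7, 4), (7, 5), (7, 6), (7, 7), (7, 8), (7, 9), (7, 10), (7, 11), (7, 12), (7, 13), (8, 0), (8, 1), (8, 2), (8, 3), (8, 4), (8, 5), (8, 6), (8, 7), (8, 8), (8, 9), (8, 10), (9, 0), (9, 1), (9, 2), (9, 3), (9, 4), (9, 5), (9, 6), (10, 0), (10, 1), (10, 2), (8, 12), (9, 7), (9, 8), (9, 9), (9, 10), (9, 11), (9, 12), (8, 13), (7, 14), (8, 11), (10, 3), (10, 4), (10, 5), (10, 6), (10, 7), (10, 8), (10, 9), (10, 10), (10, 11), (11, 0), (11, 1), (11, 2), (11, 3), (11, 4), (11, 5), (11, 6), (11, 7), (12, 0), (11, 9), (11, 10), (11, 8), (12, 1), (12, 2), (12, 3), (12, 4), (12, 5), (12, 6), (12, 7), (12, 8), (12, 9), (13, 0), (13, 1), (13, 2), (13, 3), (13, 4), (13, 5), (13, 6), (13, 7), (13, 8), (14, 0), (14, 1), (14, 2), (14, 3), (14, 4), (14, 5), (14, 6), (14,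 7)]
  169 85 (by decide +kernel) (by decide +kernel)

theorem cov_75 : Cov 21 [7, 7, 7, 7, 7, 7, 6, 6, 6, 6, 1] := cov_of 7 7 7
  [(7, [(91, 190), (602, 913), (257, 630)]), (6, [(561, 723), (615, 157), (493, 30), (755, 210)]), (1, [(321, 694)])]
  [(0, 7), (0, 8), (0, 9), (0, 10), (0, 11), (0, 12), (0, 13), (1, 6), (1, 7), (1, 8), (1, 9), (1, 10), (1, 11), (2, 5), (2, 6), (2, 7), (2, 8), (2, 9), (3, 4), (3, 5), (3, 6), (3, 7), (4, 3), (4, 4), (4, 5), (5, 2), (5, 3), (6, 1), (1, 13), (1, 14), (0, 14), (3, 8), (3, 9), (3, 10), (3, 11), (3, 12), (3, 13), (3, 14), (2, 10), (2, 11), (4, 6), (2, 12), (4, 7), (4, 8), (4, 9), (4, 10), (4, 11), (4, 12), (4, 13), (5, 4), (2, 13), (5, 5), (5, 6), (5, 7), (6, 2), (6, 3), (5, 8), (5, 9), (5, 10), (5, 11), (5, 12), (5, 13), (5, 14), (1, 12), (4, 14), (2, 14), (6, 4), (6, 5), (6, 6), (6, 7), (6, 8), (6, 9), (6,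 10), (6, 11), (7, 1), (7, 0), (6, 14), (6, 13), (7, 2), (7, 3), (6, 12), (7, 4), (7, 5), (7, 6), (7, 7), (7, 8), (7, 9), (7, 10), (7, 11), (7, 12), (8, 0), (8, 1), (8, 2), (8, 3), (8, 4), (8, 5), (8, 6), (8, 7), (8, 8), (9, 0), (9, 1), (9, 2), (9, 3), (9, 4), (10, 0), (8, 13), (7, 14), (7, 13), (8, 9), (8, 10), (8, 11), (9, 5), (9, 6), (9, 7), (9, 8), (9, 9), (9, 10), (9, 11), (9, 12), (8, 12), (10, 1), (10, 2), (10, 3), (10, 4), (10, 5), (11, 0), (10, 7), (10, 8), (10, 9), (10, 10), (10, 11), (10, 6), (11, 1), (11, 2), (11, 3), (11, 4), (11, 5), (11, 6), (11, 7), (11, 8), (11, 9), (11, 10), (12, 0), (12, 1), (12, 2), (12, 3), (12, 4), (12, 5), (12, 6), (12, 7), (12, 8), (12, 9), (13, 0), (13, 1), (13, 2), (13, 3), (13, 4), (13, 5), (13, 6), (13, 7), (13, 8), (14, 0), (14, 1), (14, 2), (14, 3), (14, 4), (14, 5), (14, 6), (14, 7)]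
  169 85 (by decide +kernel) (by decide +kernel)

theorem cov_27 : Cov 19 [6, 6, 6, 6, 6, 6, 6, 6, 6, 6] := cov_of 6 6 6
  [(6, [(997, 682), (487, 957), (272, 232), (585, 560), (170, 797), (814, 172), (317, 200)])]
  [(0, 6), (0, 7), (0, 8), (0, 9), (0, 10), (0, 11), (1, 5), (1, 6), (1, 7), (1, 8), (1, 9), (2, 4), (2, 5), (2, 6), (2, 7), (3, 3), (3, 4), (3, 5), (4, 2), (4, 3), (5, 1), (2, 8), (2, 9), (2, 10), (2, 11), (2, 12), (2, 13), (1, 12), (1, 13), (0, 13), (3, 6), (3, 7), (3, 8), (3, 9), (3, 10), (3, 11), (3, 12), (3, 13), (4, 4), (4, 5), (4, 6), (5, 2), (0, 12), (4, 7), (4, 8), (4, 9), (4, 10), (4, 11), (4, 12), (4, 13), (1, 11), (5, 3), (1, 10), (5, 4), (5, 5), (5, 6), (5, 7), (5, 8), (5, 9), (5, 10), (5, 11), (5, 12), (5, 13), (6, 0), (6, 1), (6, 2), (6, 3), (6, 4), (6, 5), (6, 6), (6, 7), (6, 8), (6, 9), (6, 10), (7, 0), (7, 1), (7, 2),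 (7, 3), (7, 4), (7, 5), (7, 6), (8, 0), (8, 1), (8, 2), (7, 7), (7, 8), (7, 9), (7, 10), (7, 11), (7, 12), (6, 12), (6, 13), (6, 11), (8, 3), (8, 4), (8, 5), (8, 6), (8, 7), (8, 8), (8, 9), (8, 10), (8, 11), (9, 0), (9, 1), (9, 2), (9, 3), (9, 4), (9, 5), (9, 6), (9, 7), (9, 8), (9, 9), (9, 10), (10, 0), (10, 1), (10, 2), (10, 3), (10, 4), (10, 5), (10, 6), (10, 7), (10, 8), (10, 9), (11, 0), (11, 1), (11, 2), (11, 3), (11, 4), (11, 5), (11, 6), (11, 7), (11, 8), (12, 0), (12, 1), (12, 2), (12, 3), (12, 4), (12, 5), (12, 6), (12, 7), (13, 0), (13, 1), (13, 2), (13, 3), (13, 4), (13, 5), (13, 6)]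
  147 74 (by decide +kernel) (by decide +kernel)

theorem cov_26 : Cov 19 [7, 6, 6, 6, 6, 6, 6, 6, 6, 5] := cov_of 7 6 6
  [(6, [(195, 2), (619, 508), (458, 163), (493, 659), (411, 817), (720, 503)]), (5, [(394, 404)])]
  [(0, 6), (0, 7), (0, 8), (0, 9), (0, 10), (0, 11), (1, 5), (1, 6), (1, 7), (1, 8), (1, 9), (2, 4), (2, 5), (2, 6), (2, 7), (3, 3), (3, 4), (3, 5), (4, 2), (4, 3), (5, 1), (2, 8), (2, 9), (2, 10), (2, 11), (2, 12), (2, 13), (1, 12), (1, 13), (0, 13), (3, 6), (3, 7), (3, 8), (3, 9), (3, 10), (3, 11), (3, 12), (3, 13), (4, 4), (4, 5), (4, 6), (5, 2), (0, 12), (4, 7), (4, 8), (4, 9), (4, 10), (4, 11), (4, 12), (4, 13), (1, 11), (5, 3), (1, 10), (5, 4), (5, 5), (5, 6), (5, 7), (5, 8), (5, 9), (5, 10), (5, 11), (5, 12), (5, 13), (6, 0), (6, 1), (6, 2), (6, 3), (6, 4), (6, 5), (6, 6), (6, 7), (6, 8), (6, 9), (6, 10), (7, 0), (7, 1),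 (7, 2), (7, 3), (7, 4), (7, 5), (7, 6), (8, 0), (8, 1), (8, 2), (7, 7), (7, 8), (7, 9), (7, 10), (7, 11), (7, 12), (6, 12), (6, 13), (6, 11), (8, 3), (8, 4), (8, 5), (8, 6), (8, 7), (8, 8), (8, 9), (8, 10), (8, 11), (9, 0), (9, 1), (9, 2), (9, 3), (9, 4), (9, 5), (9, 6), (9, 7), (9, 8), (9, 9), (9, 10), (10, 0), (10, 1), (10, 2), (10, 3), (10, 4), (10, 5), (10, 6), (10, 7), (10, 8), (10, 9), (11, 0), (11, 1), (11, 2), (11, 3), (11, 4), (11, 5), (11, 6), (11, 7), (11, 8), (12, 0), (12, 1), (12, 2), (12, 3), (12, 4), (12, 5), (12, 6), (12, 7)]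
  140 71 (by decide +kernel) (by decide +kernel)

theorem cov_23 : Cov 18 [6, 6, 6, 6, 6, 6, 6, 6, 5, 4] := cov_of 6 6 6
  [(6, [(630, 444), (738, 151), (646, 21), (788, 974), (218, 204)]), (5, [(616, 22)]), (4, [(382, 421)])]
  [(0, 6), (0, 7), (0, 8), (0, 9), (0, 10), (0, 11), (1, 5), (1, 6), (1, 7), (1, 8), (1, 9), (2, 4), (2, 5), (2, 6), (2, 7), (3, 3), (3, 4), (3, 5), (4, 2), (4, 3), (5, 1), (2, 10), (2, 11), (2, 12), (0, 12), (1, 10), (3, 6), (1, 11), (3, 7), (3, 8), (3, 9), (3, 10), (3, 11), (3, 12), (1, 12), (4, 4), (2, 8), (4, 5), (4, 6), (4, 7), (5, 2), (5, 3), (4, 10), (4, 11), (4, 12), (2, 9), (4, 8), (5, 4), (4, 9), (5, 5), (5, 6), (5, 7), (5, 8), (5, 9), (6, 0), (5, 11), (5, 12), (6, 1), (6, 2), (5, 10), (6, 3), (6, 4), (6, 5), (6, 6), (6, 7), (6, 8), (6, 9), (6, 10), (6, 11), (7, 0), (7, 1), (7, 2), (7, 3), (7, 4), (7, 5), (7, 6),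 (7, 7), (7, 8), (8, 0), (8, 1), (8, 2), (8, 3), (8, 4), (9, 0), (7, 10), (7, 11), (6, 12), (8, 5), (8, 6), (8, 7), (8, 8), (8, 9), (8, 10), (7, 9), (9, 1), (9, 2), (9, 3), (9, 4), (9, 5), (9, 6), (9, 7), (9, 8), (10, 0), (10, 1), (10, 2), (9, 9), (10, 3), (10, 4), (10, 5), (10, 6), (10, 7), (10, 8), (11, 0), (11, 1), (11, 2), (11, 3), (11, 4), (11, 5), (11, 6), (11, 7), (12, 0), (12, 1), (12, 2), (12, 3), (12, 4), (12, 5), (12, 6)]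
  127 65 (by decide +kernel) (by decide +kernel)

theorem cov_24 : Cov 18 [6, 6, 6, 6, 6, 6, 6, 6, 5, 3, 1] := cov_of 6 6 6
  [(6, [(249, 323), (704, 904), (276, 623), (228, 630), (262, 731)]), (5, [(345, 68)]), (3, [(801, 620)]), (1, [(1000, 492)])]
  [(0, 6), (0, 7), (0, 8), (0, 9), (0, 10), (0, 11), (1, 5), (1, 6), (1, 7), (1, 8), (1, 9), (2, 4), (2, 5), (2, 6), (2, 7), (3, 3), (3, 4), (3, 5), (4, 2), (4, 3), (5, 1), (2, 10), (2, 11), (2, 12), (0, 12), (1, 10), (3, 6), (1, 11), (3, 7), (3, 8), (3, 9), (3, 10), (3, 11), (3, 12), (1, 12), (4, 4), (2, 8), (4, 5), (4, 6), (4, 7), (5, 2), (5, 3), (4, 10), (4, 11), (4, 12), (2, 9), (4, 8), (5, 4), (4, 9), (5, 5), (5, 6), (5, 7), (5, 8), (5, 9), (6, 0), (5, 11), (5, 12), (6, 1), (6, 2), (5, 10), (6, 3), (6, 4), (6, 5), (6, 6), (6, 7), (6, 8), (6, 9), (6, 10), (6, 11), (7, 0), (7, 1), (7, 2), (7, 3),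 (7, 4), (7, 5), (7, 6), (7, 7), (7, 8), (8, 0), (8, 1), (8, 2), (8, 3), (8, 4), (9, 0), (7, 10), (7, 11), (6, 12), (8, 5), (8, 6), (8, 7), (8, 8), (8, 9), (8, 10), (7, 9), (9, 1), (9, 2), (9, 3), (9, 4), (9, 5), (9, 6), (9, 7), (9, 8), (10, 0), (10, 1), (10, 2), (9, 9), (10, 3), (10, 4), (10, 5), (10, 6), (10, 7), (10, 8), (11, 0), (11, 1), (11, 2), (11, 3), (11, 4), (11, 5), (11, 6), (11, 7), (12, 0), (12, 1), (12, 2), (12, 3), (12, 4), (12, 5), (12, 6)]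
  127 64 (by decide +kernel) (by decide +kernel)

theorem cov_25 : Cov 18 [6, 6, 6, 6, 6, 6, 6, 5, 5, 5] := cov_of 6 6 6
  [(6, [(670, 409), (666, 925), (109, 273), (97, 507)]), (5, [(321, 707), (1000, 113), (810, 698)])]
  [(0, 6), (0, 7), (0, 8), (0, 9), (0, 10), (0, 11), (1, 5), (1, 6), (1, 7), (1, 8), (1, 9), (2, 4), (2, 5), (2, 6), (2, 7), (3, 3), (3, 4), (3, 5), (4, 2), (4, 3), (5, 1), (2, 10), (2, 11), (2, 12), (0, 12), (1, 10), (3, 6), (1, 11), (3, 7), (3, 8), (3, 9), (3, 10), (3, 11), (3, 12), (1, 12), (4, 4), (2, 8), (4, 5), (4, 6), (4, 7), (5, 2), (5, 3), (4, 10), (4, 11), (4, 12), (2, 9), (4, 8), (5, 4), (4, 9), (5, 5), (5, 6), (5, 7), (5, 8), (5, 9), (6, 0), (5, 11), (5, 12), (6, 1), (6, 2), (5, 10), (6, 3), (6, 4), (6, 5), (6, 6), (6, 7), (6, 8), (6, 9), (6, 10), (6, 11), (7, 0), (7, 1), (7, 2), (7, 3), (7, 4), (7, 5), (7, 6), (7,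 7), (7, 8), (8, 0), (8, 1), (8, 2), (8, 3), (8, 4), (9, 0), (7, 10), (7, 11), (6, 12), (8, 5), (8, 6), (8, 7), (8, 8), (8, 9), (8, 10), (7, 9), (9, 1), (9, 2), (9, 3), (9, 4), (9, 5), (9, 6), (9, 7), (9, 8), (9, 9), (10, 0), (10, 1), (10, 2), (10, 3), (10, 4), (10, 5), (10, 6), (10, 7), (10, 8), (11, 0), (11, 1), (11, 2), (11, 3), (11, 4), (11, 5), (11, 6), (11, 7), (12, 0), (12, 1), (12, 2), (12, 3), (12, 4), (12, 5), (12, 6)]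
  127 65 (by decide +kernel) (by decide +kernel)

theorem cov_68 : Cov 18 [6, 6, 6, 6, 6, 6, 6, 6, 5, 2, 2, 1] := cov_of 6 6 6
  [(6, [(616, 543), (492, 928), (1002, 204), (573, 343), (737, 941)]), (5, [(603, 548)]), (2, [(203, 918), (475, 680)]), (1, [(337, 620)])]
  [(0, 6), (0, 7), (0, 8), (0, 9), (0, 10), (0, 11), (1, 5), (1, 6), (1, 7), (1, 8), (1, 9), (2, 4), (2, 5), (2, 6), (2, 7), (3, 3), (3, 4), (3, 5), (4, 2), (4, 3), (5, 1), (2, 10), (2, 11), (2, 12), (0, 12), (1, 10), (3, 6), (1, 11), (3, 7), (3, 8), (3, 9), (3, 10), (3, 11), (3, 12), (1, 12), (4, 4), (2, 8), (4, 5), (4, 6), (4, 7), (5, 2), (5, 3), (4, 10), (4, 11), (4, 12), (2, 9), (4, 8), (5, 4), (4, 9), (5, 5), (5, 6), (5, 7), (5, 8), (5, 9), (6, 0), (5, 11), (5, 12), (6, 1), (6, 2), (5, 10), (6, 3), (6, 4), (6, 5), (6, 6), (6, 7), (6, 8), (6, 9), (6, 10), (6, 11), (7, 0), (7, 1),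 (7, 2), (7, 3), (7, 4), (7, 5), (7, 6), (7, 7), (7, 8), (8, 0), (8, 1), (8, 2), (8, 3), (8, 4), (9, 0), (7, 10), (7, 11), (6, 12), (8, 5), (8, 6), (8, 7), (8, 8), (8, 9), (8, 10), (7, 9), (9, 1), (9, 2), (9, 3), (9, 4), (9, 5), (9, 6), (9, 7), (9, 8), (10, 0), (10, 1), (10, 2), (9, 9), (10, 3), (10, 4), (10, 5), (10, 6), (10, 7), (10, 8), (11, 0), (11, 1), (11, 2), (11, 3), (11, 4), (11, 5), (11, 6), (11, 7), (12, 0), (12, 1), (12, 2), (12, 3), (12, 4), (12, 5), (12, 6)]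
  127 64 (by decide +kernel) (by decide +kernel)

theorem cov_69 : Cov 18 [6, 6, 6, 6, 6, 6, 6, 6, 4, 4, 2] := cov_of 6 6 6
  [(6, [(112, 637), (839, 156), (918, 372), (963, 901), (66, 285)]), (4, [(329, 54), (260, 895)]), (2, [(983, 934)])]
  [(0, 6), (0, 7), (0, 8), (0, 9), (0, 10), (0, 11), (1, 5), (1, 6), (1, 7), (1, 8), (1, 9), (2, 4), (2, 5), (2, 6), (2, 7), (3, 3), (3, 4), (3, 5), (4, 2), (4, 3), (5, 1), (2, 10), (2, 11), (2, 12), (0, 12), (1, 10), (3, 6), (1, 11), (3, 7), (3, 8), (3, 9), (3, 10), (3, 11), (3, 12), (1, 12), (4, 4), (2, 8), (4, 5), (4, 6), (4, 7), (5, 2), (5, 3), (4, 10), (4, 11), (4, 12), (2, 9), (4, 8), (5, 4), (4, 9), (5, 5), (5, 6), (5, 7), (5, 8), (5, 9), (6, 0), (5, 11), (5, 12), (6, 1), (6, 2), (5, 10), (6, 3), (6, 4), (6, 5), (6, 6), (6, 7), (6, 8), (6, 9), (6, 10), (6, 11), (7, 0), (7, 1), (7, 2), (7, 3), (7, 4),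 (7, 5), (7, 6), (7, 7), (7, 8), (8, 0), (8, 1), (8, 2), (8, 3), (8, 4), (9, 0), (7, 10), (7, 11), (6, 12), (8, 5), (8, 6), (8, 7), (8, 8), (8, 9), (7, 9), (8, 10), (9, 1), (9, 2), (9, 3), (9, 4), (9, 5), (9, 6), (9, 7), (9, 8), (10, 0), (10, 1), (10, 2), (9, 9), (10, 3), (10, 4), (10, 5), (10, 6), (10, 7), (10, 8), (11, 0), (11, 1), (11, 2), (11, 3), (11, 4), (11, 5), (11, 6), (11, 7), (12, 0), (12, 1), (12, 2), (12, 3), (12, 4), (12, 5), (12, 6)]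
  127 64 (by decide +kernel) (by decide +kernel)

theorem cov_70 : Cov 18 [6, 6, 6, 6, 6, 6, 6, 6, 4, 4, 1, 1] := cov_of 6 6 6
  [(6, [(651, 274), (85, 610), (811, 287), (321, 340), (577, 17)]), (4, [(526, 65), (150, 184)]), (1, [(377, 652), (1008, 747)])]
  [(0, 6), (0, 7), (0, 8), (0, 9), (0, 10), (0, 11), (1, 5), (1, 6), (1, 7), (1, 8), (1, 9), (2, 4), (2, 5), (2, 6), (2, 7), (3, 3), (3, 4), (3, 5), (4, 2), (4, 3), (5, 1), (2, 10), (2, 11), (2, 12), (0, 12), (1, 10), (3, 6), (1, 11), (3, 7), (3, 8), (3, 9), (3, 10), (3, 11), (3, 12), (1, 12), (4, 4), (2, 8), (4, 5), (4, 6), (4, 7), (5, 2), (5, 3), (4, 10), (4, 11), (4, 12), (2, 9), (4, 8), (5, 4), (4, 9), (5, 5), (5, 6), (5, 7), (5, 8), (5, 9), (6, 0), (5, 11), (5, 12), (6, 1), (6, 2), (5, 10), (6, 3), (6, 4), (6, 5), (6, 6), (6, 7), (6, 8), (6, 9), (6, 10), (6, 11), (7, 0), (7, 1), (7, 2),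 (7, 3), (7, 4), (7, 5), (7, 6), (7, 7), (7, 8), (8, 0), (8, 1), (8, 2), (8, 3), (8, 4), (9, 0), (7, 10), (7, 11), (6, 12), (8, 5), (8, 6), (8, 7), (8, 8), (8, 9), (8, 10), (7, 9), (9, 1), (9, 2), (9, 3), (9, 4), (9, 5), (9, 6), (9, 7), (9, 8), (10, 0), (10, 1), (10, 2), (9, 9), (10, 3), (10, 4), (10, 5), (10, 6), (10, 7), (10, 8), (11, 0), (11, 1), (11, 2), (11, 3), (11, 4), (11, 5), (11, 6), (11, 7), (12, 0), (12, 1), (12, 2), (12, 3), (12, 4), (12, 5), (12, 6)]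
  127 64 (by decide +kernel) (by decide +kernel)

theorem cov_71 : Cov 18 [6, 6, 6, 6, 6, 6, 6, 6, 4, 3, 3] := cov_of 6 6 6
  [(6, [(128, 22), (138, 174), (873, 496), (819, 981), (321, 342)]), (4, [(552, 724)]), (3, [(839, 537), (280, 173)])]
  [(0, 6), (0, 7), (0, 8), (0, 9), (0, 10), (0, 11), (1, 5), (1, 6), (1, 7), (1, 8), (1, 9), (2, 4), (2, 5), (2, 6), (2, 7), (3, 3), (3, 4), (3, 5), (4, 2), (4, 3), (5, 1), (2, 10), (2, 11), (2, 12), (0, 12), (1, 10), (3, 6), (1, 11), (3, 7), (3, 8), (3, 9), (3, 10), (3, 11), (3, 12), (1, 12), (4, 4), (2, 8), (4, 5), (4, 6), (4, 7), (5, 2), (5, 3), (4, 10), (4, 11), (4, 12), (2, 9), (4, 8), (5, 4), (4, 9), (5, 5), (5, 6), (5, 7), (5, 8), (5, 9), (6, 0), (5, 11), (5, 12), (6, 1), (6, 2), (5, 10), (6, 4), (6, 3), (6, 5), (6, 6), (6, 7), (6, 8), (6, 9), (6, 10), (6, 11), (7, 0), (7, 1), (7, 2), (7, 3), (7, 4),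 (7, 5), (7, 6), (7, 7), (7, 8), (8, 0), (8, 1), (8, 2), (8, 3), (8, 4), (9, 0), (7, 10), (7, 11), (6, 12), (8, 5), (8, 6), (8, 7), (8, 8), (8, 9), (8, 10), (7, 9), (9, 1), (9, 2), (9, 3), (9, 4), (9, 5), (9, 6), (9, 7), (9, 8), (10, 0), (10, 1), (10, 2), (9, 9), (10, 3), (10, 4), (10, 5), (10, 6), (10, 7), (10, 8), (11, 0), (11, 1), (11, 2), (11, 3), (11, 4), (11, 5), (11, 6), (11, 7), (12, 0), (12, 1), (12, 2), (12, 3), (12, 4), (12, 5), (12, 6)]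
  127 64 (by decide +kernel) (by decide +kernel)

theorem cov_72 : Cov 18 [6, 6, 6, 6, 6, 6, 6, 5, 5, 4, 2] := cov_of 6 6 6
  [(6, [(624, 928), (831, 232), (267, 627), (987, 399)]), (5, [(447, 62), (241, 803)]), (4, [(996, 559)]), (2, [(229, 460)])]
  [(0, 6), (0, 7), (0, 8), (0, 9), (0, 10), (0, 11), (1, 5), (1, 6), (1, 7), (1, 8), (1, 9), (2, 4), (2, 5), (2, 6), (2, 7), (3, 3), (3, 4), (3, 5), (4, 2), (4, 3), (5, 1), (2, 10), (2, 11), (2, 12), (0, 12), (1, 10), (3, 6), (1, 11), (3, 7), (3, 8), (3, 9), (3, 10), (3, 11), (3, 12), (1, 12), (4, 4), (2, 8), (4, 5), (4, 6), (4, 7), (5, 2), (5, 3), (4, 10), (4, 11), (4, 12), (2, 9), (4, 8), (5, 4), (4, 9), (5, 5), (5, 6), (5, 7), (5, 8), (5, 9), (6, 0), (5, 11), (5, 12), (6, 1), (6, 2), (5, 10), (6, 3), (6, 4), (6, 5), (6, 6), (6, 7), (6, 8), (6, 9), (6, 10), (6, 11), (7, 0), (7, 1), (7, 2), (7, 3),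 (7, 4), (7, 5), (7, 6), (7, 7), (7, 8), (8, 0), (8, 1), (8, 2), (8, 3), (8, 4), (9, 0), (7, 10), (7, 11), (6, 12), (8, 5), (8, 6), (8, 7), (8, 8), (8, 9), (8, 10), (7, 9), (9, 1), (9, 2), (9, 3), (9, 4), (9, 5), (9, 6), (9, 7), (9, 8), (9, 9), (10, 0), (10, 1), (10, 2), (10, 3), (10, 4), (10, 5), (10, 6), (10, 7), (10, 8), (11, 0), (11, 1), (11, 2), (11, 3), (11, 4), (11, 5), (11, 6), (11, 7), (12, 0), (12, 1), (12, 2), (12, 3), (12, 4), (12, 5), (12, 6)]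
  127 64 (by decide +kernel) (by decide +kernel)

theorem cov_67 : Cov 16 [5, 5, 5, 5, 5, 5, 5, 5, 5, 5, 2] := cov_of 5 5 5
  [(5, [(93, 790), (719, 459), (849, 361), (551, 376), (205, 14), (312, 144), (489, 172)]), (2, [(785, 326)])]
  [(0, 5), (0, 6), (0, 7), (0, 8), (0, 9), (1, 4), (1, 5), (1, 6), (1, 7), (2, 3), (2, 4), (2, 5), (3, 2), (3, 3), (4, 1), (0, 10), (0, 11), (1, 8), (2, 6), (2, 7), (2, 8), (2, 9), (2, 10), (2, 11), (1, 9), (1, 10), (3, 4), (3, 5), (3, 6), (4, 2), (3, 8), (3, 9), (3, 10), (3, 11), (1, 11), (3, 7), (4, 3), (4, 4), (4, 5), (4, 6), (4, 7), (4, 8), (4, 9), (4, 10), (4, 11), (5, 0), (5, 1), (5, 2), (5, 3), (5, 4), (5, 5), (5, 6), (5, 7), (5, 8), (6, 0), (6, 1), (6, 2), (6, 3), (6, 4), (7, 0), (5, 9), (5, 10), (6, 5), (6, 6), (6, 7), (6, 8), (6, 9), (6, 10), (5, 11), (7, 1), (7, 2), (7, 3), (7, 4), (7, 5), (7, 6), (7, 7),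 (7, 8), (7, 9), (8, 0), (8, 1), (8, 2), (8, 3), (8, 4), (8, 5), (8, 6), (8, 7), (8, 8), (9, 0), (9, 1), (9, 2), (9, 3), (9, 4), (9, 5), (9, 6), (9, 7), (10, 0), (10, 1), (10, 2), (10, 3), (10, 4), (10, 5), (10, 6), (11, 0), (11, 1), (11, 2), (11, 3), (11, 4), (11, 5)]
  108 54 (by decide +kernel) (by decide +kernel)

theorem cov_22 : Cov 16 [6, 5, 5, 5, 5, 5, 5, 5, 5, 5] := cov_of 6 5 5
  [(5, [(735, 1), (241, 372), (673, 321), (209, 551), (690, 901), (847, 178), (87, 97)])]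
  [(0, 5), (0, 6), (0, 7), (0, 8), (0, 9), (1, 4), (1, 5), (1, 6), (1, 7), (2, 3), (2, 4), (2, 5), (3, 2), (3, 3), (4, 1), (0, 10), (0, 11), (1, 8), (2, 6), (2, 7), (2, 8), (2, 9), (2, 10), (2, 11), (1, 9), (1, 10), (3, 4), (3, 5), (3, 6), (4, 2), (3, 8), (3, 9), (3, 10), (3, 11), (1, 11), (3, 7), (4, 3), (4, 4), (4, 5), (4, 6), (4, 7), (4, 8), (4, 9), (4, 10), (4, 11), (5, 0), (5, 1), (5, 2), (5, 3), (5, 4), (5, 5), (5, 6), (5, 7), (5, 8), (6, 0), (6, 1), (6, 2), (6, 3), (6, 4), (7, 0), (5, 9), (5, 10), (6, 5), (6, 6), (6, 7), (6, 8), (6, 9), (6, 10), (5, 11), (7, 1), (7, 2), (7, 3), (7, 4), (7, 5), (7, 6), (7, 7), (7, 8), (7, 9), (8, 0), (8, 1), (8, 2), (8, 3), (8, 4), (8, 5), (8, 6), (8, 7), (8, 8), (9, 0), (9, 1), (9, 2), (9, 3), (9, 4), (9, 5), (9, 6), (9, 7), (10, 0), (10, 1), (10, 2), (10, 3), (10, 4), (10, 5), (10, 6)]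
  102 53 (by decide +kernel) (by decide +kernel)

theorem cov_64 : Cov 16 [6, 5, 5, 5, 5, 5, 5, 5, 5, 4, 2] := cov_of 6 5 5
  [(5, [(655, 938), (654, 9), (221, 57), (19, 37), (5, 590), (896, 602)]), (4, [(720, 758)]), (2, [(955, 648)])]
  [(0, 5), (0, 6), (0, 7), (0, 8), (0, 9), (1, 4), (1, 5), (1, 6), (1, 7), (2, 3), (2, 4), (2, 5), (3, 2), (3, 3), (4, 1), (0, 10), (0, 11), (1, 8), (2, 6), (2, 7), (2, 8), (2, 9), (2, 10), (2, 11), (1, 9), (1, 10), (3, 4), (3, 5), (3, 6), (4, 2), (3, 8), (3, 9), (3, 10), (3, 11), (1, 11), (3, 7), (4, 3), (4, 4), (4, 5), (4, 6), (4, 7), (4, 8), (4, 9), (4, 10), (4, 11), (5, 0), (5, 1), (5, 2), (5, 3), (5, 4), (5, 5), (5, 6), (5, 7), (5, 8), (6, 0), (6, 1), (6, 2), (6, 3), (6, 4), (7, 0), (5, 9), (5, 10), (6, 5), (6, 6), (6, 7), (6, 8), (6, 9), (6, 10), (5, 11), (7, 1), (7, 2), (7, 3), (7, 4), (7, 5), (7, 6), (7,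 7), (7, 8), (7, 9), (8, 0), (8, 1), (8, 2), (8, 3), (8, 4), (8, 5), (8, 6), (8, 7), (8, 8), (9, 0), (9, 1), (9, 2), (9, 3), (9, 4), (9, 5), (9, 6), (9, 7), (10, 0), (10, 1), (10, 2), (10, 3), (10, 4), (10, 5), (10, 6)]
  102 52 (by decide +kernel) (by decide +kernel)

theorem cov_65 : Cov 16 [6, 5, 5, 5, 5, 5, 5, 5, 5, 4, 1, 1] := cov_of 6 5 5
  [(5, [(897, 266), (135, 251), (325, 811), (310, 919), (288, 330), (284, 214)]), (4, [(356, 785)]), (1, [(113, 567), (254, 786)])]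
  [(0, 5), (0, 6), (0, 7), (0, 8), (0, 9), (1, 4), (1, 5), (1, 6), (1, 7), (2, 3), (2, 4), (2, 5), (3, 2), (3, 3), (4, 1), (0, 10), (0, 11), (1, 8), (2, 6), (2, 7), (2, 8), (2, 9), (2, 10), (2, 11), (1, 9), (1, 10), (3, 4), (3, 5), (3, 6), (4, 2), (3, 8), (3, 9), (3, 10), (3, 11), (1, 11), (3, 7), (4, 3), (4, 4), (4, 5), (4, 6), (4, 7), (4, 8), (4, 9), (4, 10), (4, 11), (5, 0), (5, 1), (5, 2), (5, 3), (5, 4), (5, 5), (5, 6), (5, 7), (5, 8), (6, 0), (6, 1), (6, 2), (6, 3), (6, 4), (7, 0), (5, 9), (5, 10), (6, 5), (6, 6), (6, 7), (6, 8), (6, 9), (6, 10), (5, 11), (7, 1), (7, 2), (7, 3), (7, 4), (7, 5), (7, 6), (7, 7), (7, 8), (7, 9), (8, 0), (8, 1), (8, 2), (8, 3), (8, 4), (8, 5), (8, 6), (8, 7), (8, 8), (9, 0), (9, 1), (9, 2), (9, 3), (9, 4), (9, 5), (9, 6), (9, 7), (10, 0), (10, 1), (10, 2), (10, 3), (10, 4), (10, 5), (10, 6)]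
  102 51 (by decide +kernel) (by decide +kernel)

theorem cov_66 : Cov 16 [6, 5, 5, 5, 5, 5, 5, 5, 5, 3, 3] := cov_of 6 5 5
  [(5, [(636, 182), (866, 535), (723, 86), (461, 593), (301, 356), (231, 512)]), (3, [(662, 576), (996, 321)])]
  [(0, 5), (0, 6), (0, 7), (0, 8), (0, 9), (1, 4), (1, 5), (1, 6), (1, 7), (2, 3), (2, 4), (2, 5), (3, 2), (3, 3), (4, 1), (0, 10), (0, 11), (1, 8), (2, 6), (2, 7), (2, 8), (2, 9), (2, 10), (2, 11), (1, 9), (1, 10), (3, 4), (3, 5), (3, 6), (4, 2), (3, 8), (3, 9), (3, 10), (3, 11), (1, 11), (3, 7), (4, 3), (4, 4), (4, 5), (4, 6), (4, 7), (4, 8), (4, 9), (4, 10), (4, 11), (5, 0), (5, 1), (5, 2), (5, 3), (5, 4), (5, 5), (5, 6), (5, 7), (5, 8), (6, 0), (6, 1), (6, 2), (6, 3), (6, 4), (7, 0), (5, 9), (5, 10), (6, 5), (6, 6), (6, 7), (6, 8), (6, 9), (6, 10), (5, 11), (7, 1), (7, 2), (7, 3), (7, 4), (7, 5), (7, 6), (7,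 7), (7, 8), (7, 9), (8, 0), (8, 1), (8, 2), (8, 3), (8, 4), (8, 5), (8, 6), (8, 7), (8, 8), (9, 0), (9, 1), (9, 2), (9, 3), (9, 4), (9, 5), (9, 6), (9, 7), (10, 0), (10, 1), (10, 2), (10, 3), (10, 4), (10, 5), (10, 6)]
  102 51 (by decide +kernel) (by decide +kernel)

theorem cov_6 : Cov 15 [5, 5, 5, 5, 5, 5, 5, 5, 4, 3] := cov_of 5 5 5
  [(5, [(538, 767), (347, 300), (559, 740), (33, 628), (561, 567)]), (4, [(499, 162)]), (3, [(908, 813)])]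
  [(0, 5), (0, 6), (0, 7), (0, 8), (0, 9), (1, 4), (1, 5), (1, 6), (1, 7), (2, 3), (2, 4), (2, 5), (3, 2), (3, 3), (4, 1), (1, 9), (2, 6), (2, 7), (2, 8), (2, 10), (2, 9), (1, 10), (0, 10), (3, 4), (3, 5), (3, 6), (3, 7), (3, 8), (4, 2), (4, 3), (1, 8), (3, 9), (3, 10), (4, 4), (4, 5), (4, 6), (4, 7), (4, 8), (4, 9), (5, 0), (5, 1), (4, 10), (5, 2), (5, 3), (5, 4), (5, 5), (5, 6), (5, 7), (5, 8), (5, 9), (6, 0), (6, 1), (6, 2), (6, 3), (6, 4), (6, 5), (6, 6), (7, 0), (7, 1), (7, 2), (6, 9), (5, 10), (6, 7), (6, 8), (7, 3), (7, 4), (7, 5), (7, 6), (7, 7), (7, 8), (8, 0), (8, 1), (8, 2), (8, 3), (8, 4), (8, 5), (8, 6), (8, 7), (9, 0), (9, 1), (9, 2), (9, 3), (9, 4), (9, 5), (9, 6), (10, 0), (10, 1), (10, 2), (10, 3), (10, 4), (10, 5)]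
  91 46 (by decide +kernel) (by decide +kernel)

theorem cov_20 : Cov 15 [5, 5, 5, 5, 5, 5, 5, 5, 4, 2, 2] := cov_of 5 5 5
  [(5, [(430, 62), (922, 823), (35, 968), (412, 19), (872, 194)]), (4, [(634, 604)]), (2, [(576, 941), (856, 571)])]
  [(0, 5), (0, 6), (0, 7), (0, 8), (0, 9), (1, 4), (1, 5), (1, 6), (1, 7), (2, 3), (2, 4), (2, 5), (3, 2), (3, 3), (4, 1), (1, 9), (2, 6), (2, 7), (2, 8), (2, 10), (2, 9), (1, 10), (0, 10), (3, 4), (3, 5), (3, 6), (3, 7), (3, 8), (4, 2), (4, 3), (1, 8), (3, 9), (3, 10), (4, 4), (4, 5), (4, 6), (4, 7), (4, 8), (4, 9), (5, 0), (5, 1), (4, 10), (5, 2), (5, 3), (5, 4), (5, 5), (5, 6), (5, 7), (5, 8), (5, 9), (6, 0), (6, 1), (6, 2), (6, 3), (6, 4), (6, 5), (6, 6), (7, 0), (7, 1), (7, 2), (6, 9), (5, 10), (6, 7), (6, 8), (7, 3), (7, 4), (7, 5), (7, 6), (7, 7), (7, 8), (8, 0), (8, 1), (8, 2), (8, 3), (8, 4), (8, 5),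 (8, 6), (8, 7), (9, 0), (9, 1), (9, 2), (9, 3), (9, 4), (9, 5), (9, 6), (10, 0), (10, 1), (10, 2), (10, 3), (10, 4), (10, 5)]
  91 46 (by decide +kernel) (by decide +kernel)

theorem cov_21 : Cov 15 [5, 5, 5, 5, 5, 5, 5, 4, 4, 4, 1] := cov_of 5 5 5
  [(5, [(92, 951), (789, 340), (718, 660), (371, 431)]), (4, [(510, 955), (334, 863), (466, 484)]), (1, [(854, 970)])]
  [(0, 5), (0, 6), (0, 7), (0, 8), (0, 9), (1, 4), (1, 5), (1, 6), (1, 7), (2, 3), (2, 4), (2, 5), (3, 2), (3, 3), (4, 1), (1, 9), (2, 6), (2, 7), (2, 8), (2, 10), (2, 9), (1, 10), (0, 10), (3, 4), (3, 5), (3, 6), (3, 7), (3, 8), (4, 2), (4, 3), (1, 8), (3, 9), (3, 10), (4, 4), (4, 5), (4, 6), (4, 7), (4, 8), (4, 9), (5, 0), (5, 1), (4, 10), (5, 2), (5, 3), (5, 4), (5, 5), (5, 6), (5, 7), (5, 8), (5, 9), (6, 0), (6, 1), (6, 2), (6, 3), (6, 4), (6, 5), (6, 6), (7, 0), (7, 1), (7, 2),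 (6, 9), (5, 10), (6, 7), (6, 8), (7, 3), (7, 4), (7, 5), (7, 6), (7, 7), (8, 0), (7, 8), (8, 1), (8, 2), (8, 3), (8, 4), (8, 5), (8, 6), (8, 7), (9, 0), (9, 1), (9, 2), (9, 3), (9, 4), (9, 5), (9, 6), (10, 0), (10, 1), (10, 2), (10, 3), (10, 4), (10, 5)]
  91 46 (by decide +kernel) (by decide +kernel)

theorem cov_59 : Cov 15 [5, 5, 5, 5, 5, 5, 5, 5, 4, 2, 1, 1, 1] := cov_of 5 5 5
  [(5, [(39, 271), (225, 99), (249, 660), (363, 58), (996, 385)]), (4, [(740, 572)]), (2, [(762, 560)]), (1, [(873, 290), (624, 436), (325, 539)])]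
  [(0, 5), (0, 6), (0, 7), (0, 8), (0, 9), (1, 4), (1, 5), (1, 6), (1, 7), (2, 3), (2, 4), (2, 5), (3, 2), (3, 3), (4, 1), (1, 9), (2, 6), (2, 7), (2, 8), (2, 10), (2, 9), (1, 10), (0, 10), (3, 4), (3, 5), (3, 6), (3, 7), (3, 8), (4, 2), (4, 3), (1, 8), (3, 9), (3, 10), (4, 4), (4, 5), (4, 6), (4, 7), (4, 8), (4, 9), (5, 0), (5, 1), (4, 10), (5, 2), (5, 3), (5, 4), (5, 5), (5, 6), (5, 7), (5, 8), (5, 9), (6, 0), (6, 1), (6, 2), (6, 3), (6, 4), (6, 5), (6, 6), (7, 0), (7, 1), (7, 2), (6, 9), (5, 10), (6, 7), (6, 8), (7, 3), (7, 4), (7, 5), (7, 6), (7, 7), (7, 8), (8, 0), (8, 1), (8, 2), (8, 3), (8, 4), (8, 5), (8, 6), (8, 7), (9, 0), (9, 1), (9, 2), (9, 3), (9, 4), (9, 5), (9, 6), (10, 0), (10, 1), (10, 2), (10, 3), (10, 4), (10, 5)]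
  91 46 (by decide +kernel) (by decide +kernel)

theorem cov_60 : Cov 15 [5, 5, 5, 5, 5, 5, 5, 5, 3, 3, 3] := cov_of 5 5 5
  [(5, [(566, 110), (254, 176), (875, 122), (119, 430), (660, 554)]), (3, [(605, 584), (605, 212), (10, 250)])]
  [(0, 5), (0, 6), (0, 7), (0, 8), (0, 9), (1, 4), (1, 5), (1, 6), (1, 7), (2, 3), (2, 4), (2, 5), (3, 2), (3, 3), (4, 1), (1, 9), (2, 6), (2, 7), (2, 8), (2, 10), (2, 9), (1, 10), (0, 10), (3, 4), (3, 5), (3, 6), (3, 7), (3, 8), (4, 2), (4, 3), (1, 8), (3, 9), (3, 10), (4, 4), (4, 5), (4, 6), (4, 7), (4, 8), (4, 9), (5, 0), (5, 1), (4, 10), (5, 2), (5, 3), (5, 4), (5, 5), (5, 6), (5, 7), (5, 8), (5, 9), (6, 0), (6, 1), (6, 2), (6, 3), (6, 4), (6, 5), (6, 6), (7, 0), (7, 1), (7, 2), (6, 9), (5, 10), (6, 7), (6, 8), (7, 3), (7, 4), (7, 5), (7, 6), (7, 7), (7, 8), (8, 0), (8, 1), (8, 2), (8, 3), (8, 4), (8, 5), (8,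 6), (8, 7), (9, 0), (9, 1), (9, 2), (9, 3), (9, 4), (9, 5), (9, 6), (10, 0), (10, 1), (10, 2), (10, 3), (10, 4), (10, 5)]
  91 47 (by decide +kernel) (by decide +kernel)

theorem cov_61 : Cov 15 [5, 5, 5, 5, 5, 5, 5, 5, 3, 3, 2, 1] := cov_of 5 5 5
  [(5, [(230, 420), (481, 412), (823, 571), (747, 71), (264, 109)]), (3, [(886, 344), (926, 791)]), (2, [(389, 932)]), (1, [(955, 415)])]
  [(0, 5), (0, 6), (0, 7), (0, 8), (0, 9), (1, 4), (1, 5), (1, 6), (1, 7), (2, 3), (2, 4), (2, 5), (3, 2), (3, 3), (4, 1), (1, 9), (2, 6), (2, 7), (2, 8), (2, 10), (2, 9), (1, 10), (0, 10), (3, 4), (3, 5), (3, 6), (3, 7), (3, 8), (4, 2), (4, 3), (1, 8), (3, 9), (3, 10), (4, 4), (4, 5), (4, 6), (4, 7), (4, 8), (4, 9), (5, 0), (5, 1), (4, 10), (5, 2), (5, 3), (5, 4), (5, 5), (5, 6), (5, 7), (5, 8), (5, 9), (6, 0), (6, 1), (6, 2), (6, 3), (6, 4), (6, 5), (6, 6), (7, 0),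 (7, 1), (7, 2), (6, 9), (5, 10), (6, 7), (6, 8), (7, 3), (7, 4), (7, 5), (7, 6), (7, 7), (7, 8), (8, 0), (8, 1), (8, 2), (8, 3), (8, 4), (8, 5), (8, 6), (8, 7), (9, 0), (9, 1), (9, 2), (9, 3), (9, 4), (9, 5), (9, 6), (10, 0), (10, 1), (10, 2), (10, 3), (10, 4), (10, 5)]
  91 46 (by decide +kernel) (by decide +kernel)

theorem cov_62 : Cov 15 [5, 5, 5, 5, 5, 5, 5, 4, 4, 3, 3] := cov_of 5 5 5
  [(5, [(405, 424), (559, 499), (514, 669), (916, 798)]), (4, [(720, 769), (433, 195)]), (3, [(298, 210), (742, 995)])]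
  [(0, 5), (0, 6), (0, 7), (0, 8), (0, 9), (1, 4), (1, 5), (1, 6), (1, 7), (2, 3), (2, 4), (2, 5), (3, 2), (3, 3), (4, 1), (1, 9), (2, 6), (2, 7), (2, 8), (2, 10), (2, 9), (1, 10), (0, 10), (3, 4), (3, 5), (3, 6), (3, 7), (3, 8), (4, 2), (4, 3), (1, 8), (3, 9), (3, 10), (4, 4), (4, 5), (4, 6), (4, 7), (4, 8), (4, 9), (5, 0), (5, 1), (4, 10), (5, 2), (5, 3), (5, 4), (5, 5), (5, 6), (5, 7), (5, 8), (5, 9), (6, 0), (6, 1), (6, 2), (6, 3), (6, 4), (6, 5), (6, 6), (7, 0), (7, 1), (7, 2), (6, 9), (5, 10), (6, 7), (6, 8), (7, 3), (7, 4), (7, 5), (7, 6), (7, 7), (8, 0), (7, 8), (8, 1), (8, 2), (8, 3), (8, 4), (8, 5), (8, 6), (8, 7), (9, 0), (9, 1), (9, 2), (9, 3), (9, 4), (9, 5), (9, 6), (10, 0), (10, 1), (10, 2), (10, 3), (10, 4), (10, 5)]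
  91 46 (by decide +kernel) (by decide +kernel)

theorem cov_63 : Cov 15 [5, 5, 5, 5, 5, 5, 4, 4, 4, 4, 3] := cov_of 5 5 5
  [(5, [(762, 2), (468, 276), (915, 980)]), (4, [(597, 795), (984, 310), (582, 556), (982, 970)]), (3, [(580, 592)])]
  [(0, 5), (0, 6), (0, 7), (0, 8), (0, 9), (1, 4), (1, 5), (1, 6), (1, 7), (2, 3), (2, 4), (2, 5), (3, 2), (3, 3), (4, 1), (1, 9), (2, 6), (2, 7), (2, 8), (2, 10), (2, 9), (1, 10), (0, 10), (3, 4), (3, 5), (3, 6), (3, 7), (3, 8), (4, 2), (4, 3), (1, 8), (3, 9), (3, 10), (4, 4), (4, 5), (4, 6), (4, 7), (4, 8), (4, 9), (5, 0), (5, 1), (4, 10), (5, 2), (5, 4), (5, 3), (5, 5), (5, 6), (5, 7), (5, 8), (6, 0), (6, 1), (6, 2), (6, 3), (6, 4), (7, 0), (5, 9), (6, 5), (6, 6), (6, 7), (6, 8), (6, 9), (5, 10), (7, 1), (7, 2), (7, 3), (7, 4), (7, 5), (7, 6), (7, 7), (7, 8), (8, 0), (8, 1), (8, 2), (8, 3), (8, 4), (8, 5),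 (8, 6), (8, 7), (9, 0), (9, 1), (9, 2), (9, 3), (9, 4), (9, 5), (9, 6), (10, 0), (10, 1), (10, 2), (10, 3), (10, 4), (10, 5)]
  91 46 (by decide +kernel) (by decide +kernel)

theorem cov_58 : Cov 14 [5, 5, 4, 4, 4, 4, 4, 4, 4, 4, 4] := cov_of 5 5 4
  [(4, [(571, 488), (695, 792), (739, 168), (1007, 738), (99, 431), (976, 962), (384, 800), (349, 635)])]
  [(0, 4), (0, 5), (0, 6), (0, 7), (1, 3), (1, 4), (1, 5), (2, 2), (2, 3), (3, 1), (1, 7), (1, 8), (1, 9), (0, 9), (0, 8), (2, 4), (2, 5), (2, 6), (2, 7), (3, 2), (2, 9), (1, 6), (2, 8), (3, 3), (3, 4), (3, 5), (3, 6), (3, 7), (3, 8), (3, 9), (4, 0), (4, 1), (4, 2), (4, 3), (4, 4), (4, 5), (4, 6), (5, 0), (5, 1), (5, 2), (4, 7), (4, 8), (4, 9), (5, 3), (5, 4), (5, 5), (5, 6), (5, 7), (5, 8), (5, 9), (6, 0), (6, 1), (6, 2), (6, 3), (6, 4), (6, 5), (6, 6), (6, 7), (6, 8), (7, 0), (7, 1), (7, 2), (7,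 3), (7, 4), (7, 5), (7, 6), (7, 7), (8, 0), (8, 1), (8, 2), (8, 3), (8, 4), (8, 5), (8, 6), (9, 0), (9, 1), (9, 2), (9, 3), (9, 4), (9, 5)]
  80 40 (by decide +kernel) (by decide +kernel)

theorem cov_57 : Cov 14 [6, 4, 4, 4, 4, 4, 4, 4, 4, 4, 4] := cov_of 6 4 4
  [(4, [(328, 776), (59, 854), (692, 326), (51, 388), (873, 862), (13, 93), (139, 622), (430, 328)])]
  [(0, 4), (0, 5), (0, 6), (0, 7), (1, 3), (1, 4), (1, 5), (2, 2), (2, 3), (3, 1), (1, 6), (1, 7), (1, 8), (1, 9), (1, 10), (0, 8), (0, 9), (2, 4), (2, 5), (3, 2), (2, 7), (2, 8), (2, 9), (2, 10), (0, 10), (3, 3), (2, 6), (3, 4), (3, 5), (3, 6), (3, 7), (3, 8), (3, 9), (3, 10), (4, 0), (4, 1), (4, 2), (4, 3), (4, 4), (5, 0), (4, 6), (4, 7), (4, 8), (4, 9), (4, 10), (5, 1), (4, 5), (5, 2), (5, 3), (5, 4), (5, 5), (5, 6), (5, 7), (5, 8), (5, 9), (6, 0), (6, 1), (6, 2), (6, 4), (6, 3), (6,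 5), (6, 6), (6, 7), (6, 8), (7, 0), (7, 1), (7, 2), (7, 3), (7, 4), (7, 5), (7, 6), (7, 7), (8, 0), (8, 1), (8, 2), (8, 3), (8, 4), (8, 5), (8, 6)]
  79 40 (by decide +kernel) (by decide +kernel)

theorem cov_56 : Cov 13 [4, 4, 4, 4, 4, 4, 4, 4, 4, 4, 3] := cov_of 4 4 4
  [(4, [(323, 690), (636, 608), (22, 164), (925, 436), (771, 345), (892, 569), (876, 593)]), (3, [(561, 838)])]
  [(0, 4), (0, 5), (0, 6), (0, 7), (1, 3), (1, 4), (1, 5), (2, 2), (2, 3), (3, 1), (1, 7), (1, 8), (1, 9), (0, 9), (0, 8), (2, 4), (2, 5), (2, 6), (2, 7), (3, 2), (2, 9), (1, 6), (2, 8), (3, 3), (3, 4), (3, 5), (3, 6), (3, 7), (3, 8), (3, 9), (4, 0), (4, 1), (4, 2), (4, 3), (4, 4), (4, 5), (4, 6), (5, 0), (5, 1), (5, 2), (4, 7), (4, 8), (4, 9), (5, 3), (5, 4), (5, 5), (5, 6), (5, 7), (5, 8), (6, 0), (6, 1), (6, 2), (6, 3), (6, 4), (6, 5), (6, 6), (6, 7), (7, 0), (7, 1),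 (7, 2), (7, 3), (7, 4), (7, 5), (7, 6), (8, 0), (8, 1), (8, 2), (8, 3), (8, 4), (8, 5), (9, 0), (9, 1), (9, 2), (9, 3), (9, 4)]
  75 38 (by decide +kernel) (by decide +kernel)

theorem cov_5 : Cov 13 [5, 4, 4, 4, 4, 4, 4, 4, 4, 4] := cov_of 5 4 4
  [(4, [(51, 99), (410, 639), (939, 216), (950, 472), (562, 752), (220, 289), (219, 333)])]
  [(0, 4), (0, 5), (0, 6), (0, 7), (1, 3), (1, 4), (1, 5), (2, 2), (2, 3), (3, 1), (1, 7), (1, 8), (1, 9), (0, 9), (0, 8), (2, 4), (2, 5), (2, 6), (2, 7), (3, 2), (2, 9), (1, 6), (2, 8), (3, 3), (3, 4), (3, 5), (3, 6), (3, 7), (3, 8), (3, 9), (4, 0), (4, 1), (4, 2), (4, 3), (4, 4), (4, 5), (4, 6), (5, 0), (5, 1), (5, 2), (4, 7), (4, 8), (4, 9), (5, 3), (5, 4), (5, 5), (5, 6), (5, 7), (5, 8), (6, 0), (6, 1), (6, 2), (6, 3), (6, 4), (6, 5), (6, 6), (6, 7), (7, 0), (7, 1), (7, 2), (7, 3), (7, 4), (7, 5), (7, 6), (8,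 0), (8, 1), (8, 2), (8, 3), (8, 4), (8, 5)]
  70 35 (by decide +kernel) (by decide +kernel)

theorem cov_54 : Cov 13 [5, 4, 4, 4, 4, 4, 4, 4, 4, 3, 3] := cov_of 5 4 4
  [(4, [(314, 302), (756, 229), (142, 870), (920, 226), (99, 45), (972, 290)]), (3, [(168, 281), (211, 43)])]
  [(0, 4), (0, 5), (0, 6), (0, 7), (1, 3), (1, 4), (1, 5), (2, 2), (2, 3), (3, 1), (1, 7), (1, 8), (1, 9), (0, 9), (0, 8), (2, 4), (2, 5), (2, 6), (2, 7), (3, 2), (2, 9), (1, 6), (2, 8), (3, 3), (3, 4), (3, 5), (3, 6), (3, 7), (3, 8), (3, 9), (4, 0), (4, 1), (4, 2), (4, 3), (4, 4), (4, 5), (4, 6), (5, 0), (5, 1), (5, 2), (4, 7), (4, 8), (4, 9), (5, 3), (5, 4), (5, 5), (5, 6), (5, 7), (5, 8), (6, 0), (6, 1), (6, 2), (6, 3), (6, 4), (6, 5), (6, 6), (6, 7), (7, 0), (7, 1), (7, 2), (7, 3), (7, 4), (7, 5), (7, 6), (8, 0), (8, 1), (8, 2), (8, 3), (8, 4), (8, 5)]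
  70 36 (by decide +kernel) (by decide +kernel)

theorem cov_55 : Cov 13 [5, 4, 4, 4, 4, 4, 4, 4, 4, 3, 2, 1] := cov_of 5 4 4
  [(4, [(162, 802), (60, 858), (565, 369), (415, 815), (885, 570), (901, 519)]), (3, [(320, 792)]), (2, [(694, 833)]), (1, [(843, 63)])]
  [(0, 4), (0, 5), (0, 6), (0, 7), (1, 3), (1, 4), (1, 5), (2, 2), (2, 3), (3, 1), (1, 7), (1, 8), (1, 9), (0, 9), (0, 8), (2, 4), (2, 5), (2, 6), (2, 7), (3, 2), (2, 9), (1, 6), (2, 8), (3, 3), (3, 4), (3, 5), (3, 6), (3, 7), (3, 8), (3, 9), (4, 0), (4, 1), (4, 2), (4, 3), (4, 4), (4, 5), (4, 6), (5, 0), (5, 1), (5, 2), (4, 7), (4, 8), (4, 9), (5, 3), (5, 4), (5, 5), (5, 6), (5, 7), (5, 8), (6, 0), (6, 1), (6, 2), (6, 3), (6, 4), (6, 5), (6, 6), (6, 7), (7, 0), (7, 1), (7, 2), (7, 3), (7, 4), (7, 5), (7, 6), (8, 0), (8, 1), (8, 2), (8, 3), (8, 4), (8, 5)]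
  70 35 (by decide +kernel) (by decide +kernel)

theorem cov_4 : Cov 12 [4, 4, 4, 4, 4, 4, 4, 4, 3, 3] := cov_of 4 4 4
  [(4, [(252, 871), (153, 65), (876, 998), (283, 301), (7, 829)]), (3, [(425, 319), (250, 531)])]
  [(0, 4), (0, 5), (0, 6), (0, 7), (1, 3), (1, 4), (1, 5), (2, 2), (2, 3), (3, 1), (1, 8), (0, 8), (1, 6), (2, 4), (2, 5), (2, 6), (2, 7), (2, 8), (3, 2), (3, 3), (1, 7), (3, 4), (3, 5), (3, 6), (3, 7), (4, 0), (3, 8), (4, 1), (4, 2), (4, 3), (4, 4), (4, 5), (4, 6), (4, 7), (5, 0), (5, 1), (5, 2), (5, 3), (5, 4), (6, 0), (5, 5), (5, 6), (5, 7), (4, 8), (6, 1), (6, 2), (6, 3), (6, 4), (6, 5), (7, 0), (6, 6), (7, 1), (7, 2), (7, 3), (7, 4), (7, 5), (8, 0), (8, 1), (8, 2), (8, 3), (8, 4)]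
  61 31 (by decide +kernel) (by decide +kernel)

theorem cov_17 : Cov 12 [4, 4, 4, 4, 4, 4, 4, 4, 3, 2, 2] := cov_of 4 4 4
  [(4, [(615, 700), (882, 2), (383, 830), (258, 625), (446, 521)]), (3, [(66, 211)]), (2, [(347, 321), (33, 886)])]
  [(0, 4), (0, 5), (0, 6), (0, 7), (1, 3), (1, 4), (1, 5), (2, 2), (2, 3), (3, 1), (1, 8), (0, 8), (1, 6), (2, 4), (2, 5), (2, 6), (2, 7), (2, 8), (3, 2), (3, 3), (1, 7), (3, 4), (3, 5), (3, 6), (3, 7), (4, 0), (3, 8), (4, 1), (4, 2), (4, 3), (4, 4), (4, 5), (4, 6), (4, 7), (5, 0), (5, 1), (5, 2), (5, 3), (5, 4), (6, 0), (5, 5), (5, 6), (5, 7), (4, 8), (6, 1), (6, 2), (6, 3), (6, 4), (6, 5), (7, 0), (6, 6), (7, 1), (7, 2), (7, 3), (7, 4), (7, 5), (8, 0), (8, 1), (8, 2), (8, 3), (8, 4)]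
  61 31 (by decide +kernel) (by decide +kernel)

theorem cov_18 : Cov 12 [4, 4, 4, 4, 4, 4, 4, 4, 3, 2, 1, 1] := cov_of 4 4 4
  [(4, [(574, 914), (406, 318), (867, 755), (304, 78), (841, 32)]), (3, [(162, 933)]), (2, [(927, 454)]), (1, [(745, 589), (134, 15)])]
  [(0, 4), (0, 5), (0, 6), (0, 7), (1, 3), (1, 4), (1, 5), (2, 2), (2, 3), (3, 1), (1, 8), (0, 8), (1, 6), (2, 4), (2, 5), (2, 6), (2, 7), (2, 8), (3, 2), (3, 3), (1, 7), (3, 4), (3, 5), (3, 6), (3, 7), (4, 0), (3, 8), (4, 1), (4, 2), (4, 3), (4, 4), (4, 5), (4, 6), (4, 7), (5, 0), (5, 1), (5, 2), (5, 3), (5, 4), (6, 0), (5, 5), (5, 6), (5, 7), (4, 8), (6, 1), (6, 2), (6, 3), (6, 4), (6, 5), (7, 0), (6, 6), (7, 1), (7, 2), (7, 3), (7, 4), (7, 5), (8, 0), (8, 1), (8, 2), (8, 3), (8, 4)]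
  61 31 (by decide +kernel) (by decide +kernel)

theorem cov_19 : Cov 12 [4, 4, 4, 4, 4, 4, 4, 3, 3, 3, 2] := cov_of 4 4 4
  [(4, [(995, 480), (392, 286), (557, 595), (570, 212)]), (3, [(754, 505), (766, 686), (367, 169)]), (2, [(993, 561)])]
  [(0, 4), (0, 5), (0, 6), (0, 7), (1, 3), (1, 4), (1, 5), (2, 2), (2, 3), (3, 1), (1, 8), (0, 8), (1, 6), (2, 4), (2, 5), (2, 6), (2, 7), (2, 8), (3, 2), (3, 3), (1, 7), (3, 4), (3, 5), (3, 6), (3, 7), (4, 0), (3, 8), (4, 1), (4, 2), (4, 3), (4, 4), (4, 5), (4, 6), (4, 7), (5, 0), (5, 1), (5, 2), (5, 3), (5, 4), (6, 0), (5, 5), (5, 6), (5, 7), (4, 8), (6, 1), (6, 2), (6, 3), (6, 4), (6, 5), (6, 6), (7, 0), (7, 1), (7, 2), (7, 3), (7, 4), (7, 5), (8, 0), (8, 1), (8, 2), (8, 3), (8, 4)]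
  61 31 (by decide +kernel) (by decide +kernel)

theorem cov_48 : Cov 12 [4, 4, 4, 4, 4, 4, 4, 4, 3, 1, 1, 1, 1, 1] := cov_of 4 4 4
  [(4, [(216, 959), (650, 434), (130, 462), (336, 239), (714, 417)]), (3, [(439, 105)]), (1, [(503, 870), (336, 709), (546, 844), (661, 649), (172, 177)])]
  [(0, 4), (0, 5), (0, 6), (0, 7), (1, 3), (1, 4), (1, 5), (2, 2), (2, 3), (3, 1), (1, 8), (0, 8), (1, 6), (2, 4), (2, 5), (2, 6), (2, 7), (2, 8), (3, 2), (3, 3), (1, 7), (3, 4), (3, 5), (3, 6), (3, 7), (4, 0), (3, 8), (4, 1), (4, 2), (4, 3), (4, 4), (4, 5), (4, 6), (4, 7), (5, 0), (5, 1), (5, 2), (5, 3), (5, 4), (6, 0), (5, 5), (5, 6), (5, 7), (4, 8), (6, 1), (6, 2), (6, 3), (6, 4), (6, 5), (7, 0), (6, 6), (7, 1), (7, 2), (7, 3), (7, 4), (7, 5), (8, 0), (8, 1), (8, 2), (8, 3), (8, 4)]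
  61 31 (by decide +kernel) (by decide +kernel)

theorem cov_49 : Cov 12 [4, 4, 4, 4, 4, 4, 4, 4, 2, 2, 2, 2] := cov_of 4 4 4
  [(4, [(484, 978), (469, 142), (318, 232), (170, 241), (120, 569)]), (2, [(959, 126), (795, 115), (994, 907), (696, 196)])]
  [(0, 4), (0, 5), (0, 6), (0, 7), (1, 3), (1, 4), (1, 5), (2, 2), (2, 3), (3, 1), (1, 8), (0, 8), (1, 6), (2, 4), (2, 5), (2, 6), (2, 7), (2, 8), (3, 2), (3, 3), (1, 7), (3, 4), (3, 5), (3, 6), (3, 7), (4, 0), (3, 8), (4, 1), (4, 2), (4, 3), (4, 4), (4, 5), (4, 6), (4, 7), (5, 0), (5, 1), (5, 2), (5, 3), (5, 4), (6, 0), (5, 5), (5, 6), (5, 7), (4, 8), (6, 1), (6, 2), (6, 3), (6, 4), (6, 5), (7, 0), (6, 6), (7, 1), (7, 2), (7, 3), (7, 4), (7, 5), (8, 0), (8, 1), (8, 2), (8, 3), (8, 4)]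
  61 31 (by decide +kernel) (by decide +kernel)

theorem cov_50 : Cov 12 [4, 4, 4, 4, 4, 4, 4, 4, 2, 2, 2, 1, 1] := cov_of 4 4 4
  [(4, [(867, 527), (17, 319), (235, 781), (165, 989), (46, 727)]), (2, [(306, 93), (233, 651), (521, 255)]), (1, [(991, 476), (867, 336)])]
  [(0, 4), (0, 5), (0, 6), (0, 7), (1, 3), (1, 4), (1, 5), (2, 2), (2, 3), (3, 1), (1, 8), (0, 8), (1, 6), (2, 4), (2, 5), (2, 6), (2, 7), (2, 8), (3, 2), (3, 3), (1, 7), (3, 4), (3, 5), (3, 6), (3, 7), (4, 0), (3, 8), (4, 1), (4, 2), (4, 3), (4, 4), (4, 5), (4, 6), (4, 7), (5, 0), (5, 1), (5, 2), (5, 3), (5, 4), (6, 0), (5, 5), (5, 6), (5, 7), (4, 8), (6, 1), (6, 2), (6, 3), (6, 4), (6, 5), (7, 0), (6, 6), (7, 1), (7, 2), (7, 3), (7, 4), (7, 5), (8, 0), (8, 1), (8, 2), (8, 3), (8, 4)]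
  61 31 (by decide +kernel) (by decide +kernel)

theorem cov_51 : Cov 12 [4, 4, 4, 4, 4, 4, 4, 3, 3, 3, 1, 1, 1] := cov_of 4 4 4
  [(4, [(406, 433), (176, 785), (125, 259), (972, 727)]), (3, [(348, 914), (789, 690), (675, 295)]), (1, [(625, 901), (753, 620), (996, 446)])]
  [(0, 4), (0, 5), (0, 6), (0, 7), (1, 3), (1, 4), (1, 5), (2, 2), (2, 3), (3, 1), (1, 8), (0, 8), (1, 6), (2, 4), (2, 5), (2, 6), (2, 7), (2, 8), (3, 2), (3, 3), (1, 7), (3, 4), (3, 5), (3, 6), (3, 7), (4, 0), (3, 8), (4, 1), (4, 2), (4, 3), (4, 4), (4, 5), (4, 6), (4, 7), (5, 0), (5, 1), (5, 2), (5, 3), (5, 4), (6, 0), (5, 5), (5, 6), (5, 7), (4, 8), (6, 1), (6, 2), (6, 3), (6, 4), (6, 5), (6, 6), (7, 0), (7, 1), (7, 2), (7, 3), (7, 4), (7, 5), (8, 0), (8, 1), (8, 2), (8, 3), (8, 4)]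
  61 31 (by decide +kernel) (by decide +kernel)

theorem cov_52 : Cov 12 [4, 4, 4, 4, 4, 4, 4, 3, 3, 2, 2, 2] := cov_of 4 4 4
  [(4, [(184, 563), (464, 160), (473, 1001), (473, 863)]), (3, [(991, 150), (485, 208)]), (2, [(65, 36), (26, 855), (481, 356)])]
  [(0, 4), (0, 5), (0, 6), (0, 7), (1, 3), (1, 4), (1, 5), (2, 2), (2, 3), (3, 1), (1, 8), (0, 8), (1, 6), (2, 4), (2, 5), (2, 6), (2, 7), (2, 8), (3, 2), (3, 3), (1, 7), (3, 4), (3, 5), (3, 6), (3, 7), (4, 0), (3, 8), (4, 1), (4, 2), (4, 3), (4, 4), (4, 5), (4, 6), (4, 7), (5, 0), (5, 1), (5, 2), (5, 3), (5, 4), (6, 0), (5, 5), (5, 6), (5, 7), (4, 8), (6, 1), (6, 2), (6, 3), (6, 4), (6, 5), (6, 6), (7, 0), (7, 1), (7, 2), (7, 3), (7, 4), (7, 5), (8, 0), (8, 1), (8, 2), (8, 3), (8, 4)]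
  61 31 (by decide +kernel) (by decide +kernel)

theorem cov_53 : Cov 12 [4, 4, 4, 4, 4, 4, 3, 3, 3, 3, 3, 1] := cov_of 4 4 4
  [(4, [(795, 940), (534, 502), (311, 168)]), (3, [(477, 328), (681, 367), (890, 293), (173, 524), (963, 489)]), (1, [(992, 537)])]
  [(0, 4), (0, 5), (0, 6), (0, 7), (1, 3), (1, 4), (1, 5), (2, 2), (2, 3), (3, 1), (1, 8), (0, 8), (1, 6), (2, 4), (2, 5), (2, 6), (2, 7), (2, 8), (3, 2), (3, 3), (1, 7), (3, 4), (3, 5), (3, 6), (3, 7), (4, 0), (3, 8), (4, 1), (4, 2), (4, 3), (4, 4), (4, 5), (4, 6), (5, 0), (5, 1), (5, 2), (4, 8), (4, 7), (5, 3), (5, 4), (5, 5), (5, 6), (5, 7), (6, 0), (6, 1), (6, 2), (6, 3), (6, 4), (6, 5), (6, 6), (7, 0), (7, 1), (7, 2), (7, 3), (7, 4), (7, 5), (8, 0), (8, 1), (8, 2), (8, 3), (8, 4)]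
  61 31 (by decide +kernel) (by decide +kernel)

theorem cov_47 : Cov 11 [5, 3, 3, 3, 3, 3, 3, 3, 3, 3, 3, 2] := cov_of 5 3 3
  [(3, [(207, 609), (242, 636), (398, 603), (458, 447), (626, 459), (289, 922), (552, 606), (353, 456)]), (2, [(147, 100)])]
  [(0, 3), (0, 4), (0, 5), (1, 2), (1, 3), (2, 1), (0, 6), (0, 7), (1, 4), (1, 5), (1, 6), (2, 2), (1, 8), (0, 8), (1, 7), (2, 3), (2, 4), (2, 5), (2, 6), (2, 7), (2, 8), (3, 0), (3, 1), (3, 2), (3, 3), (3, 4), (3, 5), (3, 6), (3, 7), (3, 8), (4, 0), (4, 1), (4, 2), (4, 3), (4, 4), (4, 5), (4, 6), (4, 7), (5, 0), (5, 1), (5, 2), (5, 3), (5, 4), (5, 5), (5, 6), (6, 0), (6, 1), (6, 2), (6, 3), (6, 4), (6, 5)]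
  51 26 (by decide +kernel) (by decide +kernel)

theorem cov_16 : Cov 10 [3, 3, 3, 3, 3, 3, 3, 3, 3, 3, 3] := cov_of 3 3 3
  [(3, [(308, 494), (792, 506), (782, 60), (662, 972), (910, 19), (329, 598), (113, 773), (439, 185)])]
  [(0, 3), (0, 4), (0, 5), (1, 2), (1, 3), (2, 1), (0, 7), (1, 4), (1, 5), (1, 6), (1, 7), (2, 2), (0, 6), (2, 3), (2, 4), (2, 5), (2, 6), (2, 7), (3, 0), (3, 1), (3, 2), (3, 3), (3, 4), (4, 0), (3, 6), (3, 7), (3, 5), (4, 1), (4, 2), (4, 3), (4, 4), (4, 5), (4, 6), (5, 0), (5, 1), (5, 2), (5, 3), (5, 4), (5, 5), (6, 0), (6, 1), (6, 2), (6, 3), (6, 4), (7, 0), (7, 1), (7, 2), (7, 3)]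
  48 24 (by decide +kernel) (by decide +kernel)

theorem cov_46 : Cov 10 [3, 3, 3, 3, 3, 3, 3, 3, 3, 3, 2, 2] := cov_of 3 3 3
  [(3, [(231, 1005), (123, 890), (462, 624), (644, 462), (230, 810), (963, 529), (284, 856)]), (2, [(783, 164), (681, 474)])]
  [(0, 3), (0, 4), (0, 5), (1, 2), (1, 3), (2, 1), (0, 7), (1, 4), (1, 5), (1, 6), (1, 7), (2, 2), (0, 6), (2, 3), (2, 4), (2, 5), (2, 6), (2, 7), (3, 0), (3, 1), (3, 2), (3, 3), (3, 4), (4, 0), (3, 6), (3, 7), (3, 5), (4, 1), (4, 2), (4, 3), (4, 4), (4, 5), (4, 6), (5, 0), (5, 1), (5, 2), (5, 3), (5, 4), (5, 5), (6, 0), (6, 1), (6, 2), (6, 3), (6, 4), (7, 0), (7, 1), (7, 2), (7, 3)]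
  48 24 (by decide +kernel) (by decide +kernel)

theorem cov_14 : Cov 10 [4, 3, 3, 3, 3, 3, 3, 3, 3, 3, 2] := cov_of 4 3 3
  [(3, [(829, 368), (886, 211), (124, 738), (797, 751), (94, 113), (92, 360), (356, 415)]), (2, [(306, 125)])]
  [(0, 3), (0, 4), (0, 5), (1, 2), (1, 3), (2, 1), (0, 7), (1, 4), (1, 5), (1, 6), (1, 7), (2, 2), (0, 6), (2, 3), (2, 4), (2, 5), (2, 6), (2, 7), (3, 0), (3, 1), (3, 2), (3, 3), (3, 4), (4, 0), (3, 6), (3, 7), (3, 5), (4, 1), (4, 2), (4, 3), (4, 4), (4, 5), (4, 6), (5, 0), (5, 1), (5, 2), (5, 3), (5, 4), (5, 5), (6, 0), (6, 1), (6, 2), (6, 3), (6, 4)]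
  44 23 (by decide +kernel) (by decide +kernel)

theorem cov_15 : Cov 10 [4, 3, 3, 3, 3, 3, 3, 3, 3, 3, 1, 1] := cov_of 4 3 3
  [(3, [(218, 607), (893, 187), (531, 953), (785, 77), (479, 727), (730, 1005), (321, 753)]), (1, [(974, 669), (665, 736)])]
  [(0, 3), (0, 4), (0, 5), (1, 2), (1, 3), (2, 1), (0, 7), (1, 4), (1, 5), (1, 6), (1, 7), (2, 2), (0, 6), (2, 3), (2, 4), (2, 5), (2, 6), (2, 7), (3, 0), (3, 1), (3, 2), (3, 3), (3, 4), (4, 0), (3, 6), (3, 7), (3, 5), (4, 1), (4, 2), (4, 3), (4, 4), (4, 5), (4, 6), (5, 0), (5, 1), (5, 2), (5, 3), (5, 4), (5, 5), (6, 0), (6, 1), (6, 2), (6, 3), (6, 4)]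
  44 22 (by decide +kernel) (by decide +kernel)

theorem cov_44 : Cov 10 [4, 3, 3, 3, 3, 3, 3, 3, 3, 2, 2, 2] := cov_of 4 3 3
  [(3, [(197, 542), (641, 878), (393, 468), (671, 516), (268, 586), (428, 637)]), (2, [(738, 374), (181, 873), (136, 330)])]
  [(0, 3), (0, 4), (0, 5), (1, 2), (1, 3), (2, 1), (0, 7), (1, 4), (1, 5), (1, 6), (1, 7), (2, 2), (0, 6), (2, 3), (2, 4), (2, 5), (2, 6), (2, 7), (3, 0), (3, 1), (3, 2), (3, 3), (3, 4), (4, 0), (3, 6), (3, 7), (3, 5), (4, 1), (4, 2), (4, 3), (4, 4), (4, 5), (4, 6), (5, 0), (5, 1), (5, 2), (5, 3), (5, 4), (5, 5), (6, 0), (6, 1), (6, 2), (6, 3), (6, 4)]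
  44 23 (by decide +kernel) (by decide +kernel)

theorem cov_45 : Cov 10 [4, 3, 3, 3, 3, 3, 3, 3, 3, 2, 2, 1, 1] := cov_of 4 3 3
  [(3, [(359, 310), (983, 46), (316, 274), (103, 415), (286, 96), (1007, 433)]), (2, [(431, 982), (797, 674)]), (1, [(502, 978), (727, 421)])]
  [(0, 3), (0, 4), (0, 5), (1, 2), (1, 3), (2, 1), (0, 7), (1, 4), (1, 5), (1, 6), (1, 7), (2, 2), (0, 6), (2, 3), (2, 4), (2, 5), (2, 6), (2, 7), (3, 0), (3, 1), (3, 2), (3, 3), (3, 4), (4, 0), (3, 6), (3, 7), (3, 5), (4, 1), (4, 2), (4, 3), (4, 4), (4, 5), (4, 6), (5, 0), (5, 1), (5, 2), (5, 3), (5, 4), (5, 5), (6, 0), (6, 1), (6, 2), (6, 3), (6, 4)]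
  44 22 (by decide +kernel) (by decide +kernel)

theorem cov_3 : Cov 9 [3, 3, 3, 3, 3, 3, 3, 3, 2, 2, 1] := cov_of 3 3 3
  [(3, [(828, 550), (35, 998), (196, 313), (534, 387), (765, 518)]), (2, [(524, 708), (365, 463)]), (1, [(444, 321)])]
  [(0, 3), (0, 4), (0, 5), (1, 2), (1, 3), (2, 1), (1, 4), (1, 5), (1, 6), (0, 6), (2, 2), (2, 3), (2, 4), (2, 5), (2, 6), (3, 0), (3, 1), (3, 2), (3, 3), (3, 4), (3, 5), (4, 0), (4, 1), (4, 2), (3, 6), (4, 3), (4, 4), (4, 5), (5, 0), (5, 1), (5, 2), (5, 3), (5, 4), (6, 0), (6, 1), (6, 2), (6, 3)]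
  37 19 (by decide +kernel) (by decide +kernel)

theorem cov_12 : Cov 9 [3, 3, 3, 3, 3, 3, 3, 3, 2, 1, 1, 1, 1] := cov_of 3 3 3
  [(3, [(6, 936), (617, 765), (467, 838), (798, 567), (642, 1002)]), (2, [(417, 444)]), (1, [(379, 617), (859, 429), (987, 520), (685, 391)])]
  [(0, 3), (0, 4), (0, 5), (1, 2), (1, 3), (2, 1), (1, 4), (1, 5), (1, 6), (0, 6), (2, 2), (2, 3), (2, 4), (2, 5), (2, 6), (3, 0), (3, 1), (3, 2), (3, 3), (3, 4), (3, 5), (4, 0), (4, 1), (4, 2), (3, 6), (4, 3), (4, 4), (4, 5), (5, 0), (5, 1), (5, 2), (5, 3), (5, 4), (6, 0), (6, 1), (6, 2), (6, 3)]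
  37 19 (by decide +kernel) (by decide +kernel)

theorem cov_13 : Cov 9 [3, 3, 3, 3, 3, 3, 3, 2, 2, 2, 2, 1] := cov_of 3 3 3
  [(3, [(944, 286), (634, 198), (902, 593), (529, 475)]), (2, [(32, 691), (507, 799), (68, 896), (626, 266)]), (1, [(59, 292)])]
  [(0, 3), (0, 4), (0, 5), (1, 2), (1, 3), (2, 1), (1, 4), (1, 5), (1, 6), (0, 6), (2, 2), (2, 3), (2, 4), (2, 5), (2, 6), (3, 0), (3, 1), (3, 2), (3, 3), (3, 4), (3, 5), (4, 0), (4, 1), (4, 2), (3, 6), (4, 3), (4, 4), (4, 5), (5, 0), (5, 1), (5, 2), (5, 3), (5, 4), (6, 0), (6, 1), (6, 2), (6, 3)]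
  37 19 (by decide +kernel) (by decide +kernel)

theorem cov_41 : Cov 9 [3, 3, 3, 3, 3, 3, 3, 3, 1, 1, 1, 1, 1, 1, 1] := cov_of 3 3 3
  [(3, [(24, 960), (131, 160), (73, 514), (97, 327), (129, 640)]), (1, [(445, 196), (34, 550), (791, 134), (428, 772), (601, 75), (1000, 371), (730, 566)])]
  [(0, 3), (0, 4), (0, 5), (1, 2), (1, 3), (2, 1), (1, 4), (1, 5), (1, 6), (0, 6), (2, 2), (2, 3), (2, 4), (2, 5), (2, 6), (3, 0), (3, 1), (3, 2), (3, 3), (3, 4), (3, 5), (4, 0), (4, 1), (4, 2), (3, 6), (4, 3), (4, 4), (4, 5), (5, 0), (5, 1), (5, 2), (5, 3), (5, 4), (6, 0), (6, 1), (6, 2), (6, 3)]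
  37 19 (by decide +kernel) (by decide +kernel)

theorem cov_42 : Cov 9 [3, 3, 3, 3, 3, 3, 3, 2, 2, 2, 1, 1, 1, 1] := cov_of 3 3 3
  [(3, [(947, 670), (9, 383), (784, 161), (335, 276)]), (2, [(54, 655), (254, 803), (868, 403)]), (1, [(640, 965), (618, 212), (230, 1003), (758, 300)])]
  [(0, 3), (0, 4), (0, 5), (1, 2), (1, 3), (2, 1), (1, 4), (1, 5), (1, 6), (0, 6), (2, 2), (2, 3), (2, 4), (2, 5), (2, 6), (3, 0), (3, 1), (3, 2), (3, 3), (3, 4), (3, 5), (4, 0), (4, 1), (4, 2), (3, 6), (4, 3), (4, 4), (4, 5), (5, 0), (5, 1), (5, 2), (5, 3), (5, 4), (6, 0), (6, 1), (6, 2), (6, 3)]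
  37 19 (by decide +kernel) (by decide +kernel)

theorem cov_43 : Cov 9 [3, 3, 3, 3, 3, 3, 2, 2, 2, 2, 2, 2, 1] := cov_of 3 3 3
  [(3, [(367, 878), (144, 102), (756, 785)]), (2, [(855, 736), (788, 970), (691, 15), (888, 172), (548, 533), (429, 757)]), (1, [(733, 166)])]
  [(0, 3), (0, 4), (0, 5), (1, 2), (1, 3), (2, 1), (1, 4), (1, 5), (1, 6), (0, 6), (2, 2), (2, 3), (2, 4), (2, 5), (2, 6), (3, 0), (3, 1), (3, 2), (3, 3), (3, 4), (4, 0), (3, 6), (3, 5), (4, 1), (4, 2), (4, 3), (4, 4), (4, 5), (5, 0), (5, 1), (5, 2), (5, 3), (5, 4), (6, 0), (6, 1), (6, 2), (6, 3)]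
  37 19 (by decide +kernel) (by decide +kernel)

theorem cov_40 : Cov 8 [3, 3, 2, 2, 2, 2, 2, 2, 2, 2, 2, 2, 2] := cov_of 3 3 2
  [(2, [(503, 1006), (421, 22), (592, 156), (752, 756), (434, 107), (121, 362), (826, 260), (450, 37), (839, 761), (165, 849)])]
  [(0, 2), (0, 3), (1, 1), (0, 5), (0, 4), (1, 2), (1, 3), (1, 4), (1, 5), (2, 0), (2, 1), (2, 2), (2, 3), (2, 4), (2, 5), (3, 0), (3, 1), (3, 2), (3, 3), (3, 4), (3, 5), (4, 0), (4, 1), (4, 2), (4, 3), (4, 4), (5, 0), (5, 1), (5, 2), (5, 3)]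
  30 15 (by decide +kernel) (by decide +kernel)

theorem cov_38 : Cov 8 [4, 2, 2, 2, 2, 2, 2, 2, 2, 2, 2, 2, 2] := cov_of 4 2 2
  [(2, [(388, 391), (377, 102), (738, 490), (952, 33), (952, 365), (658, 418), (912, 949), (925, 485), (298, 643), (9, 497)])]
  [(0, 2), (0, 3), (1, 1), (0, 5), (0, 6), (1, 2), (0, 4), (1, 3), (1, 4), (1, 5), (1, 6), (2, 0), (2, 1), (2, 2), (2, 3), (2, 4), (2, 5), (3, 0), (2, 6), (3, 1), (3, 2), (3, 3), (3, 4), (3, 5), (4, 0), (4, 1), (4, 2), (4, 3), (4, 4)]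
  29 15 (by decide +kernel) (by decide +kernel)

theorem cov_39 : Cov 8 [4, 2, 2, 2, 2, 2, 2, 2, 2, 2, 2, 2, 1, 1] := cov_of 4 2 2
  [(2, [(108, 711), (387, 865), (503, 481), (640, 705), (691, 329), (524, 933), (702, 310), (489, 613), (270, 859)]), (1, [(476, 205), (403, 170)])]
  [(0, 2), (0, 3), (1, 1), (0, 5), (0, 6), (1, 2), (0, 4), (1, 3), (1, 4), (1, 5), (1, 6), (2, 0), (2, 1), (2, 2), (2, 3), (2, 4), (2, 5), (3, 0), (2, 6), (3, 1), (3, 2), (3, 3), (3, 4), (3, 5), (4, 0), (4, 1), (4, 2), (4, 3), (4, 4)]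
  29 15 (by decide +kernel) (by decide +kernel)

theorem cov_11 : Cov 7 [2, 2, 2, 2, 2, 2, 2, 2, 2, 2, 2, 2] := cov_of 2 2 2
  [(2, [(426, 444), (344, 149), (605, 362), (25, 138), (865, 754), (29, 991), (615, 87), (556, 883), (913, 638)])]
  [(0, 2), (0, 3), (1, 1), (0, 5), (0, 4), (1, 2), (1, 3), (1, 4), (1, 5), (2, 0), (2, 1), (2, 2), (2, 3), (2, 4), (2, 5), (3, 0), (3, 1), (3, 2), (3, 3), (3, 4), (4, 0), (4, 1), (4, 2), (4, 3), (5, 0), (5, 1), (5, 2)]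
  27 14 (by decide +kernel) (by decide +kernel)

theorem cov_37 : Cov 7 [2, 2, 2, 2, 2, 2, 2, 2, 2, 2, 2, 1, 1, 1] := cov_of 2 2 2
  [(2, [(641, 758), (939, 169), (661, 987), (86, 698), (739, 652), (404, 475), (590, 574), (545, 976)]), (1, [(648, 213), (998, 915), (222, 765)])]
  [(0, 2), (0, 3), (1, 1), (0, 5), (0, 4), (1, 2), (1, 3), (1, 4), (1, 5), (2, 0), (2, 1), (2, 2), (2, 3), (2, 4), (2, 5), (3, 0), (3, 1), (3, 2), (3, 3), (3, 4), (4, 0), (4, 1), (4, 2), (4, 3), (5, 0), (5, 1), (5, 2)]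
  27 14 (by decide +kernel) (by decide +kernel)

theorem cov_2 : Cov 7 [3, 2, 2, 2, 2, 2, 2, 2, 2, 2, 2] := cov_of 3 2 2
  [(2, [(610, 140), (440, 133), (945, 208), (372, 477), (333, 358), (32, 904), (796, 31), (132, 130)])]
  [(0, 2), (0, 3), (1, 1), (0, 5), (0, 4), (1, 2), (1, 3), (1, 4), (1, 5), (2, 0), (2, 1), (2, 2), (2, 3), (2, 4), (2, 5), (3, 0), (3, 1), (3, 2), (3, 3), (3, 4), (4, 0), (4, 1), (4, 2), (4, 3)]
  24 12 (by decide +kernel) (by decide +kernel)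

theorem cov_10 : Cov 7 [3, 2, 2, 2, 2, 2, 2, 2, 2, 2, 1, 1, 1] := cov_of 3 2 2
  [(2, [(739, 708), (633, 113), (74, 660), (694, 564), (825, 238), (42, 495), (260, 606)]), (1, [(830, 59), (31, 921), (895, 893)])]
  [(0, 2), (0, 3), (1, 1), (0, 5), (0, 4), (1, 2), (1, 3), (1, 4), (1, 5), (2, 0), (2, 1), (2, 2), (2, 3), (2, 4), (2, 5), (3, 0), (3, 1), (3, 2), (3, 3), (3, 4), (4, 0), (4, 1), (4, 2), (4, 3)]
  24 12 (by decide +kernel) (by decide +kernel)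

theorem cov_36 : Cov 7 [3, 2, 2, 2, 2, 2, 2, 2, 2, 1, 1, 1, 1, 1, 1] := cov_of 3 2 2
  [(2, [(389, 787), (421, 36), (525, 970), (482, 67), (964, 756), (471, 638)]), (1, [(607, 27), (308, 985), (250, 936), (336, 107), (469, 189), (203, 435)])]
  [(0, 2), (0, 3), (1, 1), (0, 5), (0, 4), (1, 2), (1, 3), (1, 4), (1, 5), (2, 0), (2, 1), (2, 2), (2, 3), (2, 4), (2, 5), (3, 0), (3, 1), (3, 2), (3, 3), (3, 4), (4, 0), (4, 1), (4, 2), (4, 3)]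
  24 12 (by decide +kernel) (by decide +kernel)

theorem cov_1 : Cov 6 [2, 2, 2, 2, 2, 2, 2, 2, 1, 1, 1, 1] := cov_of 2 2 2
  [(2, [(257, 771), (906, 828), (542, 779), (754, 595), (743, 520)]), (1, [(444, 824), (312, 270), (137, 280), (912, 366)])]
  [(0, 2), (0, 3), (1, 1), (0, 4), (1, 2), (1, 3), (1, 4), (2, 0), (2, 1), (2, 2), (2, 3), (3, 0), (2, 4), (3, 1), (3, 2), (3, 3), (4, 0), (4, 1), (4, 2)]
  19 10 (by decide +kernel) (by decide +kernel)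

theorem cov_9 : Cov 6 [2, 2, 2, 2, 2, 2, 2, 1, 1, 1, 1, 1, 1, 1] := cov_of 2 2 2
  [(2, [(695, 950), (724, 912), (899, 845), (584, 853)]), (1, [(312, 451), (148, 647), (865, 118), (542, 261), (594, 1002), (701, 694), (274, 319)])]
  [(0, 2), (0, 3), (1, 1), (0, 4), (1, 2), (1, 3), (1, 4), (2, 0), (2, 1), (2, 2), (2, 3), (3, 0), (2, 4), (3, 1), (3, 2), (3, 3), (4, 0), (4, 1), (4, 2)]
  19 10 (by decide +kernel) (by decide +kernel)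

theorem cov_35 : Cov 6 [2, 2, 2, 2, 2, 2, 1, 1, 1, 1, 1, 1, 1, 1, 1, 1] := cov_of 2 2 2
  [(2, [(587, 126), (461, 939), (915, 704)]), (1, [(927, 506), (328, 268), (321, 192), (668, 664), (802, 647), (856, 819), (284, 912), (805, 838), (140, 610), (448, 836)])]
  [(0, 2), (0, 3), (1, 1), (0, 4), (1, 2), (1, 3), (1, 4), (2, 0), (2, 1), (2, 2), (2, 3), (2, 4), (3, 0), (3, 1), (3, 2), (3, 3), (4, 0), (4, 1), (4, 2)]
  19 10 (by decide +kernel) (by decide +kernel)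

theorem cov_34 : Cov 6 [4, 1, 1, 1, 1, 1, 1, 1, 1, 1, 1, 1, 1, 1, 1, 1, 1, 1, 1] := cov_of 4 1 1
  [(1, [(80, 652), (774, 989), (999, 735), (471, 601), (151, 238), (390, 467), (911, 314), (890, 42), (112, 462), (498, 863), (174, 222), (967, 880), (575, 544), (70, 461), (6, 745), (641, 625)])]
  [(0, 1), (0, 2), (0, 3), (0, 4), (0, 5), (1, 0), (1, 1), (1, 2), (1, 3), (1, 4), (1, 5), (2, 0), (2, 1), (2, 2), (2, 3), (2, 4)]
  16 8 (by decide +kernel) (by decide +kernel)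

theorem cov_33 : Cov 5 [2, 2, 1, 1, 1, 1, 1, 1, 1, 1, 1, 1, 1, 1, 1, 1, 1] := cov_of 2 2 1
  [(1, [(407, 622), (558, 493), (859, 460), (158, 220), (908, 29), (835, 957), (370, 735), (393, 976), (905, 858), (150, 61), (919, 990), (80, 508), (1001, 199), (84, 672)])]
  [(0, 1), (0, 2), (0, 3), (1, 0), (1, 1), (1, 2), (1, 3), (2, 0), (2, 1), (2, 2), (2, 3), (3, 0), (3, 1), (3, 2)]
  14 7 (by decide +kernel) (by decide +kernel)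

theorem cov_8 : Cov 5 [3, 1, 1, 1, 1, 1, 1, 1, 1, 1, 1, 1, 1, 1, 1, 1] := cov_of 3 1 1
  [(1, [(403, 310), (781, 231), (582, 714), (973, 222), (919, 674), (79, 26), (636, 966), (801, 974), (745, 185), (851, 784), (368, 43), (545, 61), (179, 1)])]
  [(0, 1), (0, 2), (0, 3), (0, 4), (1, 0), (1, 1), (1, 2), (1, 3), (1, 4), (2, 0), (2, 1), (2, 2), (2, 3)]
  13 7 (by decide +kernel) (by decide +kernel)

theorem cov_7 : Cov 4 [1, 1, 1, 1, 1, 1, 1, 1, 1, 1, 1, 1, 1, 1, 1] := cov_of 1 1 1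
  [(1, [(749, 390), (665, 268), (15, 919), (214, 274), (433, 326), (284, 697), (419, 538), (159, 325), (760, 506), (374, 654), (467, 645), (617, 684)])]
  [(0, 1), (0, 2), (0, 3), (1, 0), (1, 1), (1, 2), (1, 3), (2, 0), (2, 1), (2, 2), (3, 0), (3, 1)]
  12 6 (by decide +kernel) (by decide +kernel)

theorem cov_0 : Cov 4 [2, 1, 1, 1, 1, 1, 1, 1, 1, 1, 1, 1, 1] := cov_of 2 1 1
  [(1, [(835, 646), (382, 130), (37, 458), (863, 399), (358, 291), (670, 290), (887, 690), (396, 671), (506, 364), (984, 919)])]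
  [(0, 1), (0, 2), (0, 3), (1, 0), (1, 1), (1, 2), (1, 3), (2, 0), (2, 1), (2, 2)]
  10 5 (by decide +kernel) (by decide +kernel)

end Pool.Agent.T6.H9.SG
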