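import Pool.Agent.T6.H9.SG.Enum

set_option autoImplicit false

/-!
# The table of the critical classes
-/

namespace Pool.Agent.T6.H9.SG

/-- The table of the critical classes. -/
def table : List (ℕ × List ℕ) := [
  (4, [2, 1, 1, 1, 1, 1, 1, 1, 1, 1, 1, 1, 1]),
  (6, [2, 2, 2, 2, 2, 2, 2, 2, 1, 1, 1, 1]),
  (7, [3, 2, 2, 2, 2, 2, 2, 2, 2, 2, 2]),
  (9, [3, 3, 3, 3, 3, 3, 3, 3, 2, 2, 1]),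
  (12, [4, 4, 4, 4, 4, 4, 4, 4, 3, 3]),
  (13, [5, 4, 4, 4, 4, 4, 4, 4, 4, 4]),
  (15, [5, 5, 5, 5, 5, 5, 5, 5, 4, 3]),
  (4, [1, 1, 1, 1, 1, 1, 1, 1, 1, 1, 1, 1, 1, 1, 1]),
  (5, [3, 1, 1, 1, 1, 1, 1, 1, 1, 1, 1, 1, 1, 1, 1, 1]),
  (6, [2, 2, 2, 2, 2, 2, 2, 1, 1, 1, 1, 1, 1, 1]),
  (7, [3, 2, 2, 2, 2, 2, 2, 2, 2, 2, 1, 1, 1]),
  (7, [2, 2, 2, 2, 2, 2, 2, 2, 2, 2, 2, 2]),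
  (9, [3, 3, 3, 3, 3, 3, 3, 3, 2, 1, 1, 1, 1]),
  (9, [3, 3, 3, 3, 3, 3, 3, 2, 2, 2, 2, 1]),
  (10, [4, 3, 3, 3, 3, 3, 3, 3, 3, 3, 2]),
  (10, [4, 3, 3, 3, 3, 3, 3, 3, 3, 3, 1, 1]),
  (10, [3, 3, 3, 3, 3, 3, 3, 3, 3, 3, 3]),
  (12, [4, 4, 4, 4, 4, 4, 4, 4, 3, 2, 2]),
  (12, [4, 4, 4, 4, 4, 4, 4, 4, 3, 2, 1, 1]),
  (12, [4, 4, 4, 4, 4, 4, 4, 3, 3, 3, 2]),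
  (15, [5, 5, 5, 5, 5, 5, 5, 5, 4, 2, 2]),
  (15, [5, 5, 5, 5, 5, 5, 5, 4, 4, 4, 1]),
  (16, [6, 5, 5, 5, 5, 5, 5, 5, 5, 5]),
  (18, [6, 6, 6, 6, 6, 6, 6, 6, 5, 4]),
  (18, [6, 6, 6, 6, 6, 6, 6, 6, 5, 3, 1]),
  (18, [6, 6, 6, 6, 6, 6, 6, 5, 5, 5]),
  (19, [7, 6, 6, 6, 6, 6, 6, 6, 6, 5]),
  (19, [6, 6, 6, 6, 6, 6, 6, 6, 6, 6]),
  (21, [7, 7, 7, 7, 7, 7, 7, 7, 6, 4]),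
  (21, [7, 7, 7, 7, 7, 7, 7, 7, 5, 5]),
  (21, [7, 7, 7, 7, 7, 7, 7, 6, 6, 5]),
  (24, [8, 8, 8, 8, 8, 8, 8, 8, 7, 4]),
  (27, [9, 9, 9, 9, 9, 9, 9, 9, 8, 4]),
  (5, [2, 2, 1, 1, 1, 1, 1, 1, 1, 1, 1, 1, 1, 1, 1, 1, 1]),
  (6, [4, 1, 1, 1, 1, 1, 1, 1, 1, 1, 1, 1, 1, 1, 1, 1, 1, 1, 1]),
  (6, [2, 2, 2, 2, 2, 2, 1, 1, 1, 1, 1, 1, 1, 1, 1, 1]),
  (7, [3, 2, 2, 2, 2, 2, 2, 2, 2, 1, 1, 1, 1, 1, 1]),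
  (7, [2, 2, 2, 2, 2, 2, 2, 2, 2, 2, 2, 1, 1, 1]),
  (8, [4, 2, 2, 2, 2, 2, 2, 2, 2, 2, 2, 2, 2]),
  (8, [4, 2, 2, 2, 2, 2, 2, 2, 2, 2, 2, 2, 1, 1]),
  (8, [3, 3, 2, 2, 2, 2, 2, 2, 2, 2, 2, 2, 2]),
  (9, [3, 3, 3, 3, 3, 3, 3, 3, 1, 1, 1, 1, 1, 1, 1]),
  (9, [3, 3, 3, 3, 3, 3, 3, 2, 2, 2, 1, 1, 1, 1]),
  (9, [3, 3, 3, 3, 3, 3, 2, 2, 2, 2, 2, 2, 1]),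
  (10, [4, 3, 3, 3, 3, 3, 3, 3, 3, 2, 2, 2]),
  (10, [4, 3, 3, 3, 3, 3, 3, 3, 3, 2, 2, 1, 1]),
  (10, [3, 3, 3, 3, 3, 3, 3, 3, 3, 3, 2, 2]),
  (11, [5, 3, 3, 3, 3, 3, 3, 3, 3, 3, 3, 2]),
  (12, [4, 4, 4, 4, 4, 4, 4, 4, 3, 1, 1, 1, 1, 1]),
  (12, [4, 4, 4, 4, 4, 4, 4, 4, 2, 2, 2, 2]),
  (12, [4, 4, 4, 4, 4, 4, 4, 4, 2, 2, 2, 1, 1]),
  (12, [4, 4, 4, 4, 4, 4, 4, 3, 3, 3, 1, 1, 1]),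
  (12, [4, 4, 4, 4, 4, 4, 4, 3, 3, 2, 2, 2]),
  (12, [4, 4, 4, 4, 4, 4, 3, 3, 3, 3, 3, 1]),
  (13, [5, 4, 4, 4, 4, 4, 4, 4, 4, 3, 3]),
  (13, [5, 4, 4, 4, 4, 4, 4, 4, 4, 3, 2, 1]),
  (13, [4, 4, 4, 4, 4, 4, 4, 4, 4, 4, 3]),
  (14, [6, 4, 4, 4, 4, 4, 4, 4, 4, 4, 4]),
  (14, [5, 5, 4, 4, 4, 4, 4, 4, 4, 4, 4]),
  (15, [5, 5, 5, 5, 5, 5, 5, 5, 4, 2, 1, 1, 1]),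
  (15, [5, 5, 5, 5, 5, 5, 5, 5, 3, 3, 3]),
  (15, [5, 5, 5, 5, 5, 5, 5, 5, 3, 3, 2, 1]),
  (15, [5, 5, 5, 5, 5, 5, 5, 4, 4, 3, 3]),
  (15, [5, 5, 5, 5, 5, 5, 4, 4, 4, 4, 3]),
  (16, [6, 5, 5, 5, 5, 5, 5, 5, 5, 4, 2]),
  (16, [6, 5, 5, 5, 5, 5, 5, 5, 5, 4, 1, 1]),
  (16, [6, 5, 5, 5, 5, 5, 5, 5, 5, 3, 3]),
  (16, [5, 5, 5, 5, 5, 5, 5, 5, 5, 5, 2]),
  (18, [6, 6, 6, 6, 6, 6, 6, 6, 5, 2, 2, 1]),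
  (18, [6, 6, 6, 6, 6, 6, 6, 6, 4, 4, 2]),
  (18, [6, 6, 6, 6, 6, 6, 6, 6, 4, 4, 1, 1]),
  (18, [6, 6, 6, 6, 6, 6, 6, 6, 4, 3, 3]),
  (18, [6, 6, 6, 6, 6, 6, 6, 5, 5, 4, 2]),
  (21, [7, 7, 7, 7, 7, 7, 7, 7, 6, 3, 2]),
  (21, [7, 7, 7, 7, 7, 7, 7, 7, 6, 3, 1, 1]),
  (21, [7, 7, 7, 7, 7, 7, 6, 6, 6, 6, 1]),
  (22, [8, 7, 7, 7, 7, 7, 7, 7, 7, 6]),
  (22, [8, 7, 7, 7, 7, 7, 7, 7, 7, 5, 1]),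
  (22, [7, 7, 7, 7, 7, 7, 7, 7, 7, 7]),
  (24, [8, 8, 8, 8, 8, 8, 8, 8, 7, 3, 2]),
  (24, [8, 8, 8, 8, 8, 8, 8, 8, 6, 6]),
  (24, [8, 8, 8, 8, 8, 8, 8, 8, 6, 5, 1]),
  (24, [8, 8, 8, 8, 8, 8, 8, 7, 7, 6]),
  (24, [8, 8, 8, 8, 8, 8, 7, 7, 7, 7]),
  (25, [9, 8, 8, 8, 8, 8, 8, 8, 8, 6]),
  (25, [9, 8, 8, 8, 8, 8, 8, 8, 7, 7]),
  (25, [8, 8, 8, 8, 8, 8, 8, 8, 8, 7]),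
  (26, [10, 8, 8, 8, 8, 8, 8, 8, 8, 8]),
  (26, [9, 9, 8, 8, 8, 8, 8, 8, 8, 8]),
  (27, [9, 9, 9, 9, 9, 9, 9, 9, 7, 6]),
  (27, [9, 9, 9, 9, 9, 9, 9, 8, 8, 6]),
  (27, [9, 9, 9, 9, 9, 9, 9, 8, 7, 7]),
  (27, [9, 9, 9, 9, 9, 9, 8, 8, 8, 7]),
  (28, [10, 9, 9, 9, 9, 9, 9, 9, 9, 6]),
  (30, [10, 10, 10, 10, 10, 10, 10, 10, 9, 5]),
  (30, [10, 10, 10, 10, 10, 10, 10, 10, 9, 4, 1]),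
  (30, [10, 10, 10, 10, 10, 10, 10, 10, 8, 6]),
  (30, [10, 10, 10, 10, 10, 10, 10, 10, 7, 7]),
  (30, [10, 10, 10, 10, 10, 10, 10, 9, 9, 6]),
  (33, [11, 11, 11, 11, 11, 11, 11, 11, 10, 5]),
  (36, [12, 12, 12, 12, 12, 12, 12, 12, 11, 5]),
  (39, [13, 13, 13, 13, 13, 13, 13, 13, 12, 5]),
  (42, [14, 14, 14, 14, 14, 14, 14, 14, 13, 5])]

theorem search_1 : search table 1 15 = true := by decide +kernel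

theorem search_2 : search table 2 32 = true := by decide +kernel

theorem search_3 : search table 3 52 = true := by decide +kernel

theorem search_4 : search table 4 75 = true := by decide +kernel

end Pool.Agent.T6.H9.SG
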