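import Pool.Agent.T6.H9.SG.D0
import Pool.Agent.T6.H9.SG.D1
import Pool.Agent.T6.H9.SG.D2
import Pool.Agent.T6.H9.SG.D3
import Pool.Agent.T6.H9.SG.D4
import Pool.Agent.T6.H9.SG.D5
import Pool.Agent.T6.H9.SG.D6
import Pool.Agent.T6.H9.SG.D7
import Pool.Agent.T6.H9.SG.D8
import Pool.Agent.T6.H9.SG.D9
import Pool.Agent.T6.H9.SG.Table

set_option autoImplicit false
set_option maxRecDepth 100000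

/-!
# All the entries of the table
-/

namespace Pool.Agent.T6.H9.SG

theorem cov_cons {e : ℕ × List ℕ} {t : List (ℕ × List ℕ)} (h : Cov e.1 e.2)
    (ht : ∀ x ∈ t, Cov x.1 x.2) : ∀ x ∈ e :: t, Cov x.1 x.2 := by
  intro x hx
  rcases List.mem_cons.1 hx with rfl | hx
  · exact h
  · exact ht x hx

theorem cov_nil : ∀ x ∈ ([] : List (ℕ × List ℕ)), Cov x.1 x.2 := by
  intro x hx
  exact absurd hx (by simp)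

theorem table_cov : ∀ e ∈ table, Cov e.1 e.2 :=
  cov_cons (e := (4, [2, 1, 1, 1, 1, 1, 1, 1, 1, 1, 1, 1, 1])) cov_0 (
  cov_cons (e := (6, [2, 2, 2, 2, 2, 2, 2, 2, 1, 1, 1, 1])) cov_1 (
  cov_cons (e := (7, [3, 2, 2, 2, 2, 2, 2, 2, 2, 2, 2])) cov_2 (
  cov_cons (e := (9, [3, 3, 3, 3, 3, 3, 3, 3, 2, 2, 1])) cov_3 (
  cov_cons (e := (12, [4, 4, 4, 4, 4, 4, 4, 4, 3, 3])) cov_4 (
  cov_cons (e := (13, [5, 4, 4, 4, 4, 4, 4, 4, 4, 4])) cov_5 (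
  cov_cons (e := (15, [5, 5, 5, 5, 5, 5, 5, 5, 4, 3])) cov_6 (
  cov_cons (e := (4, [1, 1, 1, 1, 1, 1, 1, 1, 1, 1, 1, 1, 1, 1, 1])) cov_7 (
  cov_cons (e := (5, [3, 1, 1, 1, 1, 1, 1, 1, 1, 1, 1, 1, 1, 1, 1, 1])) cov_8 (
  cov_cons (e := (6, [2, 2, 2, 2, 2, 2, 2, 1, 1, 1, 1, 1, 1, 1])) cov_9 (
  cov_cons (e := (7, [3, 2, 2, 2, 2, 2, 2, 2, 2, 2, 1, 1, 1])) cov_10 (
  cov_cons (e := (7, [2, 2, 2, 2, 2, 2, 2, 2, 2, 2, 2, 2])) cov_11 (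
  cov_cons (e := (9, [3, 3, 3, 3, 3, 3, 3, 3, 2, 1, 1, 1, 1])) cov_12 (
  cov_cons (e := (9, [3, 3, 3, 3, 3, 3, 3, 2, 2, 2, 2, 1])) cov_13 (
  cov_cons (e := (10, [4, 3, 3, 3, 3, 3, 3, 3, 3, 3, 2])) cov_14 (
  cov_cons (e := (10, [4, 3, 3, 3, 3, 3, 3, 3, 3, 3, 1, 1])) cov_15 (
  cov_cons (e := (10, [3, 3, 3, 3, 3, 3, 3, 3, 3, 3, 3])) cov_16 (
  cov_cons (e := (12, [4, 4, 4, 4, 4, 4, 4, 4, 3, 2, 2])) cov_17 (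
  cov_cons (e := (12, [4, 4, 4, 4, 4, 4, 4, 4, 3, 2, 1, 1])) cov_18 (
  cov_cons (e := (12, [4, 4, 4, 4, 4, 4, 4, 3, 3, 3, 2])) cov_19 (
  cov_cons (e := (15, [5, 5, 5, 5, 5, 5, 5, 5, 4, 2, 2])) cov_20 (
  cov_cons (e := (15, [5, 5, 5, 5, 5, 5, 5, 4, 4, 4, 1])) cov_21 (
  cov_cons (e := (16, [6, 5, 5, 5, 5, 5, 5, 5, 5, 5])) cov_22 (
  cov_cons (e := (18, [6, 6, 6, 6, 6, 6, 6, 6, 5, 4])) cov_23 (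
  cov_cons (e := (18, [6, 6, 6, 6, 6, 6, 6, 6, 5, 3, 1])) cov_24 (
  cov_cons (e := (18, [6, 6, 6, 6, 6, 6, 6, 5, 5, 5])) cov_25 (
  cov_cons (e := (19, [7, 6, 6, 6, 6, 6, 6, 6, 6, 5])) cov_26 (
  cov_cons (e := (19, [6, 6, 6, 6, 6, 6, 6, 6, 6, 6])) cov_27 (
  cov_cons (e := (21, [7, 7, 7, 7, 7, 7, 7, 7, 6, 4])) cov_28 (
  cov_cons (e := (21, [7, 7, 7, 7, 7, 7, 7, 7, 5, 5])) cov_29 (
  cov_cons (e := (21, [7, 7, 7, 7, 7, 7, 7, 6, 6, 5])) cov_30 (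
  cov_cons (e := (24, [8, 8, 8, 8, 8, 8, 8, 8, 7, 4])) cov_31 (
  cov_cons (e := (27, [9, 9, 9, 9, 9, 9, 9, 9, 8, 4])) cov_32 (
  cov_cons (e := (5, [2, 2, 1, 1, 1, 1, 1, 1, 1, 1, 1, 1, 1, 1, 1, 1, 1])) cov_33 (
  cov_cons (e := (6, [4, 1, 1, 1, 1, 1, 1, 1, 1, 1, 1, 1, 1, 1, 1, 1, 1, 1, 1])) cov_34 (
  cov_cons (e := (6, [2, 2, 2, 2, 2, 2, 1, 1, 1, 1, 1, 1, 1, 1, 1, 1])) cov_35 (
  cov_cons (e := (7, [3, 2, 2, 2, 2, 2, 2, 2, 2, 1, 1, 1, 1, 1, 1])) cov_36 (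
  cov_cons (e := (7, [2, 2, 2, 2, 2, 2, 2, 2, 2, 2, 2, 1, 1, 1])) cov_37 (
  cov_cons (e := (8, [4, 2, 2, 2, 2, 2, 2, 2, 2, 2, 2, 2, 2])) cov_38 (
  cov_cons (e := (8, [4, 2, 2, 2, 2, 2, 2, 2, 2, 2, 2, 2, 1, 1])) cov_39 (
  cov_cons (e := (8, [3, 3, 2, 2, 2, 2, 2, 2, 2, 2, 2, 2, 2])) cov_40 (
  cov_cons (e := (9, [3, 3, 3, 3, 3, 3, 3, 3, 1, 1, 1, 1, 1, 1, 1])) cov_41 (
  cov_cons (e := (9, [3, 3, 3, 3, 3, 3, 3, 2, 2, 2, 1, 1, 1, 1])) cov_42 (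
  cov_cons (e := (9, [3, 3, 3, 3, 3, 3, 2, 2, 2, 2, 2, 2, 1])) cov_43 (
  cov_cons (e := (10, [4, 3, 3, 3, 3, 3, 3, 3, 3, 2, 2, 2])) cov_44 (
  cov_cons (e := (10, [4, 3, 3, 3, 3, 3, 3, 3, 3, 2, 2, 1, 1])) cov_45 (
  cov_cons (e := (10, [3, 3, 3, 3, 3, 3, 3, 3, 3, 3, 2, 2])) cov_46 (
  cov_cons (e := (11, [5, 3, 3, 3, 3, 3, 3, 3, 3, 3, 3, 2])) cov_47 (
  cov_cons (e := (12, [4, 4, 4, 4, 4, 4, 4, 4, 3, 1, 1, 1, 1, 1])) cov_48 (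
  cov_cons (e := (12, [4, 4, 4, 4, 4, 4, 4, 4, 2, 2, 2, 2])) cov_49 (
  cov_cons (e := (12, [4, 4, 4, 4, 4, 4, 4, 4, 2, 2, 2, 1, 1])) cov_50 (
  cov_cons (e := (12, [4, 4, 4, 4, 4, 4, 4, 3, 3, 3, 1, 1, 1])) cov_51 (
  cov_cons (e := (12, [4, 4, 4, 4, 4, 4, 4, 3, 3, 2, 2, 2])) cov_52 (
  cov_cons (e := (12, [4, 4, 4, 4, 4, 4, 3, 3, 3, 3, 3, 1])) cov_53 (
  cov_cons (e := (13, [5, 4, 4, 4, 4, 4, 4, 4, 4, 3, 3])) cov_54 (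
  cov_cons (e := (13, [5, 4, 4, 4, 4, 4, 4, 4, 4, 3, 2, 1])) cov_55 (
  cov_cons (e := (13, [4, 4, 4, 4, 4, 4, 4, 4, 4, 4, 3])) cov_56 (
  cov_cons (e := (14, [6, 4, 4, 4, 4, 4, 4, 4, 4, 4, 4])) cov_57 (
  cov_cons (e := (14, [5, 5, 4, 4, 4, 4, 4, 4, 4, 4, 4])) cov_58 (
  cov_cons (e := (15, [5, 5, 5, 5, 5, 5, 5, 5, 4, 2, 1, 1, 1])) cov_59 (
  cov_cons (e := (15, [5, 5, 5, 5, 5, 5, 5, 5, 3, 3, 3])) cov_60 (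
  cov_cons (e := (15, [5, 5, 5, 5, 5, 5, 5, 5, 3, 3, 2, 1])) cov_61 (
  cov_cons (e := (15, [5, 5, 5, 5, 5, 5, 5, 4, 4, 3, 3])) cov_62 (
  cov_cons (e := (15, [5, 5, 5, 5, 5, 5, 4, 4, 4, 4, 3])) cov_63 (
  cov_cons (e := (16, [6, 5, 5, 5, 5, 5, 5, 5, 5, 4, 2])) cov_64 (
  cov_cons (e := (16, [6, 5, 5, 5, 5, 5, 5, 5, 5, 4, 1, 1])) cov_65 (
  cov_cons (e := (16, [6, 5, 5, 5, 5, 5, 5, 5, 5, 3, 3])) cov_66 (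
  cov_cons (e := (16, [5, 5, 5, 5, 5, 5, 5, 5, 5, 5, 2])) cov_67 (
  cov_cons (e := (18, [6, 6, 6, 6, 6, 6, 6, 6, 5, 2, 2, 1])) cov_68 (
  cov_cons (e := (18, [6, 6, 6, 6, 6, 6, 6, 6, 4, 4, 2])) cov_69 (
  cov_cons (e := (18, [6, 6, 6, 6, 6, 6, 6, 6, 4, 4, 1, 1])) cov_70 (
  cov_cons (e := (18, [6, 6, 6, 6, 6, 6, 6, 6, 4, 3, 3])) cov_71 (
  cov_cons (e := (18, [6, 6, 6, 6, 6, 6, 6, 5, 5, 4, 2])) cov_72 (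
  cov_cons (e := (21, [7, 7, 7, 7, 7, 7, 7, 7, 6, 3, 2])) cov_73 (
  cov_cons (e := (21, [7, 7, 7, 7, 7, 7, 7, 7, 6, 3, 1, 1])) cov_74 (
  cov_cons (e := (21, [7, 7, 7, 7, 7, 7, 6, 6, 6, 6, 1])) cov_75 (
  cov_cons (e := (22, [8, 7, 7, 7, 7, 7, 7, 7, 7, 6])) cov_76 (
  cov_cons (e := (22, [8, 7, 7, 7, 7, 7, 7, 7, 7, 5, 1])) cov_77 (
  cov_cons (e := (22, [7, 7, 7, 7, 7, 7, 7, 7, 7, 7])) cov_78 (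
  cov_cons (e := (24, [8, 8, 8, 8, 8, 8, 8, 8, 7, 3, 2])) cov_79 (
  cov_cons (e := (24, [8, 8, 8, 8, 8, 8, 8, 8, 6, 6])) cov_80 (
  cov_cons (e := (24, [8, 8, 8, 8, 8, 8, 8, 8, 6, 5, 1])) cov_81 (
  cov_cons (e := (24, [8, 8, 8, 8, 8, 8, 8, 7, 7, 6])) cov_82 (
  cov_cons (e := (24, [8, 8, 8, 8, 8, 8, 7, 7, 7, 7])) cov_83 (
  cov_cons (e := (25, [9, 8, 8, 8, 8, 8, 8, 8, 8, 6])) cov_84 (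
  cov_cons (e := (25, [9, 8, 8, 8, 8, 8, 8, 8, 7, 7])) cov_85 (
  cov_cons (e := (25, [8, 8, 8, 8, 8, 8, 8, 8, 8, 7])) cov_86 (
  cov_cons (e := (26, [10, 8, 8, 8, 8, 8, 8, 8, 8, 8])) cov_87 (
  cov_cons (e := (26, [9, 9, 8, 8, 8, 8, 8, 8, 8, 8])) cov_88 (
  cov_cons (e := (27, [9, 9, 9, 9, 9, 9, 9, 9, 7, 6])) cov_89 (
  cov_cons (e := (27, [9, 9, 9, 9, 9, 9, 9, 8, 8, 6])) cov_90 (
  cov_cons (e := (27, [9, 9, 9, 9, 9, 9, 9, 8, 7, 7])) cov_91 (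
  cov_cons (e := (27, [9, 9, 9, 9, 9, 9, 8, 8, 8, 7])) cov_92 (
  cov_cons (e := (28, [10, 9, 9, 9, 9, 9, 9, 9, 9, 6])) cov_93 (
  cov_cons (e := (30, [10, 10, 10, 10, 10, 10, 10, 10, 9, 5])) cov_94 (
  cov_cons (e := (30, [10, 10, 10, 10, 10, 10, 10, 10, 9, 4, 1])) cov_95 (
  cov_cons (e := (30, [10, 10, 10, 10, 10, 10, 10, 10, 8, 6])) cov_96 (
  cov_cons (e := (30, [10, 10, 10, 10, 10, 10, 10, 10, 7, 7])) cov_97 (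
  cov_cons (e := (30, [10, 10, 10, 10, 10, 10, 10, 9, 9, 6])) cov_98 (
  cov_cons (e := (33, [11, 11, 11, 11, 11, 11, 11, 11, 10, 5])) cov_99 (
  cov_cons (e := (36, [12, 12, 12, 12, 12, 12, 12, 12, 11, 5])) cov_100 (
  cov_cons (e := (39, [13, 13, 13, 13, 13, 13, 13, 13, 12, 5])) cov_101 (
  cov_cons (e := (42, [14, 14, 14, 14, 14, 14, 14, 14, 13, 5])) cov_102 (
  cov_nil)))))))))))))))))))))))))))))))))))))))))))))))))))))))))))))))))))))))))))))))))))))))))))))))))))))))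

end Pool.Agent.T6.H9.SG
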