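import Pool.Agent.T6.H9.SG.Good

set_option autoImplicit false
set_option maxRecDepth 100000

/-!
# Certificates
-/

namespace Pool.Agent.T6.H9.SG

theorem cov_102 : Cov 42 [14, 14, 14, 14, 14, 14, 14, 14, 13, 5] := cov_of 14 14 14
  [(14, [(885, 397), (196, 506), (22, 379), (401, 430), (588, 443)]), (13, [(866, 888)]), (5, [(355, 874)])]
  [(0, 14), (0, 15), (0, 16), (0, 17), (0, 18), (0, 19), (0, 20), (0, 21), (0, 22), (0, 23), (0, 24), (0, 25), (0, 26), (0, 27), (1, 13), (1, 14), (1, 15), (1, 16), (1, 17), (1, 18), (1, 19), (1, 20), (1, 21), (1, 22), (1, 23), (1, 24), (1, 25), (2, 12), (2, 13), (2, 14), (2, 15), (2, 16), (2, 17), (2, 18), (2, 19), (2, 20), (2, 21), (2, 22), (2, 23), (3, 11), (3, 12), (3, 13), (3, 14), (3, 15), (3, 16), (3, 17), (3, 18), (3, 19), (3, 20), (3, 21), (4, 10), (4, 11), (4, 12), (4, 13), (4, 14), (4, 15), (4, 16), (4, 17), (4, 18), (4, 19), (5, 9), (5, 10), (5, 11), (5, 12), (5, 13), (5, 14), (5, 15),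 (5, 16), (5, 17), (6, 8), (6, 9), (6, 10), (6, 11), (6, 12), (6, 13), (6, 14), (6, 15), (7, 7), (7, 8), (7, 9), (7, 10), (7, 11), (7, 12), (7, 13), (8, 6), (8, 7), (8, 8), (8, 9), (8, 10), (8, 11), (9, 5), (9, 6), (9, 7), (9, 8), (9, 9), (10, 4), (10, 5), (10, 6), (10, 7), (11, 3), (11, 4), (11, 5), (12, 2), (12, 3), (13, 1), (2, 25), (2, 26), (2, 27), (2, 28), (0, 28), (3, 22), (4, 20), (6, 16), (6, 17), (6, 18), (6, 19), (6, 20), (6, 21), (7, 14), (6, 22), (6, 23), (6, 24), (6, 25), (6, 26), (6, 27), (6, 28), (4, 21), (4, 22), (7, 15), (7, 16), (7, 17), (7, 18), (4, 27), (1, 26), (4, 23), (4, 24), (4, 25), (4, 26), (7, 19), (7, 20), (7, 21), (7, 22), (8, 12), (8, 13), (7, 25), (7, 26), (7, 27), (7, 28), (4, 28), (3, 23), (3, 24), (8, 14), (8, 15), (8, 16), (8, 17), (7, 24), (3, 25), (3, 26), (3, 27), (7, 23), (8, 18), (8, 19), (8, 20), (8, 21), (9, 10), (8, 23), (8, 24), (8, 25), (8, 26), (8, 27), (8, 28), (5, 18), (9, 11), (9,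 12), (2, 24), (3, 28), (8, 22), (9, 13), (9, 14), (9, 15), (9, 16), (10, 8), (1, 28), (9, 17), (9, 18), (9, 19), (9, 20), (10, 9), (10, 10), (9, 23), (9, 24), (9, 25), (10, 11), (10, 12), (11, 6), (5, 19), (10, 13), (10, 14), (11, 7), (11, 8), (10, 15), (11, 9), (11, 10), (12, 4), (11, 11), (12, 5), (12, 6), (12, 7), (13, 2), (13, 3), (10, 19), (10, 20), (10, 21), (10, 22), (10, 23), (10, 24), (10, 25), (10, 26), (10, 27), (10, 28), (5, 23), (5, 24), (5, 25), (11, 12), (5, 22), (1, 27), (9, 22), (9, 26), (5, 20), (9, 28), (11, 13), (11, 14), (11, 15), (11, 16), (11, 17), (11, 18), (11, 19), (11, 20), (11, 21), (11, 22), (11, 23), (11, 24), (11, 25), (11, 26), (11, 27), (11, 28), (12, 8), (5, 27), (9, 27), (5, 21), (9, 21), (10, 16), (5, 26), (12, 9), (12, 10), (12, 11), (12, 12), (12, 13), (12, 14), (12, 15), (12, 16), (12, 17), (12, 18), (12, 19), (12, 20), (13, 4), (12, 22), (12, 23), (12, 24), (12, 25), (12, 26), (13, 5), (13,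 6), (13, 7), (13, 8), (13, 9), (12, 21), (12, 27), (12, 28), (13, 10), (14, 0), (13, 11), (13, 12), (13, 13), (13, 14), (10, 18), (5, 28), (14, 1), (14, 2), (13, 17), (13, 18), (13, 19), (13, 20), (13, 21), (14, 3), (14, 4), (13, 24), (13, 25), (13, 26), (13, 27), (14, 5), (14, 6), (13, 15), (13, 16), (13, 22), (14, 7), (14, 8), (10, 17), (13, 23), (14, 9), (14, 10), (13, 28), (14, 11), (14, 12), (14, 13), (14, 14), (14, 15), (14, 16), (14, 17), (14, 18), (14, 19), (14, 20), (14, 21), (14, 22), (14, 23), (14, 24), (14, 25), (14, 26), (14, 27), (15, 0), (15, 1), (15, 2), (15, 3), (15, 4), (15, 5), (15, 6), (15, 7), (15, 8), (15, 9), (15, 10), (15, 11), (15, 12), (15, 13), (15, 14), (15, 15), (15, 16), (15, 17), (15, 18), (15, 19), (15, 20), (15, 21), (15, 22), (15, 23), (15, 24), (16, 0), (16, 1), (16, 2), (16, 3), (16, 4), (16, 5), (16, 6), (16, 7), (16, 8), (16, 9), (16, 10), (16, 11), (16, 12), (16, 13), (16, 14), (16, 15), (16,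 16), (16, 17), (16, 18), (16, 19), (16, 20), (17, 0), (17, 1), (17, 2), (17, 3), (17, 4), (17, 5), (17, 6), (17, 7), (17, 8), (17, 9), (17, 10), (17, 11), (17, 12), (17, 13), (17, 14), (17, 15), (17, 16), (18, 0), (18, 1), (18, 2), (18, 3), (18, 4), (18, 5), (18, 6), (18, 7), (18, 8), (18, 9), (18, 10), (18, 11), (18, 12), (19, 0), (19, 1), (19, 2), (19, 3), (19, 4), (19, 5), (19, 6), (19, 7), (19, 8), (20, 0), (20, 1), (20, 2), (20, 3), (20, 4), (21, 0), (16, 23), (17, 17), (17, 18), (17, 19), (18, 13), (18, 14), (18, 15), (18, 16), (18, 17), (18, 18), (18, 19), (18, 20), (18, 21), (18, 22), (18, 23), (18, 24), (17, 20), (17, 21), (17, 22), (17, 23), (17, 24), (17, 25), (16, 24), (16, 25), (16, 26), (19, 9), (19, 10), (19, 11), (19, 12), (19, 13), (19, 14), (19, 15), (19, 16), (19, 17), (19, 18), (19, 19), (19, 20), (19, 21), (19, 22), (19, 23), (15, 25), (15, 26), (15, 27), (14, 28), (16, 21), (20, 5), (20, 6), (20, 7), (20, 8),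 (20, 9), (20, 10), (20, 11), (20, 12), (20, 13), (20, 14), (20, 15), (20, 16), (20, 17), (20, 18), (20, 19), (20, 20), (20, 21), (20, 22), (16, 22), (21, 1), (21, 2), (21, 3), (21, 4), (21, 5), (21, 6), (21, 7), (21, 8), (21, 9), (21, 10), (21, 11), (21, 12), (21, 13), (21, 14), (21, 15), (21, 16), (21, 17), (21, 18), (21, 19), (21, 20), (22, 0), (22, 1), (22, 2), (22, 3), (22, 4), (22, 5), (22, 6), (22, 7), (22, 8), (22, 9), (22, 10), (22, 12), (22, 11), (22, 13), (22, 14), (23, 0), (23, 1), (23, 2), (23, 3), (23, 4), (23, 5), (22, 20), (21, 21), (22, 15), (22, 16), (22, 17), (22, 18), (22, 19), (23, 6), (23, 7), (23, 8), (23, 9), (23, 10), (23, 11), (23, 12), (23, 13), (23, 14), (23, 15), (23, 16), (23, 17), (23, 18), (23, 19), (24, 0), (24, 1), (24, 2), (24, 3), (24, 4), (24, 5), (24, 6), (24, 7), (24, 8), (24, 9), (24, 10), (24, 11), (24, 12), (24, 13), (24, 14), (24, 15), (24, 16), (24, 17), (24, 18), (25, 0), (25, 1), (25, 2),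 (25, 3), (25, 4), (25, 5), (25, 6), (25, 7), (25, 8), (25, 9), (25, 10), (25, 11), (25, 12), (25, 13), (25, 14), (25, 15), (25, 16), (25, 17), (26, 0), (26, 1), (26, 2), (26, 3), (26, 4), (26, 5), (26, 6), (26, 7), (26, 8), (26, 9), (26, 10), (26, 11), (26, 12), (26, 13), (26, 14), (26, 15), (26, 16), (27, 0), (27, 1), (27, 2), (27, 3), (27, 4), (27, 5), (27, 6), (27, 7), (27, 8), (27, 9), (27, 10), (27, 11), (27, 12), (27, 13), (27, 14), (27, 15), (28, 0), (28, 1), (28, 2), (28, 3), (28, 4), (28, 5), (28, 6), (28, 7), (28, 8), (28, 9), (28, 10), (28, 11), (28, 12), (28, 13), (28, 14)]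
  631 316 (by decide +kernel) (by decide +kernel)

end Pool.Agent.T6.H9.SG
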