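import Mathlib

set_option autoImplicit false

/-!
# Verified elimination modulo 1009 with packed rows

Rows of a matrix modulo `1009` are packed into natural numbers, base `2 ^ 32`. The function `chk`
eliminates the rows one after the other; if it returns `true`, the rows are linearly independent
modulo `1009`. All the functions are written for evaluation by the kernel.
-/

namespace Pool.Agent.T6.H9.SG

/-- Forces the evaluation of the argument. -/
def force {α : Sort _} (x : ℕ) (f : ℕ → α) : α :=
  Nat.rec (f 0) (fun n _ => f (Nat.succ n)) x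

theorem force_eq {α : Sort _} (x : ℕ) (f : ℕ → α) : force x f = f x := by cases x <;> rfl

/-! ### Digits -/

/-- The `t`-th digit in base `2 ^ 32`. -/
def dg (x t : ℕ) : ℕ := x / 4294967296 ^ t % 4294967296

/-- The digits are at most `M`. -/
def Bd (M x : ℕ) : Prop := ∀ t, dg x t ≤ M

theorem dg_zero (x : ℕ) : dg x 0 = x % 4294967296 := by simp [dg]

theorem dg_succ (x t : ℕ) : dg x (t + 1) = dg (x / 4294967296) t := by
  unfold dg
  rw [pow_succ, mul_comm, Nat.div_div_eq_div_mul]

theorem Bd.mono {M M' x : ℕ} (h : Bd M x) (hM : M ≤ M') : Bd M' x := fun t => (h t).trans hM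

theorem Bd.div {M x : ℕ} (h : Bd M x) : Bd M (x / 4294967296) := fun t => by
  rw [← dg_succ]
  exact h _

theorem dg_add_mul {M M' c : ℕ} (hc : M + c * M' < 4294967296) (t : ℕ) : ∀ {x y : ℕ},
    Bd M x → Bd M' y → dg (x + c * y) t = dg x t + c * dg y t := by
  induction t with
  | zero =>
    intro x y hx hy
    have h1 := hx 0
    have h2 := hy 0
    rw [dg_zero] at h1 h2
    rw [dg_zero, dg_zero, dg_zero]
    have h3 : c * (y % 4294967296) ≤ c * M' := Nat.mul_le_mul_left _ h2
    have h4 : (x + c * y) % 4294967296 = (x % 4294967296 + c * (y % 4294967296)) % 4294967296 := by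
      simp [Nat.add_mod, Nat.mul_mod]
    rw [h4, Nat.mod_eq_of_lt]
    omega
  | succ t ih =>
    intro x y hx hy
    have h1 := hx 0
    have h2 := hy 0
    rw [dg_zero] at h1 h2
    have h3 : c * (y % 4294967296) ≤ c * M' := Nat.mul_le_mul_left _ h2
    have h4 : (x + c * y) / 4294967296 = x / 4294967296 + c * (y / 4294967296) := by
      have e1 := Nat.div_add_mod x 4294967296
      have e2 := Nat.div_add_mod y 4294967296
      obtain ⟨a, ha⟩ : ∃ a, a = x / 4294967296 := ⟨_, rfl⟩
      obtain ⟨b, hb⟩ : ∃ b, b = y / 4294967296 := ⟨_, rfl⟩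
      obtain ⟨u, hu⟩ : ∃ u, u = x % 4294967296 := ⟨_, rfl⟩
      obtain ⟨v, hv⟩ : ∃ v, v = y % 4294967296 := ⟨_, rfl⟩
      rw [← ha, ← hu] at e1
      rw [← hb, ← hv] at e2
      rw [← ha, ← hb, ← e1, ← e2]
      rw [← hv] at h3
      rw [← hu] at h1
      have e3 : 4294967296 * a + u + c * (4294967296 * b + v) =
          (u + c * v) + 4294967296 * (a + c * b) := by ring
      rw [e3, Nat.add_mul_div_left _ _ (by norm_num), Nat.div_eq_of_lt (by omega), zero_add]
    rw [dg_succ, dg_succ, dg_succ, h4]
    exact ih hx.div hy.div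

theorem dg_land (a b t : ℕ) : dg (a &&& b) t = dg a t &&& dg b t := by
  have h : (4294967296 : ℕ) ^ t = 2 ^ (32 * t) := by
    rw [pow_mul]
    norm_num
  unfold dg
  rw [h, ← Nat.shiftRight_eq_div_pow, ← Nat.shiftRight_eq_div_pow, ← Nat.shiftRight_eq_div_pow,
    Nat.shiftRight_and_distrib, show (4294967296 : ℕ) = 2 ^ 32 by norm_num, Nat.and_mod_two_pow]

theorem Bd.land {M m a : ℕ} (h : Bd M m) : Bd M (a &&& m) := fun t => by
  rw [dg_land]
  exact Nat.and_le_right.trans (h t)

/-- The number with `n` digits equal to one. -/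
def rep (n : ℕ) : ℕ := Nat.rec 0 (fun _ ih => Nat.succ (Nat.mul 4294967296 ih)) n

theorem bd_rep (n : ℕ) : Bd 1 (rep n) := by
  induction n with
  | zero =>
    intro t
    have : rep 0 = 0 := rfl
    rw [this]
    simp [dg]
  | succ n ih =>
    have e : rep (n + 1) = 4294967296 * rep n + 1 := rfl
    intro t
    cases t with
    | zero =>
      rw [dg_zero, e]
      omega
    | succ t =>
      rw [dg_succ, e]
      have : (4294967296 * rep n + 1) / 4294967296 = rep n := by omega
      rw [this]
      exact ih t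

theorem bd_mul_rep {M : ℕ} (hM : M < 4294967296) (n : ℕ) : Bd M (M * rep n) := fun t => by
  have h0 : Bd 0 0 := fun t => by simp [dg]
  have h := dg_add_mul (M := 0) (M' := 1) (c := M) (by omega) t h0 (bd_rep n)
  rw [zero_add] at h
  rw [h]
  have h1 := bd_rep n t
  have h2 : dg 0 t = 0 := by simp [dg]
  rw [h2, zero_add]
  calc M * dg (rep n) t ≤ M * 1 := Nat.mul_le_mul_left _ h1
    _ = M := mul_one _

/-! ### Reduction modulo 1009 -/

/-- An (unverified) approximation of the quotients of the digits by `1009`; `mE`, `mQ` are masks on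
the even digits. -/
noncomputable def quot (mE mQ x : ℕ) : ℕ :=
  Nat.add (Nat.land (Nat.shiftRight (Nat.mul 2179408578 (Nat.land x mE)) 41) mQ)
    (Nat.shiftLeft (Nat.land (Nat.shiftRight (Nat.mul 2179408578
      (Nat.land (Nat.shiftRight x 32) mE)) 41) mQ) 32)

/-- The reduction of the digits, with a verification. -/
noncomputable def red (mE mQ mQ2 mZ x : ℕ) (k : ℕ → Bool) : Bool :=
  force (quot mE mQ x) fun q => force (Nat.mul 1009 q) fun pq => force (Nat.sub x pq) fun z =>
    Bool.rec false (Bool.rec false (Bool.rec false (k z) (Nat.beq (Nat.land q mQ2) q))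
      (Nat.beq (Nat.land z mZ) z)) (Nat.beq (Nat.add z pq) x)

theorem red_aux {z q : ℕ} (b2 : Bd 2047 z) (b3 : Bd 4194303 q) (t : ℕ) :
    ((dg (z + 1009 * q) t : ℕ) : ZMod 1009) = (dg z t : ZMod 1009) := by
  have hlt : 2047 + 1009 * 4194303 < 4294967296 := by norm_num
  rw [dg_add_mul hlt t b2 b3, Nat.cast_add, Nat.cast_mul, ZMod.natCast_self, zero_mul, add_zero]

theorem red_sound {mE mQ mQ2 mZ x : ℕ} {k : ℕ → Bool} (h2 : Bd 4194303 mQ2) (h3 : Bd 2047 mZ)
    (h : red mE mQ mQ2 mZ x k = true) :
    ∃ z, k z = true ∧ Bd 2047 z ∧ ∀ t, ((dg x t : ℕ) : ZMod 1009) = (dg z t : ZMod 1009) := by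
  unfold red at h
  rw [force_eq, force_eq, force_eq] at h
  generalize quot mE mQ x = q at h
  generalize Nat.sub x (Nat.mul 1009 q) = z at h
  rcases hb1 : Nat.beq (Nat.add z (Nat.mul 1009 q)) x with _ | _
  · rw [hb1] at h
    exact absurd h Bool.false_ne_true
  rw [hb1] at h
  rcases hb2 : Nat.beq (Nat.land z mZ) z with _ | _
  · rw [hb2] at h
    exact absurd h Bool.false_ne_true
  rw [hb2] at h
  rcases hb3 : Nat.beq (Nat.land q mQ2) q with _ | _
  · rw [hb3] at h
    exact absurd h Bool.false_ne_true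
  rw [hb3] at h
  have e1 : Nat.add z (Nat.mul 1009 q) = x := Nat.eq_of_beq_eq_true hb1
  have e2 : z &&& mZ = z := Nat.eq_of_beq_eq_true hb2
  have e3 : q &&& mQ2 = q := Nat.eq_of_beq_eq_true hb3
  have b2 : Bd 2047 z := by
    rw [← e2]
    exact h3.land
  have b3 : Bd 4194303 q := by
    rw [← e3]
    exact h2.land
  refine ⟨z, h, b2, fun t => ?_⟩
  rw [← e1]
  exact red_aux b2 b3 t

/-- Inverse modulo `1009` (unverified). -/
noncomputable def inv (a : ℕ) : ℕ :=
  (Nat.rec (motive := fun _ => ℕ → ℕ → ℕ → ℕ) (fun _ t _ => t)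
    (fun _ ih a t e => force (Nat.mod (Nat.mul a a) 1009) fun a' =>
      force (Nat.rec t (fun _ _ => Nat.mod (Nat.mul t a) 1009) (Nat.mod e 2)) fun t' =>
        force (Nat.div e 2) fun e' => ih a' t' e') 10) a 1 1007

/-! ### Elimination -/

/-- One row operation. -/
noncomputable def stp (v r : ℕ) : ℕ :=
  Nat.shiftRight (Nat.add r (Nat.mul (Nat.mod (Nat.mod r 4294967296) 1009) v)) 32

/-- The update of all the rows, in continuation passing style. -/
noncomputable def upd {α : Type} (v : ℕ) (L : List ℕ) : (List ℕ → α) → α :=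
  List.rec (motive := fun _ => (List ℕ → α) → α) (fun k => k [])
    (fun r _ ih k => force (Nat.shiftRight (Nat.add r (Nat.mul (Nat.mod (Nat.mod r 4294967296)
      1009) v)) 32) fun r' => ih fun L' => k (r' :: L')) L

theorem upd_eq {α : Type} (v : ℕ) (L : List ℕ) : ∀ k : List ℕ → α, upd v L k = k (L.map (stp v)) := by
  induction L with
  | nil => intro k; rfl
  | cons r L ih =>
    intro k
    have h : upd v (r :: L) k = force (stp v r) fun r' => upd v L fun L' => k (r' :: L') := rfl
    rw [h, force_eq, ih]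
    rfl

theorem mul_le_c {c x : ℕ} (hc : c ≤ 1008) (hx : x ≤ 2047) : c * x ≤ 2063376 :=
  (Nat.mul_le_mul hc hx).trans (le_of_eq (by norm_num))

theorem stp_sound {M v r : ℕ} (hr : Bd M r) (hv : Bd 2047 v) (hM : M + 2063376 < 4294967296) :
    Bd (M + 2063376) (stp v r) ∧ ∀ t, ((dg (stp v r) t : ℕ) : ZMod 1009) =
      (dg r (t + 1) : ZMod 1009) + (dg r 0 : ZMod 1009) * (dg v (t + 1) : ZMod 1009) := by
  obtain ⟨c, hc⟩ : ∃ c, c = r % 4294967296 % 1009 := ⟨_, rfl⟩
  have hc1 : c ≤ 1008 := by
    rw [hc]
    have := Nat.mod_lt (r % 4294967296) (show 0 < 1009 by norm_num)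
    omega
  have hs : stp v r = (r + c * v) / 4294967296 := by
    rw [hc]
    exact Nat.shiftRight_eq_div_pow _ _
  have hcM : M + c * 2047 < 4294967296 :=
    lt_of_le_of_lt (Nat.add_le_add_left (mul_le_c hc1 le_rfl) M) hM
  have h1 : ∀ t, dg (stp v r) t = dg r (t + 1) + c * dg v (t + 1) := by
    intro t
    rw [hs, ← dg_succ]
    exact dg_add_mul hcM (t + 1) hr hv
  refine ⟨fun t => ?_, fun t => ?_⟩
  · rw [h1]
    have h2 := hr (t + 1)
    exact Nat.add_le_add h2 (mul_le_c hc1 (hv (t + 1)))
  · rw [h1, Nat.cast_add, Nat.cast_mul, hc, ZMod.natCast_mod, dg_zero]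

/-- The elimination; `n` is the number of rows. -/
noncomputable def chk (mE mQ mQ2 mZ : ℕ) (n : ℕ) : List ℕ → Bool :=
  Nat.rec (motive := fun _ => List ℕ → Bool) (fun L => List.rec true (fun _ _ _ => false) L)
    (fun _ ih L => List.rec true (fun r L' _ =>
      force (Nat.mod (Nat.mod r 4294967296) 1009) fun h =>
        force (Nat.sub 1009 (inv h)) fun c =>
          Bool.rec false (red mE mQ mQ2 mZ r fun z => red mE mQ mQ2 mZ (Nat.mul z c) fun v =>
            upd v L' ih) (Nat.beq (Nat.mod (Nat.succ (Nat.mul c h)) 1009) 0)) L) n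

theorem chk_sound {mE mQ mQ2 mZ : ℕ} (h2 : Bd 4194303 mQ2) (h3 : Bd 2047 mZ) (n : ℕ) :
    ∀ (L : List ℕ) (M : ℕ), chk mE mQ mQ2 mZ n L = true → (∀ r ∈ L, Bd M r) →
      M + L.length * 2063376 < 4294967296 → ∀ c : ℕ → ZMod 1009,
      (∀ t, ∑ i ∈ Finset.range L.length, c i * ((dg (L.getD i 0) t : ℕ) : ZMod 1009) = 0) →
      ∀ i < L.length, c i = 0 := by
  induction n with
  | zero =>
    intro L M h
    cases L with
    | nil => intro _ _ c _ i hi; simp at hi
    | cons r L => exact absurd h (by simp [chk])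
  | succ n ih =>
    intro L M h hL hM c hc i hi
    cases L with
    | nil => simp at hi
    | cons r L =>
      have e0 : chk mE mQ mQ2 mZ (n + 1) (r :: L) =
        force (Nat.mod (Nat.mod r 4294967296) 1009) fun h =>
          force (Nat.sub 1009 (inv h)) fun c =>
            Bool.rec false (red mE mQ mQ2 mZ r fun z => red mE mQ mQ2 mZ (Nat.mul z c) fun v =>
              upd v L (chk mE mQ mQ2 mZ n)) (Nat.beq (Nat.mod (Nat.succ (Nat.mul c h)) 1009) 0) :=
        rfl
      rw [e0, force_eq, force_eq] at h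
      obtain ⟨a, ha⟩ : ∃ a, a = Nat.mod (Nat.mod r 4294967296) 1009 := ⟨_, rfl⟩
      rw [← ha] at h
      obtain ⟨κ, hκ⟩ : ∃ κ, κ = Nat.sub 1009 (inv a) := ⟨_, rfl⟩
      rw [← hκ] at h
      rcases hb : Nat.beq (Nat.mod (Nat.succ (Nat.mul κ a)) 1009) 0 with _ | _
      · rw [hb] at h
        exact absurd h (by simp)
      rw [hb] at h
      have hκa : (κ * a + 1) % 1009 = 0 := Nat.eq_of_beq_eq_true hb
      have hκa' : (κ : ZMod 1009) * (a : ZMod 1009) + 1 = 0 := by
        have h1 : ((κ * a + 1 : ℕ) : ZMod 1009) = 0 := by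
          rw [ZMod.natCast_eq_zero_iff]
          exact Nat.dvd_of_mod_eq_zero hκa
        rwa [Nat.cast_add, Nat.cast_mul, Nat.cast_one] at h1
      obtain ⟨z, hz, hz1, hz2⟩ := red_sound h2 h3 h
      obtain ⟨v, hv, hv1, hv2⟩ := red_sound h2 h3 hz
      rw [upd_eq] at hv
      have hκ1 : κ ≤ 1009 := by
        rw [hκ]
        exact Nat.sub_le _ _
      have hv3 : ∀ t, ((dg v t : ℕ) : ZMod 1009) = κ * (dg r t : ZMod 1009) := by
        intro t
        rw [← hv2, hz2]
        have h0 : Bd 0 0 := fun t => by simp [dg]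
        have h5 := dg_add_mul (M := 0) (M' := 2047) (c := κ)
          (lt_of_le_of_lt (Nat.add_le_add_left (Nat.mul_le_mul_right 2047 hκ1) 0) (by norm_num)) t
          h0 hz1
        have h6 : Nat.mul z κ = 0 + κ * z := by
          rw [zero_add, mul_comm]
          rfl
        rw [h6, h5]
        have h7 : dg 0 t = 0 := by simp [dg]
        rw [h7, zero_add, Nat.cast_mul]
      have ha2 : ((dg r 0 : ℕ) : ZMod 1009) = (a : ZMod 1009) := by
        rw [dg_zero, ha]
        exact (ZMod.natCast_mod _ _).symm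
      have hrM : Bd M r := hL r (by simp)
      rw [List.length_cons] at hM
      rw [Nat.succ_mul] at hM
      have hM1 : M + 2063376 < 4294967296 :=
        lt_of_le_of_lt (Nat.add_le_add_left (Nat.le_add_left _ _) M) hM
      -- the relation between the new rows
      have key : ∀ t, ∑ i ∈ Finset.range (L.map (stp v)).length,
          c (i + 1) * ((dg ((L.map (stp v)).getD i 0) t : ℕ) : ZMod 1009) = 0 := by
        intro t
        have e1 : ∀ i ∈ Finset.range L.length,
            c (i + 1) * ((dg ((L.map (stp v)).getD i 0) t : ℕ) : ZMod 1009) =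
              c (i + 1) * ((dg (L.getD i 0) (t + 1) : ℕ) : ZMod 1009) +
                c (i + 1) * ((dg (L.getD i 0) 0 : ℕ) : ZMod 1009) * (dg v (t + 1) : ZMod 1009) := by
          intro i hi
          have hi' := Finset.mem_range.1 hi
          have e2 : (L.map (stp v)).getD i 0 = stp v (L.getD i 0) := by
            rw [List.getD_eq_getElem _ _ (by simpa using hi'), List.getD_eq_getElem _ _ hi',
              List.getElem_map]
          have e3 : Bd M (L.getD i 0) := by
            rw [List.getD_eq_getElem _ _ hi']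
            exact hL _ (List.mem_cons_of_mem _ (List.getElem_mem _))
          rw [e2, (stp_sound e3 hv1 hM1).2 t]
          ring
        rw [List.length_map, Finset.sum_congr rfl e1, Finset.sum_add_distrib, ← Finset.sum_mul]
        have g1 := hc (t + 1)
        have g0 := hc 0
        rw [List.length_cons, Finset.sum_range_succ'] at g1 g0
        simp only [List.getD_cons_succ, List.getD_cons_zero] at g1 g0
        have f1 : ∑ i ∈ Finset.range L.length, c (i + 1) * ((dg (L.getD i 0) (t + 1) : ℕ) : ZMod 1009)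
            = - (c 0 * ((dg r (t + 1) : ℕ) : ZMod 1009)) := eq_neg_of_add_eq_zero_left g1
        have f0 : ∑ i ∈ Finset.range L.length, c (i + 1) * ((dg (L.getD i 0) 0 : ℕ) : ZMod 1009)
            = - (c 0 * ((dg r 0 : ℕ) : ZMod 1009)) := eq_neg_of_add_eq_zero_left g0
        rw [f1, f0, hv3, ha2]
        linear_combination (-(c 0) * ((dg r (t + 1) : ℕ) : ZMod 1009)) * hκa'
      have hnew := ih (L.map (stp v)) (M + 2063376) hv (by
        intro r' hr'
        obtain ⟨s, hs, rfl⟩ := List.mem_map.1 hr'
        exact (stp_sound (hL s (List.mem_cons_of_mem _ hs)) hv1 hM1).1) (by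
        rw [List.length_map, Nat.add_assoc, Nat.add_comm 2063376]
        exact hM) (fun i => c (i + 1)) key
      rw [List.length_map] at hnew
      cases i with
      | succ i =>
        rw [List.length_cons] at hi
        exact hnew i (by omega)
      | zero =>
        have g0 := hc 0
        rw [List.length_cons, Finset.sum_range_succ', Finset.sum_eq_zero] at g0
        · simp only [List.getD_cons_zero, zero_add] at g0
          rw [ha2] at g0
          have : Fact (Nat.Prime 1009) := ⟨by norm_num⟩
          have hane : (a : ZMod 1009) ≠ 0 := by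
            intro h0
            rw [h0, mul_zero, zero_add] at hκa'
            exact one_ne_zero hκa'
          exact (mul_eq_zero.1 g0).resolve_right hane
        · intro j hj
          have := hnew j (Finset.mem_range.1 hj)
          rw [this, zero_mul]

/-- The elimination with its masks; `n` is at least the number of rows, `e` at least half of the
number of digits. -/
noncomputable def elim (n e : ℕ) (L : List ℕ) : Bool :=
  force (Nat.mul 4294967295 (Nat.rec 0 (fun _ ih => Nat.succ (Nat.mul 18446744073709551616 ih)) e)) fun mE =>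
  force (Nat.mul 4194303 (Nat.rec 0 (fun _ ih => Nat.succ (Nat.mul 18446744073709551616 ih)) e)) fun mQ =>
  force (Nat.mul 4194303 (rep (Nat.mul 2 e))) fun mQ2 =>
  force (Nat.mul 2047 (rep (Nat.mul 2 e))) fun mZ => chk mE mQ mQ2 mZ n L

theorem elim_sound {n e : ℕ} {L : List ℕ} (h : elim n e L = true) (hL : ∀ r ∈ L, Bd 1024192512 r)
    (hlen : L.length ≤ 1500) (c : ℕ → ZMod 1009)
    (hc : ∀ t, ∑ i ∈ Finset.range L.length, c i * ((dg (L.getD i 0) t : ℕ) : ZMod 1009) = 0) :
    ∀ i < L.length, c i = 0 := by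
  unfold elim at h
  rw [force_eq, force_eq, force_eq, force_eq] at h
  refine chk_sound (bd_mul_rep (by norm_num) _) (bd_mul_rep (by norm_num) _) n L 1024192512 h hL ?_
    c hc
  exact lt_of_le_of_lt (Nat.add_le_add_left (Nat.mul_le_mul_right 2063376 hlen) 1024192512)
    (by norm_num)

end Pool.Agent.T6.H9.SG
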