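import Pool.Agent.T6.H9.SG.Elim

set_option autoImplicit false

/-!
# A verified enumeration of the standard classes

The list of the multiplicities is built from the left; `s` is the sum of the remaining ones and `q`
is a lower bound for the sum of their squares. The search stops at the lists which dominate an entry
of the table.
-/

namespace Pool.Agent.T6.H9.SG

/-- The entries of the first list are at most those of the second one. -/
noncomputable def domb (L : List ℕ) : List ℕ → Bool :=
  List.rec (motive := fun _ => List ℕ → Bool) (fun _ => true)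
    (fun a _ ih l => List.rec (motive := fun _ => Bool) false
      (fun b l' _ => Bool.rec false (ih l') (Nat.ble a b)) l) L

theorem domb_nil (l : List ℕ) : domb [] l = true := rfl
theorem domb_cons_nil (a : ℕ) (L : List ℕ) : domb (a :: L) [] = false := rfl
theorem domb_cons (a b : ℕ) (L l : List ℕ) :
    domb (a :: L) (b :: l) = Bool.rec false (domb L l) (Nat.ble a b) := rfl

theorem domb_iff (L : List ℕ) : ∀ l : List ℕ, domb L l = true ↔
    L.length ≤ l.length ∧ ∀ i < L.length, L.getD i 0 ≤ l.getD i 0 := by
  induction L with
  | nil =>
    intro l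
    rw [domb_nil]
    simp
  | cons a L ih =>
    intro l
    cases l with
    | nil =>
      rw [domb_cons_nil]
      simp
    | cons b l =>
      rw [domb_cons]
      constructor
      · intro h
        cases hab : Nat.ble a b with
        | false =>
          rw [hab] at h
          exact absurd h (by simp)
        | true =>
          rw [hab] at h
          obtain ⟨h1, h2⟩ := (ih l).1 h
          refine ⟨by simpa using h1, fun i hi => ?_⟩
          cases i with
          | zero =>
            simp only [List.getD_cons_zero]
            exact Nat.le_of_ble_eq_true hab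
          | succ i =>
            simp only [List.getD_cons_succ]
            exact h2 i (by simpa using hi)
      · rintro ⟨h1, h2⟩
        have h3 := h2 0 (by simp)
        simp only [List.getD_cons_zero] at h3
        rw [Nat.ble_eq_true_of_le h3]
        refine (ih l).2 ⟨by simpa using h1, fun i hi => ?_⟩
        have h4 := h2 (i + 1) (by simpa using hi)
        simpa only [List.getD_cons_succ] using h4

theorem domb_append {L l : List ℕ} (r : List ℕ) (h : domb L l = true) :
    domb L (l ++ r) = true := by
  rw [domb_iff] at h ⊢
  refine ⟨h.1.trans (by simp), fun i hi => ?_⟩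
  have h1 := h.2 i hi
  rwa [List.getD_append _ _ _ _ (lt_of_lt_of_le hi h.1)]

/-- Some entry of the table is dominated. -/
noncomputable def hit (tab : List (ℕ × List ℕ)) (d : ℕ) (acc : List ℕ) : Bool :=
  List.rec (motive := fun _ => Bool) false
    (fun e _ ih => Bool.rec ih (Bool.rec ih true (domb e.2 acc)) (Nat.beq e.1 d)) tab

theorem hit_sound {tab : List (ℕ × List ℕ)} {d : ℕ} {acc : List ℕ} (h : hit tab d acc = true) :
    ∃ e ∈ tab, e.1 = d ∧ domb e.2 acc = true := by
  induction tab with
  | nil => exact absurd h (by simp [hit])
  | cons e tab ih =>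
    have e1 : hit (e :: tab) d acc =
      Bool.rec (hit tab d acc) (Bool.rec (hit tab d acc) true (domb e.2 acc)) (Nat.beq e.1 d) := rfl
    rw [e1] at h
    have h2 : hit tab d acc = true → ∃ e' ∈ e :: tab, e'.1 = d ∧ domb e'.2 acc = true := by
      intro h3
      obtain ⟨e', he', h4⟩ := ih h3
      exact ⟨e', List.mem_cons_of_mem _ he', h4⟩
    cases h5 : Nat.beq e.1 d with
    | false =>
      rw [h5] at h
      exact h2 h
    | true =>
      rw [h5] at h
      cases h6 : domb e.2 acc with
      | false =>
        rw [h6] at h
        exact h2 h
      | true => exact ⟨e, by simp, Nat.eq_of_beq_eq_true h5, h6⟩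

/-- The first `k` entries are `d / 3`. -/
noncomputable def fam (d k : ℕ) : List ℕ → Bool :=
  Nat.rec (motive := fun _ => List ℕ → Bool) (fun _ => true)
    (fun _ ih l => List.rec (motive := fun _ => Bool) false
      (fun b l' _ => Bool.rec false (ih l') (Nat.beq (Nat.mul 3 b) d)) l) k

theorem fam_zero (d : ℕ) (l : List ℕ) : fam d 0 l = true := rfl
theorem fam_nil (d k : ℕ) : fam d (k + 1) [] = false := rfl
theorem fam_cons (d k b : ℕ) (l : List ℕ) :
    fam d (k + 1) (b :: l) = Bool.rec false (fam d k l) (Nat.beq (3 * b) d) := rfl

theorem fam_iff (d k : ℕ) : ∀ l : List ℕ, fam d k l = true ↔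
    k ≤ l.length ∧ ∀ i < k, 3 * l.getD i 0 = d := by
  induction k with
  | zero =>
    intro l
    rw [fam_zero]
    simp
  | succ k ih =>
    intro l
    cases l with
    | nil =>
      rw [fam_nil]
      simp
    | cons b l =>
      rw [fam_cons]
      constructor
      · intro h
        cases hab : Nat.beq (3 * b) d with
        | false =>
          rw [hab] at h
          exact absurd h (by simp)
        | true =>
          rw [hab] at h
          obtain ⟨h1, h2⟩ := (ih l).1 h
          refine ⟨by simpa using h1, fun i hi => ?_⟩
          cases i with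
          | zero =>
            simp only [List.getD_cons_zero]
            exact Nat.eq_of_beq_eq_true hab
          | succ i =>
            simp only [List.getD_cons_succ]
            exact h2 i (by omega)
      · rintro ⟨h1, h2⟩
        have h3 := h2 0 (by omega)
        simp only [List.getD_cons_zero] at h3
        have h5 : Nat.beq (3 * b) d = true := by
          rw [h3]
          exact Nat.beq_refl d
        rw [h5]
        refine (ih l).2 ⟨by simpa using h1, fun i hi => ?_⟩
        have h4 := h2 (i + 1) (by omega)
        simpa only [List.getD_cons_succ] using h4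

theorem fam_append {d k : ℕ} {l : List ℕ} (r : List ℕ) (h : fam d k l = true) :
    fam d k (l ++ r) = true := by
  rw [fam_iff] at h ⊢
  refine ⟨h.1.trans (by simp), fun i hi => ?_⟩
  have h1 := h.2 i hi
  rwa [List.getD_append _ _ _ _ (lt_of_lt_of_le hi h.1)]

/-- The values `v` from `b` to `1`, as long as `q ≤ v s`. -/
noncomputable def loop (g : ℕ → Bool) (s q b : ℕ) : Bool :=
  Nat.rec (motive := fun _ => Bool) true (fun v ih =>
    Bool.rec (Bool.rec false ih (g (Nat.succ v))) true (Nat.blt (Nat.mul (Nat.succ v) s) q)) b

theorem loop_succ (g : ℕ → Bool) (s q v : ℕ) : loop g s q (v + 1) =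
    Bool.rec (Bool.rec false (loop g s q v) (g (v + 1))) true (Nat.blt ((v + 1) * s) q) := rfl

theorem loop_sound {g : ℕ → Bool} {s q : ℕ} (b : ℕ) (h : loop g s q b = true) {v : ℕ}
    (hv : 1 ≤ v) (hvb : v ≤ b) (hq : q ≤ v * s) : g v = true := by
  induction b with
  | zero => omega
  | succ b ih =>
    rw [loop_succ] at h
    have h1 : v * s ≤ (b + 1) * s := Nat.mul_le_mul_right _ hvb
    have h2 : Nat.blt ((b + 1) * s) q = false := by
      rw [Bool.eq_false_iff]
      intro h3
      have h4 : (b + 1) * s < q := Nat.le_of_ble_eq_true h3
      omega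
    rw [h2] at h
    cases h5 : g (b + 1) with
    | false =>
      rw [h5] at h
      exact absurd h (by simp)
    | true =>
      rw [h5] at h
      rcases Nat.lt_or_ge b v with h6 | h6
      · have : v = b + 1 := by omega
        rw [this, h5]
      · exact ih h h6

/-- The minimum. -/
noncomputable def mn (a b : ℕ) : ℕ := Bool.rec b a (Nat.ble a b)

theorem le_mn {v a b : ℕ} (ha : v ≤ a) (hb : v ≤ b) : v ≤ mn a b := by
  unfold mn
  cases Nat.ble a b
  · exact hb
  · exact ha

/-- The bound for the next entry from the sum of the first three entries. -/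
noncomputable def rm (d s : ℕ) (acc : List ℕ) : ℕ :=
  List.rec (motive := fun _ => ℕ) d (fun a l _ => List.rec (motive := fun _ => ℕ) (Nat.sub d a)
    (fun b l' _ => List.rec (motive := fun _ => ℕ) (Nat.sub d (Nat.add a b))
      (fun _ _ _ => s) l') l) acc

theorem le_rm {d s v : ℕ} {acc r : List ℕ} (h : ((acc ++ v :: r).take 3).sum ≤ d) (hs : v ≤ s) :
    v ≤ rm d s acc := by
  match acc with
  | [] =>
    show v ≤ d
    have h1 : v ≤ (([] ++ v :: r).take 3).sum := by
      rw [List.nil_append, List.take_succ_cons, List.sum_cons]
      omega
    omega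
  | [a] =>
    show v ≤ d - a
    have h1 : a + v ≤ (([a] ++ v :: r).take 3).sum := by
      rw [List.cons_append, List.nil_append, List.take_succ_cons, List.take_succ_cons,
        List.sum_cons, List.sum_cons]
      omega
    omega
  | [a, b] =>
    show v ≤ d - (a + b)
    have h1 : a + (b + v) ≤ (([a, b] ++ v :: r).take 3).sum := by
      rw [List.cons_append, List.cons_append, List.nil_append, List.take_succ_cons,
        List.take_succ_cons, List.take_succ_cons, List.sum_cons, List.sum_cons, List.sum_cons]
      omega
    omega
  | _ :: _ :: _ :: _ => exact hs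

/-- The list with one more entry. -/
noncomputable def snoc (l : List ℕ) (v : ℕ) : List ℕ :=
  List.rec (motive := fun _ => List ℕ) [v] (fun a _ ih => a :: ih) l

theorem snoc_eq (l : List ℕ) (v : ℕ) : snoc l v = l ++ [v] := by
  induction l with
  | nil => rfl
  | cons a l ih =>
    have h : snoc (a :: l) v = a :: snoc l v := rfl
    rw [h, ih]
    rfl

/-- The search. -/
noncomputable def go (tab : List (ℕ × List ℕ)) (d : ℕ) (fuel : ℕ) : List ℕ → ℕ → ℕ → ℕ → Bool :=
  Nat.rec (motive := fun _ => List ℕ → ℕ → ℕ → ℕ → Bool) (fun _ _ _ _ => false)
    (fun _ ih acc cap s q =>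
      Bool.rec (Bool.rec (Bool.rec (Bool.rec false
        (loop (fun v => force (Nat.sub s v) fun s' => force (Nat.sub q (Nat.mul v v)) fun q' =>
          ih (snoc acc v) v s' q') s q (mn (mn cap s) (rm d s acc)))
        (Nat.blt 0 s)) true (hit tab d acc)) true (fam d 9 acc)) true
        (Nat.blt (Nat.mul cap s) q)) fuel

theorem go_succ (tab : List (ℕ × List ℕ)) (d fuel : ℕ) (acc : List ℕ) (cap s q : ℕ) :
    go tab d (fuel + 1) acc cap s q =
      Bool.rec (Bool.rec (Bool.rec (Bool.rec false
        (loop (fun v => force (Nat.sub s v) fun s' => force (Nat.sub q (Nat.mul v v)) fun q' =>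
          go tab d fuel (snoc acc v) v s' q') s q (mn (mn cap s) (rm d s acc)))
        (Nat.blt 0 s)) true (hit tab d acc)) true (fam d 9 acc)) true
        (Nat.blt (cap * s) q) := rfl

theorem sq_le {l : List ℕ} {cap : ℕ} (h : ∀ v ∈ l, v ≤ cap) :
    (l.map fun v => v * v).sum ≤ cap * l.sum := by
  induction l with
  | nil => simp
  | cons a l ih =>
    rw [List.map_cons, List.sum_cons, List.sum_cons, mul_add]
    exact add_le_add (Nat.mul_le_mul_right _ (h a (by simp)))
      (ih fun v hv => h v (List.mem_cons_of_mem _ hv))

theorem go_sound {tab : List (ℕ × List ℕ)} {C : ℕ → List ℕ → Prop}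
    (hC : ∀ d L l, domb L l = true → C d L → C d l) (htab : ∀ e ∈ tab, C e.1 e.2) (d fuel : ℕ) :
    ∀ (acc : List ℕ) (cap s q : ℕ), go tab d fuel acc cap s q = true →
      ∀ rest : List ℕ, rest.sum = s → (∀ v ∈ rest, 1 ≤ v ∧ v ≤ cap) →
        rest.Pairwise (fun a b => b ≤ a) → q ≤ (rest.map fun v => v * v).sum →
        ((acc ++ rest).take 3).sum ≤ d → C d (acc ++ rest) ∨ fam d 9 (acc ++ rest) = true := by
  induction fuel with
  | zero =>
    intro acc cap s q h
    exact absurd h (by simp [go])
  | succ fuel ih =>
    intro acc cap s q h rest hs hv hp hq ht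
    rw [go_succ] at h
    have h1 : Nat.blt (cap * s) q = false := by
      rw [Bool.eq_false_iff]
      intro h3
      have h4 : cap * s < q := Nat.le_of_ble_eq_true h3
      have h5 := sq_le (cap := cap) fun v hv' => (hv v hv').2
      rw [hs] at h5
      omega
    rw [h1] at h
    cases h2 : fam d 9 acc with
    | true => exact Or.inr (fam_append rest h2)
    | false =>
      rw [h2] at h
      cases h3 : hit tab d acc with
      | true =>
        obtain ⟨e, he, he1, he2⟩ := hit_sound h3
        refine Or.inl (hC d e.2 _ (domb_append rest he2) ?_)
        rw [← he1]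
        exact htab e he
      | false =>
        rw [h3] at h
        cases rest with
        | nil =>
          rw [List.sum_nil] at hs
          subst hs
          exact absurd h (by simp [Nat.blt])
        | cons v rest =>
          obtain ⟨hv1, hv2⟩ := hv v (by simp)
          rw [List.sum_cons] at hs
          have h4 : Nat.blt 0 s = true := Nat.ble_eq_true_of_le (by omega)
          rw [h4] at h
          have hp' := List.pairwise_cons.1 hp
          have h5 : q ≤ v * s := by
            have h6 := sq_le (l := v :: rest) (cap := v) (fun u hu => by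
              rcases List.mem_cons.1 hu with rfl | hu
              · exact le_rfl
              · exact hp'.1 u hu)
            rw [List.sum_cons, hs] at h6
            exact hq.trans h6
          have h7 := loop_sound _ h hv1 (le_mn (le_mn hv2 (by omega)) (le_rm ht (by omega))) h5
          beta_reduce at h7
          rw [force_eq, force_eq, snoc_eq] at h7
          have h8 := ih (acc ++ [v]) v (s - v) (q - v * v) h7 rest (by omega) (fun u hu =>
            ⟨(hv u (List.mem_cons_of_mem _ hu)).1, hp'.1 u hu⟩) hp'.2 (by
              rw [List.map_cons, List.sum_cons] at hq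
              omega) (by
              rw [List.append_assoc]
              exact ht)
          rw [List.append_assoc] at h8
          exact h8

/-- All the degrees smaller than `D`. -/
noncomputable def search (tab : List (ℕ × List ℕ)) (c D : ℕ) : Bool :=
  Nat.rec (motive := fun _ => Bool) true (fun d ih =>
    Bool.rec false ih (go tab d 200 [] d (Nat.add (Nat.mul 3 d) c)
      (Nat.sub (Nat.add (Nat.mul d d) 2) c))) D

theorem search_sound {tab : List (ℕ × List ℕ)} {c D : ℕ} (h : search tab c D = true) {d : ℕ}
    (hd : d < D) : go tab d 200 [] d (3 * d + c) (d * d + 2 - c) = true := by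
  induction D with
  | zero => omega
  | succ D ih =>
    have e : search tab c (D + 1) = Bool.rec false (search tab c D)
      (go tab D 200 [] D (3 * D + c) (D * D + 2 - c)) := rfl
    rw [e] at h
    cases h1 : go tab D 200 [] D (3 * D + c) (D * D + 2 - c) with
    | false =>
      rw [h1] at h
      exact absurd h (by simp)
    | true =>
      rw [h1] at h
      rcases Nat.lt_or_ge d D with h2 | h2
      · exact ih h h2
      · have : d = D := by omega
        rw [this]
        exact h1

end Pool.Agent.T6.H9.SG
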