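import Pool.Agent.T6.H9.SG.Rank
import Pool.Agent.T6.H9.SG.Enum
import Pool.Agent.TH167.SH.Defs
import Pool.Agent.H932R3.Empty

set_option autoImplicit false

/-!
# Emptiness from the certificates
-/

namespace Pool.Agent.T6.H9.SG

open Polynomial Pool.Agent.H932R2 Pool.Agent.H932R3 Pool.Agent.H932R7 Pool.Agent.TH167.SHDefs

/-- Embedding of the points and larger multiplicities. -/
theorem rkS_embed {ι ι' : Type} [Nonempty ι] {w : ι → ℕ} {w' : ι' → ℕ} {T : Set (ℕ × ℕ)} {N : ℕ}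
    (f : ι → ι') (hf : Function.Injective f) (hw : ∀ a, w a ≤ w' (f a))
    (h : RkS (PF ℚ w) T N) : RkS (PF ℚ w') T N := by
  obtain ⟨_, ⟨c, γ, rfl⟩, hR⟩ := h
  obtain ⟨g, hgf⟩ := hf.hasLeftInverse
  refine ⟨_, ⟨fun a => c (g a), fun a => γ (g a), rfl⟩, hR.anti ?_⟩
  unfold vIdeal
  refine le_iInf fun a => iInf_le_of_le (f a) ?_
  beta_reduce
  rw [hgf a]
  unfold cIdeal
  exact Ideal.pow_le_pow_right (hw a)

/-- Full rank implies emptiness at general points. -/
theorem empty_of_rk {n d : ℕ} {W : Fin n → ℕ} (h : RkS (PF ℚ W) (Tset d) (Tfin d).card) :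
    ∃ F : MvPolynomial (Fin n × Fin 2) ℂ, F ≠ 0 ∧ ∀ P : Fin n → Fin 2 → ℂ,
      MvPolynomial.eval (fun ij : Fin n × Fin 2 => P ij.1 ij.2) F ≠ 0 → dimL P d W = -1 := by
  obtain ⟨F, hF, hF'⟩ := T_HOP ℂ n W _ _ h
  refine ⟨MvPolynomial.map (algebraMap ℚ ℂ) F, ?_, fun P hP => ?_⟩
  · intro h0
    exact hF (MvPolynomial.map_injective _ (algebraMap ℚ ℂ).injective (by rw [h0, map_zero]))
  · rw [MvPolynomial.eval_map] at hP
    have h1 := hF' (fun ij => P ij.1 ij.2) (by rwa [MvPolynomial.aeval_def])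
    have h2 := NoForm.of_rk h1
    have h3 : sys P d W = ⊥ := by
      rw [Submodule.eq_bot_iff]
      intro G hG
      refine h2 G hG.1 ?_
      unfold vIdeal
      rw [Ideal.mem_iInf]
      intro i
      have h4 : G ∈ (⨅ i, pt (P i) ^ (W i) : Ideal (MvPolynomial (Fin 3) ℂ)) := hG.2
      rw [Ideal.mem_iInf] at h4
      exact (mem_ptIdeal_iff hG.1).1 (h4 i)
    unfold dimL
    rw [h3, finrank_bot]
    rfl

/-- All the classes which dominate the list have no sections of degree `d` at general points. -/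
def Cov (d : ℕ) (l : List ℕ) : Prop := ∀ (n : ℕ) (W : Fin n → ℕ) (f : Fin l.length → Fin n),
  Function.Injective f → (∀ i : Fin l.length, l.getD i 0 ≤ W (f i)) →
    RkS (PF ℚ W) (Tset d) (Tfin d).card

theorem Cov.mono (d : ℕ) (L l : List ℕ) (h : domb L l = true) (hL : Cov d L) : Cov d l := by
  obtain ⟨h1, h2⟩ := (domb_iff L l).1 h
  intro n W f hf hW
  refine hL n W (fun i => f (Fin.castLE h1 i)) (hf.comp (Fin.castLE_injective h1)) fun i => ?_
  exact (h2 i i.2).trans (hW (Fin.castLE h1 i))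

/-- The position of the points in the list. -/
def pos {q : ℕ} : Option (Option (Option (Fin q))) → ℕ
  | none => 1
  | some none => 0
  | some (some none) => 2
  | some (some (some i)) => i.1 + 3

theorem pos_inj {q : ℕ} : Function.Injective (pos (q := q)) := by
  rintro (_ | _ | _ | i) (_ | _ | _ | j) h <;> simp only [pos] at h <;>
    first
    | rfl
    | omega
    | (have h1 : i = j := Fin.ext (by omega)
       rw [h1])

theorem pos_lt {q : ℕ} (a : Option (Option (Option (Fin q)))) : pos a < q + 3 := by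
  rcases a with _ | _ | _ | i <;> simp only [pos] <;> omega

/-- All the checks of a certificate. -/
noncomputable def full (d u1 u2 u3 : ℕ) (gs : List (ℕ × List (ℕ × ℕ))) (Lm : List (ℕ × ℕ))
    (n e : ℕ) : Bool :=
  Bool.rec false (Bool.rec false (Bool.rec false (Bool.rec false (cert gs Lm n e)
    (Lm.all fun p => Nat.ble (Nat.add p.1 u1) d && (Nat.ble (Nat.add p.2 u2) d &&
      (Nat.ble u3 (Nat.add p.1 p.2) && Nat.ble (Nat.add p.1 p.2) d))))
    (Nat.beq (2 * n + u3 * (u3 + 1) + u1 * (u1 + 1) + u2 * (u2 + 1)) ((d + 1) * (d + 2))))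
    (Nat.beq Lm.length n))
    (Nat.ble n 1500 && (Nat.ble (u1 + u2) (d + 1) && (Nat.ble (u1 + u3) (d + 1) &&
      Nat.ble (u2 + u3) (d + 1))))

theorem bool_and {a b : Bool} (h : Bool.rec (motive := fun _ => Bool) false a b = true) :
    b = true ∧ a = true := by
  cases b with
  | false => exact absurd h (by simp)
  | true => exact ⟨rfl, h⟩

theorem full_sound {d u1 u2 u3 : ℕ} {gs : List (ℕ × List (ℕ × ℕ))} {Lm : List (ℕ × ℕ)} {n e : ℕ}
    (h : full d u1 u2 u3 gs Lm n e = true) : Cov d (u1 :: u2 :: u3 :: (pts gs).map Prod.fst) := by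
  unfold full at h
  obtain ⟨h1, h⟩ := bool_and h
  obtain ⟨h2, h⟩ := bool_and h
  obtain ⟨h3, h⟩ := bool_and h
  obtain ⟨h4, h⟩ := bool_and h
  simp only [Bool.and_eq_true] at h1
  obtain ⟨h1, h12, h13, h23⟩ := h1
  have h1 := Nat.le_of_ble_eq_true h1
  have h12 := Nat.le_of_ble_eq_true h12
  have h13 := Nat.le_of_ble_eq_true h13
  have h23 := Nat.le_of_ble_eq_true h23
  have h2 := Nat.eq_of_beq_eq_true h2
  have h3 := Nat.eq_of_beq_eq_true h3
  rw [List.all_eq_true] at h4
  have h5 := rkS_of_cert h (by rw [h2]; exact h1) (M := {p | p.1 + u1 ≤ d ∧ p.2 + u2 ≤ d ∧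
    u3 ≤ p.1 + p.2 ∧ p.1 + p.2 ≤ d}) (fun p hp => by
      have h6 := h4 p hp
      simp only [Bool.and_eq_true] at h6
      exact ⟨Nat.le_of_ble_eq_true h6.1, Nat.le_of_ble_eq_true h6.2.1,
        Nat.le_of_ble_eq_true h6.2.2.1, Nat.le_of_ble_eq_true h6.2.2.2⟩)
  have h6 := Pool.Agent.W609.T.bridge_hex h12 h13 h23 h5
  have h7 : Lm.length + (u3 + 1).choose 2 + (u1 + 1).choose 2 + (u2 + 1).choose 2 =
      (Tfin d).card := by
    have e1 := card_Tfin d
    have e2 : ∀ u : ℕ, 2 * (u + 1).choose 2 = u * (u + 1) := fun u => by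
      rw [Nat.choose_two_right, Nat.add_sub_cancel, Nat.mul_div_cancel', mul_comm]
      exact (Nat.even_mul_pred_self (u + 1)).two_dvd
    have e3 := e2 u1
    have e4 := e2 u2
    have e5 := e2 u3
    rw [h2]
    omega
  rw [h7] at h6
  intro m W f hf hW
  have hl : (u1 :: u2 :: u3 :: (pts gs).map Prod.fst).length = (pts gs).length + 3 := by
    simp
  refine rkS_embed (fun a => f ⟨pos a, by rw [hl]; exact pos_lt a⟩) ?_ ?_ h6
  · intro a b hab
    have h8 := hf hab
    rw [Fin.mk.injEq] at h8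
    exact pos_inj h8
  · intro a
    refine le_trans (le_of_eq ?_) (hW ⟨pos a, by rw [hl]; exact pos_lt a⟩)
    rcases a with _ | _ | _ | i
    · rfl
    · rfl
    · rfl
    · show ((pts gs).get i).1 = ((pts gs).map Prod.fst).getD i.1 0
      rw [List.getD_eq_getElem _ _ (by rw [List.length_map]; exact i.2), List.getElem_map]
      rfl

/-- The certificate for a given list. -/
theorem cov_of {d : ℕ} {l : List ℕ} (u1 u2 u3 : ℕ) (gs : List (ℕ × List (ℕ × ℕ)))
    (Lm : List (ℕ × ℕ)) (n e : ℕ) (h : full d u1 u2 u3 gs Lm n e = true)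
    (hl : (u1 :: u2 :: u3 :: (pts gs).map Prod.fst) = l) : Cov d l := by
  rw [← hl]
  exact full_sound h

end Pool.Agent.T6.H9.SG
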