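import Pool.Agent.T6.H9.SG.Row
import Pool.Agent.W609.T.Bridge
import Pool.Agent.H932R7.THOP

set_option autoImplicit false

/-!
# From the certificate to the rank of the conditions
-/

namespace Pool.Agent.T6.H9.SG

open Polynomial Pool.Agent.H932R2 Pool.Agent.H932R3 Pool.Agent.H932R7

/-- Rational relations vanish if those modulo `1009` do. -/
theorem reduce_rel {N : ℕ} (R : (ℕ → ℕ) → Prop)
    (hR : ∀ c : ℕ → ZMod 1009,
      (∀ A, R A → ∑ i ∈ Finset.range N, c i * (A i : ZMod 1009) = 0) → ∀ i < N, c i = 0)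
    (x : Fin N → ℚ) (hx : ∀ A, R A → ∑ i : Fin N, x i * (A i : ℚ) = 0) : ∀ i, x i = 0 := by
  classical
  rcases Nat.eq_zero_or_pos N with h0 | hN
  · subst h0
    exact fun i => i.elim0
  -- a common denominator
  obtain ⟨D, hD0, y, hy⟩ : ∃ D : ℤ, D ≠ 0 ∧ ∃ y : Fin N → ℤ, ∀ i, (D : ℚ) * x i = y i := by
    refine ⟨∏ i, ((x i).den : ℤ), ?_, fun i => (x i).num * ∏ j ∈ Finset.univ.erase i,
      ((x j).den : ℤ), fun i => ?_⟩
    · refine Finset.prod_ne_zero_iff.2 fun i _ => ?_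
      exact_mod_cast (x i).den_ne_zero
    · rw [← Finset.mul_prod_erase Finset.univ (fun j => ((x j).den : ℤ)) (Finset.mem_univ i)]
      push_cast
      have h1 : ((x i).den : ℚ) * x i = (x i).num := by
        rw [mul_comm]
        exact Rat.mul_den_eq_num (x i)
      calc ((x i).den : ℚ) * (∏ j ∈ Finset.univ.erase i, ((x j).den : ℚ)) * x i
          = (((x i).den : ℚ) * x i) * ∏ j ∈ Finset.univ.erase i, ((x j).den : ℚ) := by ring
        _ = _ := by rw [h1]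
  have hD0' : (D : ℚ) ≠ 0 := by exact_mod_cast hD0
  have hyR : ∀ A, R A → ∑ i : Fin N, y i * (A i : ℤ) = 0 := by
    intro A hA
    have h1 := hx A hA
    have h2 : ((∑ i : Fin N, y i * (A i : ℤ) : ℤ) : ℚ) = D * ∑ i : Fin N, x i * (A i : ℚ) := by
      push_cast
      rw [Finset.mul_sum]
      refine Finset.sum_congr rfl fun i _ => ?_
      rw [← hy i]
      ring
    rw [h1, mul_zero] at h2
    exact_mod_cast h2
  -- the case of zero
  by_cases hy0 : ∀ i, y i = 0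
  · intro i
    have h1 := hy i
    rw [hy0 i, Int.cast_zero] at h1
    exact (mul_eq_zero.1 h1).resolve_left hD0'
  exfalso
  obtain ⟨g, hg, hg1⟩ := Finset.extract_gcd y (s := Finset.univ)
    ⟨⟨0, hN⟩, Finset.mem_univ _⟩
  obtain ⟨G, hG⟩ : ∃ G, G = Finset.univ.gcd y := ⟨_, rfl⟩
  rw [← hG] at hg
  have hG0 : G ≠ 0 := by
    intro h
    refine hy0 fun i => ?_
    rw [hg i (Finset.mem_univ i), h, zero_mul]
  have hgR : ∀ A, R A → ∑ i : Fin N, g i * (A i : ℤ) = 0 := by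
    intro A hA
    have h1 := hyR A hA
    have h2 : ∑ i : Fin N, y i * (A i : ℤ) = G * ∑ i : Fin N, g i * (A i : ℤ) := by
      rw [Finset.mul_sum]
      refine Finset.sum_congr rfl fun i _ => ?_
      rw [hg i (Finset.mem_univ i)]
      ring
    rw [h1] at h2
    exact (mul_eq_zero.1 h2.symm).resolve_left hG0
  have h3 := hR (fun i => if h : i < N then ((g ⟨i, h⟩ : ℤ) : ZMod 1009) else 0) (fun A hA => by
    have h4 := hgR A hA
    rw [Finset.sum_range]
    have h5 : ((∑ i : Fin N, g i * (A i : ℤ) : ℤ) : ZMod 1009) = 0 := by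
      rw [h4, Int.cast_zero]
    push_cast at h5
    rw [← h5]
    refine Finset.sum_congr rfl fun i _ => ?_
    rw [dif_pos i.2])
  have h6 : (1009 : ℤ) ∣ Finset.univ.gcd g := by
    refine Finset.dvd_gcd fun i _ => ?_
    have h7 := h3 i i.2
    rw [dif_pos i.2] at h7
    exact (ZMod.intCast_zmod_eq_zero_iff_dvd _ 1009).1 (by exact_mod_cast h7)
  rw [hg1] at h6
  norm_num at h6

theorem coeff_sh_mon {K : Type} [Field K] (x y : K) (a b i l : ℕ) :
    ((sh x (C y) (mon K (a, b))).coeff l).coeff i =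
      (x ^ (a - i) * (a.choose i : K)) * (y ^ (b - l) * (b.choose l : K)) := by
  have h1 : sh x (C y) (mon K (a, b)) = C ((X + C x) ^ a) * (X + C (C y)) ^ b := by
    unfold mon
    rw [map_mul (sh x (C y)), sh_C, map_pow (sh x (C y)), sh_X, X_pow_comp, C_comp]
  rw [h1, coeff_C_mul, coeff_X_add_C_pow]
  have h2 : ((C y : K[X]) ^ (b - l) * ((b.choose l : ℕ) : K[X])) =
      C (y ^ (b - l) * (b.choose l : K)) := by
    rw [C_mul, C_pow, Polynomial.C_eq_natCast]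
  rw [h2, coeff_mul_C, coeff_X_add_C_pow]

theorem sh_smul {K : Type} [Field K] (c : K) (γ : K[X]) (a : K) (f : K[X][X]) :
    sh c γ (a • f) = a • sh c γ f := by
  have h1 : a • f = C (C a) * f := by
    rw [Algebra.smul_def]
    rfl
  have h2 : a • sh c γ f = C (C a) * sh c γ f := by
    rw [Algebra.smul_def]
    rfl
  rw [h1, h2, map_mul, sh_C, C_comp]

theorem scale (x : ℚ) (a i : ℕ) :
    (x ^ (a - i) * (a.choose i : ℚ)) * ((i.factorial : ℚ) * x ^ i) =
      x ^ a * (a.descFactorial i : ℚ) := by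
  rw [Nat.descFactorial_eq_factorial_mul_choose]
  by_cases h : i ≤ a
  · have h1 : x ^ a = x ^ (a - i) * x ^ i := by
      rw [← pow_add, Nat.sub_add_cancel h]
    rw [h1]
    push_cast
    ring
  · rw [Nat.choose_eq_zero_of_lt (not_le.1 h)]
    push_cast
    ring

/-- The points with the multiplicities. -/
def pts (gs : List (ℕ × List (ℕ × ℕ))) : List (ℕ × (ℕ × ℕ)) :=
  gs.flatMap fun g => g.2.map fun ab => (g.1, ab)

theorem mem_pts {gs : List (ℕ × List (ℕ × ℕ))} {g : ℕ × List (ℕ × ℕ)} (hg : g ∈ gs)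
    {ab : ℕ × ℕ} (hab : ab ∈ g.2) : (g.1, ab) ∈ pts gs :=
  List.mem_flatMap.2 ⟨g, hg, List.mem_map.2 ⟨ab, hab, rfl⟩⟩

/-- The conditions of the certificate are of full rank. -/
theorem rkS_of_cert {gs : List (ℕ × List (ℕ × ℕ))} {Lm : List (ℕ × ℕ)} {n e : ℕ}
    (h : cert gs Lm n e = true) (hlen : Lm.length ≤ 1500) {M : Set (ℕ × ℕ)}
    (hM : ∀ p ∈ Lm, p ∈ M) :
    RkS (PF ℚ fun a : Fin (pts gs).length => ((pts gs).get a).1) M Lm.length := by
  refine ⟨_, ⟨fun a => (((pts gs).get a).2.1 : ℚ), fun a => C (((pts gs).get a).2.2 : ℚ), rfl⟩,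
    fun i => mon ℚ (Lm.get i), fun i => Submodule.subset_span ⟨_, hM _ (List.get_mem Lm i), rfl⟩,
    fun x hx => ?_⟩
  obtain ⟨R, hRdef⟩ : ∃ R : (ℕ → ℕ) → Prop, R = fun A => ∃ g ∈ gs, ∃ ab ∈ g.2, ∃ k l : ℕ,
    k + l < g.1 ∧ ∀ i, A i = (ab.1 ^ (Lm.getD i (0, 0)).1 * ab.2 ^ (Lm.getD i (0, 0)).2) *
        ((Lm.getD i (0, 0)).1.descFactorial k * (Lm.getD i (0, 0)).2.descFactorial l) := ⟨_, rfl⟩
  refine reduce_rel R (fun c hc => cert_sound h hlen c fun g hg ab hab k l hkl => ?_) x ?_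
  · have h1 := hc (fun i => (ab.1 ^ (Lm.getD i (0, 0)).1 * ab.2 ^ (Lm.getD i (0, 0)).2) *
        ((Lm.getD i (0, 0)).1.descFactorial k * (Lm.getD i (0, 0)).2.descFactorial l)) (by
      rw [hRdef]
      exact ⟨g, hg, ab, hab, k, l, hkl, fun i => rfl⟩)
    rw [← h1]
    refine Finset.sum_congr rfl fun i _ => ?_
    push_cast
    ring
  · intro A hA
    rw [hRdef] at hA
    obtain ⟨g, hg, ab, hab, k, l, hkl, hA⟩ := hA
    obtain ⟨a, ha⟩ := List.mem_iff_get.1 (mem_pts hg hab)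
    unfold vIdeal at hx
    rw [Ideal.mem_iInf] at hx
    have h1 := hx a
    beta_reduce at h1
    rw [ha, mem_cIdeal_iff] at h1
    have h2 := h1 l (by omega) k (by omega)
    rw [map_sum, finset_sum_coeff, finset_sum_coeff] at h2
    have h3 : ∀ i : Fin Lm.length, ((sh ((ab.1 : ℕ) : ℚ) (C ((ab.2 : ℕ) : ℚ))
        (x i • mon ℚ (Lm.get i))).coeff l).coeff k =
        x i * ((((ab.1 : ℕ) : ℚ) ^ ((Lm.get i).1 - k) * ((Lm.get i).1.choose k : ℚ)) *
          (((ab.2 : ℕ) : ℚ) ^ ((Lm.get i).2 - l) * ((Lm.get i).2.choose l : ℚ))) := by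
      intro i
      rw [sh_smul, coeff_smul, coeff_smul, smul_eq_mul, coeff_sh_mon]
    have h4 : ∑ i : Fin Lm.length, x i * (A i : ℚ) =
        (∑ i : Fin Lm.length, x i * ((((ab.1 : ℕ) : ℚ) ^ ((Lm.get i).1 - k) *
          ((Lm.get i).1.choose k : ℚ)) * (((ab.2 : ℕ) : ℚ) ^ ((Lm.get i).2 - l) *
            ((Lm.get i).2.choose l : ℚ)))) *
          (((k.factorial : ℚ) * ((ab.1 : ℕ) : ℚ) ^ k) *
            ((l.factorial : ℚ) * ((ab.2 : ℕ) : ℚ) ^ l)) := by
      rw [Finset.sum_mul]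
      refine Finset.sum_congr rfl fun i _ => ?_
      have h5 : Lm.getD i (0, 0) = Lm.get i := by
        rw [List.getD_eq_getElem _ _ i.2]
        rfl
      have e1 := scale ((ab.1 : ℕ) : ℚ) (Lm.get i).1 k
      have e2 := scale ((ab.2 : ℕ) : ℚ) (Lm.get i).2 l
      rw [hA, h5]
      push_cast
      calc x i * ((((ab.1 : ℕ) : ℚ) ^ (Lm.get i).1 * ((ab.2 : ℕ) : ℚ) ^ (Lm.get i).2) *
            (((Lm.get i).1.descFactorial k : ℚ) * ((Lm.get i).2.descFactorial l : ℚ)))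
          = x i * ((((ab.1 : ℕ) : ℚ) ^ (Lm.get i).1 * ((Lm.get i).1.descFactorial k : ℚ)) *
            (((ab.2 : ℕ) : ℚ) ^ (Lm.get i).2 * ((Lm.get i).2.descFactorial l : ℚ))) := by ring
        _ = _ := by
          rw [← e1, ← e2]
          ring
    rw [h4]
    have h6 : (∑ i : Fin Lm.length, x i * ((((ab.1 : ℕ) : ℚ) ^ ((Lm.get i).1 - k) *
          ((Lm.get i).1.choose k : ℚ)) * (((ab.2 : ℕ) : ℚ) ^ ((Lm.get i).2 - l) *
            ((Lm.get i).2.choose l : ℚ)))) = 0 := by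
      rw [← h2]
      exact Finset.sum_congr rfl fun i _ => (h3 i).symm
    rw [h6, zero_mul]

end Pool.Agent.T6.H9.SG
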