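import Pool.Agent.T6.H9.SG.Elim

set_option autoImplicit false

/-!
# The rows of the matrix of conditions

The row of the monomial `x ^ i y ^ j`: for every point `(a, b)` of multiplicity `m` and all `k`, `l`
with `k + l < m` the number `a ^ i b ^ j i (i - 1) ⋯ (i - k + 1) j (j - 1) ⋯ (j - l + 1)`.
-/

namespace Pool.Agent.T6.H9.SG

/-- The powers of the base. -/
noncomputable def bp (T : ℕ) : ℕ := Nat.pow 4294967296 T

theorem bp_zero : bp 0 = 1 := rfl

theorem bp_succ (T : ℕ) : bp (T + 1) = 4294967296 * bp T := by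
  have h : bp (T + 1) = bp T * 4294967296 := rfl
  rw [h, mul_comm]

theorem bp_pos (T : ℕ) : 0 < bp T := by
  induction T with
  | zero => rw [bp_zero]; exact one_pos
  | succ T ih => rw [bp_succ]; omega

theorem bp_add (S T : ℕ) : bp (S + T) = bp S * bp T := by
  induction S with
  | zero => rw [Nat.zero_add, bp_zero, one_mul]
  | succ S ih => rw [Nat.succ_add, bp_succ, bp_succ, ih, mul_assoc]

theorem dg_of_zero (t : ℕ) : dg 0 t = 0 := by simp [dg]

theorem dg_concat (T : ℕ) : ∀ (F G t : ℕ), F < bp T →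
    dg (F + bp T * G) t = if t < T then dg F t else dg G (t - T) := by
  induction T with
  | zero =>
    intro F G t hF
    rw [bp_zero] at hF ⊢
    have : F = 0 := by omega
    rw [this, zero_add, one_mul, if_neg (by omega), Nat.sub_zero]
  | succ T ih =>
    intro F G t hF
    rw [bp_succ] at hF
    obtain ⟨Q, hQ⟩ : ∃ Q, Q = bp T * G := ⟨_, rfl⟩
    have e : F + bp (T + 1) * G = F + 4294967296 * Q := by rw [bp_succ, mul_assoc, hQ]
    cases t with
    | zero =>
      rw [if_pos (by omega), dg_zero, dg_zero, e]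
      omega
    | succ t =>
      have e2 : (F + 4294967296 * Q) / 4294967296 = F / 4294967296 + bp T * G := by
        rw [hQ]
        omega
      rw [dg_succ, dg_succ, e, e2, ih _ _ _ (by omega)]
      have h1 : t + 1 - (T + 1) = t - T := by omega
      by_cases ht : t < T
      · rw [if_pos ht, if_pos (by omega)]
      · rw [if_neg ht, if_neg (by omega), h1]

theorem dg_mod (T x t : ℕ) : dg (x % bp T) t = if t < T then dg x t else 0 := by
  have h := dg_concat T (x % bp T) (x / bp T) t (Nat.mod_lt _ (bp_pos T))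
  rw [Nat.mod_add_div] at h
  by_cases ht : t < T
  · rw [if_pos ht] at h
    rw [if_pos ht, h]
  · rw [if_neg ht]
    have h2 := dg_concat T (x % bp T) 0 t (Nat.mod_lt _ (bp_pos T))
    rw [mul_zero, add_zero, if_neg ht, dg_of_zero] at h2
    exact h2

theorem lt_of_bd {M α : ℕ} (hM : α * M < 4294967296) (T : ℕ) : ∀ x, x < bp T → Bd M x →
    α * x < bp T := by
  induction T with
  | zero =>
    intro x hx _
    rw [bp_zero] at hx ⊢
    have : x = 0 := by omega
    rw [this, mul_zero]
    exact one_pos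
  | succ T ih =>
    intro x hx hb
    rw [bp_succ] at hx ⊢
    have h0 := hb 0
    rw [dg_zero] at h0
    have h1 := ih (x / 4294967296) (by omega) hb.div
    have h2 : α * (x % 4294967296) ≤ α * M := Nat.mul_le_mul_left _ h0
    have h3 : α * x = α * (x % 4294967296) + 4294967296 * (α * (x / 4294967296)) := by
      conv_lhs => rw [← Nat.mod_add_div x 4294967296]
      ring
    rw [h3]
    obtain ⟨y, hy⟩ : ∃ y, y = α * (x / 4294967296) := ⟨_, rfl⟩
    obtain ⟨z, hz⟩ : ∃ z, z = α * (x % 4294967296) := ⟨_, rfl⟩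
    rw [← hy] at h1 ⊢
    rw [← hz] at h2 ⊢
    omega

theorem bd_smul {M α x : ℕ} (hM : α * M < 4294967296) (hx : Bd M x) (t : ℕ) :
    dg (α * x) t = α * dg x t := by
  have h0 : Bd 0 0 := fun t => by rw [dg_of_zero]
  have h := dg_add_mul (M := 0) (M' := M) (c := α) (by omega) t h0 hx
  rw [zero_add, dg_of_zero, zero_add] at h
  exact h

theorem bd_concat {M T F G : ℕ} (hF : F < bp T) (h1 : Bd M F) (h2 : Bd M G) :
    Bd M (F + bp T * G) := fun t => by
  rw [dg_concat T F G t hF]
  split_ifs
  · exact h1 t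
  · exact h2 _

theorem desc_left (u t : ℕ) : u.descFactorial (t + 1) = u * (u - 1).descFactorial t := by
  cases u with
  | zero => simp
  | succ u => rw [Nat.succ_descFactorial_succ, Nat.add_sub_cancel]

/-! ### The packed falling factorials -/

/-- Falling factorials: `y, y u, y u (u - 1), …`. -/
noncomputable def tb (n : ℕ) : ℕ → ℕ → ℕ :=
  Nat.rec (motive := fun _ => ℕ → ℕ → ℕ) (fun _ _ => 0)
    (fun _ ih y u => Nat.add y (Nat.mul 4294967296 (force (Nat.mod (Nat.mul y u) 1009) fun y' =>
      force (Nat.pred u) fun u' => ih y' u'))) n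

theorem tb_zero (y u : ℕ) : tb 0 y u = 0 := rfl

theorem tb_succ (n y u : ℕ) :
    tb (n + 1) y u = y + bp 1 * tb n (y * u % 1009) (u - 1) := by
  have h : tb (n + 1) y u = Nat.add y (Nat.mul 4294967296 (force (Nat.mod (Nat.mul y u) 1009)
    fun y' => force (Nat.pred u) fun u' => tb n y' u')) := rfl
  rw [h, force_eq, force_eq]
  rfl

theorem tb_dg (n : ℕ) : ∀ y u t, y < 1009 → dg (tb n y u) t < 1009 ∧
    ((dg (tb n y u) t : ℕ) : ZMod 1009) = if t < n then (y * u.descFactorial t : ℕ) else 0 := by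
  induction n with
  | zero =>
    intro y u t _
    rw [tb_zero, dg_of_zero, if_neg (by omega)]
    exact ⟨by norm_num, Nat.cast_zero⟩
  | succ n ih =>
    intro y u t hy
    have hy2 : y < bp 1 := by
      rw [bp_succ, bp_zero]
      omega
    rw [tb_succ, dg_concat 1 _ _ t hy2]
    cases t with
    | zero =>
      rw [if_pos (by omega), if_pos (by omega), dg_zero, Nat.mod_eq_of_lt (by omega)]
      exact ⟨hy, by simp⟩
    | succ t =>
      have h1 := ih (y * u % 1009) (u - 1) t (Nat.mod_lt _ (by norm_num))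
      rw [if_neg (by omega), Nat.add_sub_cancel]
      refine ⟨h1.1, ?_⟩
      rw [h1.2]
      by_cases ht : t < n
      · rw [if_pos ht, if_pos (by omega), desc_left, Nat.cast_mul, ZMod.natCast_mod, ← mul_assoc,
          ← Nat.cast_mul]
      · rw [if_neg ht, if_neg (by omega)]

/-- The triangular block of the products of the falling factorials. -/
noncomputable def blk (T : ℕ) (n : ℕ) : ℕ → ℕ → ℕ :=
  Nat.rec (motive := fun _ => ℕ → ℕ → ℕ) (fun _ _ => 0)
    (fun n ih x u => force (bp (Nat.succ n)) fun b =>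
      Nat.add (Nat.mul x (Nat.mod T b)) (Nat.mul b (force (Nat.mod (Nat.mul x u) 1009) fun x' =>
        force (Nat.pred u) fun u' => ih x' u'))) n

theorem blk_zero (T x u : ℕ) : blk T 0 x u = 0 := rfl

theorem blk_succ (T n x u : ℕ) : blk T (n + 1) x u =
    x * (T % bp (n + 1)) + bp (n + 1) * blk T n (x * u % 1009) (u - 1) := by
  have h : blk T (n + 1) x u = force (bp (Nat.succ n)) fun b =>
      Nat.add (Nat.mul x (Nat.mod T b)) (Nat.mul b (force (Nat.mod (Nat.mul x u) 1009) fun x' =>
        force (Nat.pred u) fun u' => blk T n x' u')) := rfl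
  rw [h, force_eq, force_eq, force_eq]
  rfl

/-- The number of the conditions at a point of multiplicity `m`. -/
noncomputable def tri (m : ℕ) : ℕ := Nat.rec 0 (fun m ih => Nat.add (Nat.succ m) ih) m

theorem tri_succ (m : ℕ) : tri (m + 1) = (m + 1) + tri m := rfl

theorem mul3 {a b c : ℕ} (ha : a ≤ 1008) (hb : b ≤ 1008) (hc : c ≤ 1008) :
    a * b * c ≤ 1024192512 :=
  (Nat.mul_le_mul (Nat.mul_le_mul ha hb) hc).trans (le_of_eq (by norm_num))

theorem blk_bd {T : ℕ} (hT : Bd 1008 T) {α : ℕ} (hα : α ≤ 1008) (n : ℕ) : ∀ x u, x ≤ 1008 →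
    α * blk T n x u < bp (tri n) ∧ Bd 1024192512 (α * blk T n x u) := by
  induction n with
  | zero =>
    intro x u _
    rw [blk_zero, mul_zero]
    refine ⟨bp_pos _, fun t => ?_⟩
    rw [dg_of_zero]
    exact Nat.zero_le _
  | succ n ih =>
    intro x u hx
    have h1 := ih (x * u % 1009) (u - 1) (Nat.le_of_lt_succ (Nat.mod_lt _ (by norm_num)))
    have e : α * blk T (n + 1) x u = α * x * (T % bp (n + 1)) +
        bp (n + 1) * (α * blk T n (x * u % 1009) (u - 1)) := by
      rw [blk_succ]
      ring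
    have hb : Bd 1008 (T % bp (n + 1)) := fun t => by
      rw [dg_mod]
      split_ifs
      · exact hT t
      · exact Nat.zero_le _
    have hM : α * x * 1008 < 4294967296 := lt_of_le_of_lt (mul3 hα hx le_rfl) (by norm_num)
    have h2 := lt_of_bd hM (n + 1) _ (Nat.mod_lt T (bp_pos (n + 1))) hb
    have h3 : Bd 1024192512 (α * x * (T % bp (n + 1))) := fun t => by
      rw [bd_smul hM hb]
      exact mul3 hα hx (hb t)
    rw [e]
    refine ⟨?_, bd_concat h2 h3 h1.2⟩
    rw [tri_succ, bp_add (n + 1) (tri n)]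
    calc α * x * (T % bp (n + 1)) + bp (n + 1) * (α * blk T n (x * u % 1009) (u - 1))
        < bp (n + 1) + bp (n + 1) * (α * blk T n (x * u % 1009) (u - 1)) :=
          Nat.add_lt_add_right h2 _
      _ = bp (n + 1) * (α * blk T n (x * u % 1009) (u - 1) + 1) := by ring
      _ ≤ bp (n + 1) * bp (tri n) := Nat.mul_le_mul_left _ h1.1

/-! ### Linear relations between the digits -/

/-- All the digits of `F 0, …, F (N - 1)` satisfy the linear relation with the coefficients `c`. -/
def Van (N : ℕ) (c : ℕ → ZMod 1009) (F : ℕ → ℕ) : Prop :=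
  ∀ t, ∑ i ∈ Finset.range N, c i * ((dg (F i) t : ℕ) : ZMod 1009) = 0

theorem van_zero {N : ℕ} {c : ℕ → ZMod 1009} : Van N c fun _ => 0 := fun t => by
  refine Finset.sum_eq_zero fun i _ => ?_
  rw [dg_of_zero, Nat.cast_zero, mul_zero]

theorem van_concat {N T : ℕ} {c : ℕ → ZMod 1009} {F G : ℕ → ℕ} (hF : ∀ i, F i < bp T)
    (h1 : Van N c F) (h2 : Van N c G) : Van N c fun i => F i + bp T * G i := fun t => by
  by_cases ht : t < T
  · rw [← h1 t]
    refine Finset.sum_congr rfl fun i _ => ?_
    rw [dg_concat T _ _ t (hF i), if_pos ht]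
  · rw [← h2 (t - T)]
    refine Finset.sum_congr rfl fun i _ => ?_
    rw [dg_concat T _ _ t (hF i), if_neg ht]

theorem van_blk {N : ℕ} {c : ℕ → ZMod 1009} {T α : ℕ → ℕ} (hT : ∀ i, Bd 1008 (T i))
    (hα : ∀ i, α i ≤ 1008) (n : ℕ) : ∀ (x u : ℕ → ℕ), (∀ i, x i ≤ 1008) →
    (∀ k l, k + l < n → ∑ i ∈ Finset.range N, c i * (α i : ZMod 1009) *
      ((x i : ZMod 1009) * ((u i).descFactorial k : ZMod 1009) * ((dg (T i) l : ℕ) : ZMod 1009)) = 0) →
    Van N c fun i => α i * blk (T i) n (x i) (u i) := by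
  induction n with
  | zero =>
    intro x u _ _
    simp only [blk_zero, mul_zero]
    exact van_zero
  | succ n ih =>
    intro x u hx h
    have e : (fun i => α i * blk (T i) (n + 1) (x i) (u i)) = fun i =>
        α i * x i * (T i % bp (n + 1)) +
        bp (n + 1) * (α i * blk (T i) n (x i * u i % 1009) (u i - 1)) := by
      funext i
      rw [blk_succ]
      ring
    have hb : ∀ i, Bd 1008 (T i % bp (n + 1)) := fun i t => by
      rw [dg_mod]
      split_ifs
      · exact hT i t
      · exact Nat.zero_le _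
    have hM : ∀ i, α i * x i * 1008 < 4294967296 := fun i =>
      lt_of_le_of_lt (mul3 (hα i) (hx i) le_rfl) (by norm_num)
    rw [e]
    refine van_concat (fun i => lt_of_bd (hM i) (n + 1) _ (Nat.mod_lt _ (bp_pos _)) (hb i)) ?_ ?_
    · intro t
      by_cases ht : t < n + 1
      · have h1 := h 0 t (by omega)
        rw [← h1]
        refine Finset.sum_congr rfl fun i _ => ?_
        rw [bd_smul (hM i) (hb i), dg_mod, if_pos ht, Nat.descFactorial_zero]
        push_cast
        ring
      · refine Finset.sum_eq_zero fun i _ => ?_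
        rw [bd_smul (hM i) (hb i), dg_mod, if_neg ht, mul_zero, Nat.cast_zero, mul_zero]
    · refine ih (fun i => x i * u i % 1009) (fun i => u i - 1)
        (fun i => Nat.le_of_lt_succ (Nat.mod_lt _ (by norm_num))) fun k l hkl => ?_
      have h1 := h (k + 1) l (by omega)
      rw [← h1]
      refine Finset.sum_congr rfl fun i _ => ?_
      rw [desc_left, ZMod.natCast_mod]
      push_cast
      ring

/-! ### The rows -/

/-- The part of the row given by points of equal multiplicity; `π` is the block, `b` the base. -/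
noncomputable def grp (i j π b rest : ℕ) (L : List (ℕ × ℕ)) : ℕ :=
  List.rec (motive := fun _ => ℕ) rest (fun ab _ ih =>
    Nat.add (Nat.mul (Nat.mod (Nat.mul (Nat.mod (Nat.pow ab.1 i) 1009)
      (Nat.mod (Nat.pow ab.2 j) 1009)) 1009) π) (Nat.mul b ih)) L

/-- The row of the monomial `x ^ i y ^ j`. -/
noncomputable def row (i j : ℕ) (gs : List (ℕ × List (ℕ × ℕ))) : ℕ :=
  List.rec (motive := fun _ => ℕ) 0 (fun g _ ih => force (blk (tb g.1 1 j) g.1 1 i) fun π =>
    force (bp (tri g.1)) fun b => grp i j π b ih g.2) gs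

/-- The list of the rows. -/
noncomputable def gen {α : Type} (gs : List (ℕ × List (ℕ × ℕ))) (Lm : List (ℕ × ℕ)) :
    (List ℕ → α) → α :=
  List.rec (motive := fun _ => (List ℕ → α) → α) (fun k => k [])
    (fun e _ ih k => force (row e.1 e.2 gs) fun r => ih fun L' => k (r :: L')) Lm

theorem gen_eq {α : Type} (gs : List (ℕ × List (ℕ × ℕ))) (Lm : List (ℕ × ℕ)) :
    ∀ k : List ℕ → α, gen gs Lm k = k (Lm.map fun e => row e.1 e.2 gs) := by
  induction Lm with
  | nil => intro k; rfl
  | cons r L ih =>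
    intro k
    have h : gen gs (r :: L) k = force (row r.1 r.2 gs) fun r' => gen gs L fun L' => k (r' :: L') :=
      rfl
    rw [h, force_eq, ih]
    rfl

/-- The residue of `a ^ i b ^ j`. -/
noncomputable def al (ab : ℕ × ℕ) (i j : ℕ) : ℕ := ab.1 ^ i % 1009 * (ab.2 ^ j % 1009) % 1009

theorem al_le (ab : ℕ × ℕ) (i j : ℕ) : al ab i j ≤ 1008 :=
  Nat.le_of_lt_succ (Nat.mod_lt _ (by norm_num))

theorem al_cast (ab : ℕ × ℕ) (i j : ℕ) :
    (al ab i j : ZMod 1009) = (ab.1 : ZMod 1009) ^ i * (ab.2 : ZMod 1009) ^ j := by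
  unfold al
  rw [ZMod.natCast_mod, Nat.cast_mul, ZMod.natCast_mod, ZMod.natCast_mod, Nat.cast_pow,
    Nat.cast_pow]

theorem row_cons (i j m : ℕ) (L : List (ℕ × ℕ)) (gs : List (ℕ × List (ℕ × ℕ))) :
    row i j ((m, L) :: gs) = grp i j (blk (tb m 1 j) m 1 i) (bp (tri m)) (row i j gs) L := by
  have h : row i j ((m, L) :: gs) = force (blk (tb m 1 j) m 1 i) fun π =>
    force (bp (tri m)) fun b => grp i j π b (row i j gs) L := rfl
  rw [h, force_eq, force_eq]

theorem grp_cons (i j π b rest : ℕ) (ab : ℕ × ℕ) (L : List (ℕ × ℕ)) :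
    grp i j π b rest (ab :: L) = al ab i j * π + b * grp i j π b rest L := rfl

theorem tb_bd (n y u : ℕ) (hy : y < 1009) : Bd 1008 (tb n y u) := fun t =>
  Nat.le_of_lt_succ (tb_dg n y u t hy).1

theorem row_bd (i j : ℕ) (gs : List (ℕ × List (ℕ × ℕ))) : Bd 1024192512 (row i j gs) := by
  induction gs with
  | nil =>
    intro t
    have : row i j [] = 0 := rfl
    rw [this, dg_of_zero]
    exact Nat.zero_le _
  | cons g gs ih =>
    obtain ⟨m, L⟩ := g
    rw [row_cons]
    induction L with
    | nil => exact ih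
    | cons ab L ihL =>
      rw [grp_cons]
      have h := blk_bd (tb_bd m 1 j (by norm_num)) (al_le ab i j) m 1 i (by norm_num)
      exact bd_concat h.1 h.2 ihL

theorem row_van {N : ℕ} {c : ℕ → ZMod 1009} {I J : ℕ → ℕ} (gs : List (ℕ × List (ℕ × ℕ)))
    (h : ∀ g ∈ gs, ∀ ab ∈ g.2, ∀ k l : ℕ, k + l < g.1 → ∑ i ∈ Finset.range N, c i *
      (((ab.1 : ZMod 1009) ^ I i * (ab.2 : ZMod 1009) ^ J i) *
        (((I i).descFactorial k : ZMod 1009) * ((J i).descFactorial l : ZMod 1009))) = 0) :
    Van N c fun i => row (I i) (J i) gs := by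
  induction gs with
  | nil => exact van_zero
  | cons g gs ih =>
    obtain ⟨m, L⟩ := g
    have hrest := ih fun g hg => h g (List.mem_cons_of_mem _ hg)
    have hL := h (m, L) (by simp)
    simp only [row_cons]
    simp only at hL
    clear h ih
    induction L with
    | nil => exact hrest
    | cons ab L ihL =>
      simp only [grp_cons]
      have hT : ∀ i, Bd 1008 (tb m 1 (J i)) := fun i => tb_bd m 1 (J i) (by norm_num)
      refine van_concat (fun i => (blk_bd (hT i) (al_le ab (I i) (J i)) m 1 (I i)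
        (by norm_num)).1) ?_ (ihL fun ab' hab' => hL ab' (List.mem_cons_of_mem _ hab'))
      refine van_blk hT (fun i => al_le ab (I i) (J i)) m (fun _ => 1) I (fun _ => by norm_num)
        fun k l hkl => ?_
      have h1 := hL ab (by simp) k l hkl
      rw [← h1]
      refine Finset.sum_congr rfl fun i _ => ?_
      rw [(tb_dg m 1 (J i) l (by norm_num)).2, if_pos (by omega), al_cast, one_mul]
      push_cast
      ring

/-- The certificate: the elimination of the rows succeeds. -/
noncomputable def cert (gs : List (ℕ × List (ℕ × ℕ))) (Lm : List (ℕ × ℕ)) (n e : ℕ) : Bool :=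
  gen gs Lm (elim n e)

theorem cert_sound {gs : List (ℕ × List (ℕ × ℕ))} {Lm : List (ℕ × ℕ)} {n e : ℕ}
    (h : cert gs Lm n e = true) (hlen : Lm.length ≤ 1500) (c : ℕ → ZMod 1009)
    (hc : ∀ g ∈ gs, ∀ ab ∈ g.2, ∀ k l : ℕ, k + l < g.1 → ∑ i ∈ Finset.range Lm.length, c i *
      (((ab.1 : ZMod 1009) ^ (Lm.getD i (0, 0)).1 * (ab.2 : ZMod 1009) ^ (Lm.getD i (0, 0)).2) *
        (((Lm.getD i (0, 0)).1.descFactorial k : ZMod 1009) *
          ((Lm.getD i (0, 0)).2.descFactorial l : ZMod 1009))) = 0) :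
    ∀ i < Lm.length, c i = 0 := by
  unfold cert at h
  rw [gen_eq] at h
  have hl : (Lm.map fun e => row e.1 e.2 gs).length = Lm.length := List.length_map _
  have h1 := elim_sound h (fun r hr => by
    obtain ⟨e, _, rfl⟩ := List.mem_map.1 hr
    exact row_bd _ _ _) (by rw [hl]; exact hlen) c (by
    intro t
    rw [hl]
    have h2 := row_van gs hc t
    rw [← h2]
    refine Finset.sum_congr rfl fun i hi => ?_
    have hi' := Finset.mem_range.1 hi
    beta_reduce
    rw [List.getD_eq_getElem _ _ (by rw [hl]; exact hi'), List.getElem_map,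
      List.getD_eq_getElem _ _ hi'])
  rw [hl] at h1
  exact h1

end Pool.Agent.T6.H9.SG
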